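import Pool.Agent.Work.MP_46fa68_38.Far9
import Pool.Agent.Work.MP_46fa68_23.Mo4

/-!
# MP_46fa68_co (S4, R1): the budgets of the engine (units `2^(-40)`, times `den`)

helper23's numbering: wall `m1`, `t + u = m1`, `u = -1, 0, 1`, `N = 2 m1`, `m1 = μ + d` for all `d`.
The true wall is `m1 + u`, the list index `q` is the true index `q - u`
(for `u = 1` the list must begin with `([], [])`).
-/

set_option autoImplicit false

open Finset Equiv

namespace Pool.JM.FR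

open Pool.OB Pool.NV Pool.NW

/-- the true index -/
def qs (u : ℤ) (q : ℕ) : ℕ := ((q : ℤ) - u).toNat

/-- weight factor of the `e = 1` sums for `u = -1` -/
def kf (u : ℤ) (e : ℕ) : ℕ := if u < 0 then 2 ^ e else 1

/-- the budget from evaluated coefficients and a number function `N q e` (units `10^(-10)`) -/
def budL (u : ℤ) (N : ℕ → ℕ → ℕ) : List (PN × PN) → ℕ → ℕ
  | [], _ => 0
  | c :: l, q => (abS c.1 * (kf u 0 * N (qs u q) 0) + abS c.2 * (kf u 1 * N (qs u q) 1)) +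
      budL u N l (q + 1)

def bud (u : ℤ) (N : ℕ → ℕ → ℕ) (C : CI) : ℕ :=
  (budL u N C.v 0 + abS C.tau * (kf u 0 * N (qs u C.len) 0)) / 10 ^ 10 + 1

theorem budL_le {u : ℤ} {N : ℕ → ℕ → ℕ} {x : ℝ} {X : NI} (hx : Mem x X) :
    ∀ (l : List (List ℤ × List ℤ)) (q0 : ℕ),
    (∑ q ∈ range l.length, (|pev (l.getD q ([], [])).1 x| * (kf u 0 * N (qs u (q0 + q)) 0 : ℕ) +
      |pev (l.getD q ([], [])).2 x| * (kf u 1 * N (qs u (q0 + q)) 1 : ℕ))) * (S : ℕ) ≤
      (budL u N (l.map fun c => (pevI c.1 X, pevI c.2 X)) q0 : ℕ)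
  | [], q0 => by simp [budL]
  | c :: l, q0 => by
    have ih := budL_le (u := u) (N := N) hx l (q0 + 1)
    rw [List.length_cons, sum_range_succ', List.map_cons, budL]
    have e1 : ∀ q : ℕ, (c :: l).getD (q + 1) ([], []) = l.getD q ([], []) := fun q => by simp
    have e2 : (c :: l).getD 0 ([], []) = c := by simp
    simp only [e1, e2, add_zero]
    have e3 : ∀ q : ℕ, qs u (q0 + (q + 1)) = qs u (q0 + 1 + q) := fun q => by
      rw [show q0 + (q + 1) = q0 + 1 + q by ring]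
    simp only [e3]
    have a1 := le_abS (memS_pev hx c.1)
    have a2 := le_abS (memS_pev hx c.2)
    push_cast at ih ⊢
    rw [add_mul]
    have b1 : |pev c.1 x| * ((kf u 0 : ℝ) * (N (qs u q0) 0 : ℝ)) * (S : ℕ) ≤
        (abS (pevI c.1 X) : ℝ) * ((kf u 0 : ℝ) * (N (qs u q0) 0 : ℝ)) := by
      have := mul_le_mul_of_nonneg_right a1
        (by positivity : (0 : ℝ) ≤ (kf u 0 : ℝ) * (N (qs u q0) 0 : ℝ))
      linarith
    have b2 : |pev c.2 x| * ((kf u 1 : ℝ) * (N (qs u q0) 1 : ℝ)) * (S : ℕ) ≤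
        (abS (pevI c.2 X) : ℝ) * ((kf u 1 : ℝ) * (N (qs u q0) 1 : ℝ)) := by
      have := mul_le_mul_of_nonneg_right a2
        (by positivity : (0 : ℝ) ≤ (kf u 1 : ℝ) * (N (qs u q0) 1 : ℝ))
      linarith
    linarith

/-- the admissible data: `t + u = m1`, `m1 = μ + d` -/
structure Adm (u : ℤ) (cf : Cf) (μ d t : ℕ) : Prop where
  hu : u = -1 ∨ u = 0 ∨ u = 1
  hμ : 17 ≤ μ
  ht : (t : ℤ) + u = ((μ + d : ℕ) : ℤ)
  hz : u = 1 → cf.v.getD 0 ([], []) = ([], [])

/-- lifts at the base -/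
def tb (u : ℤ) (μ : ℕ) : ℕ := ((μ : ℤ) - u).toNat

/-- wall at the base -/
def wb (u : ℤ) (μ : ℕ) : ℕ := ((μ : ℤ) + u).toNat

theorem Adm.rg {u : ℤ} {cf : Cf} {μ d t : ℕ} (h : Adm u cf μ d t) : Rg (tb u μ) (wb u μ) := by
  obtain ⟨h1, h2, h3, h4⟩ := h
  unfold tb wb
  constructor <;> omega

/-- change of the numbering of the wall -/
theorem rowS_shift {u : ℤ} {cf : Cf} {μ d t : ℕ} (h : Adm u cf μ d t) (q e : ℕ) (he : e ≤ 1)
    (hq : ¬ (u = 1 ∧ q = 0)) {B : Finset ℕ} (x A : ℕ) :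
    rowS t (μ + d) q e B x A ≤ kf u e * rowS (tb u μ + d) (wb u μ + d) (qs u q) e B x A := by
  obtain ⟨h1, h2, h3, h4⟩ := h
  have ht : tb u μ + d = t := by unfold tb; omega
  have hw : ((wb u μ + d : ℕ) : ℤ) = ((μ + d : ℕ) : ℤ) + u := by unfold wb; omega
  have hix : ix (μ + d) (up B x) q (rl B x) = ix (wb u μ + d) (up B x) (qs u q) (rl B x) := by
    unfold ix qs
    omega
  unfold rowS
  rw [ht, hix, ← mul_assoc]
  refine mul_le_mul_of_nonneg_right ?_ (sum_nonneg fun a _ =>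
    mul_nonneg (Wa_nonneg _ _ _) (abs_nonneg _))
  unfold kf
  have hwR : ((wb u μ + d : ℕ) : ℝ) = ((μ + d : ℕ) : ℝ) + (u : ℝ) := by exact_mod_cast hw
  have hm : (17 : ℝ) ≤ ((μ + d : ℕ) : ℝ) := by
    have : 17 ≤ μ + d := by omega
    exact_mod_cast this
  rcases h1 with rfl | rfl | rfl
  · rw [if_pos (by norm_num)]
    interval_cases e
    · simp
    · rw [pow_one, pow_one, pow_one, hwR]
      push_cast
      push_cast at hm
      linarith
  · rw [if_neg (by norm_num), hwR]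
    simp
  · rw [if_neg (by norm_num), hwR]
    push_cast
    rw [one_mul]
    push_cast at hm
    exact pow_le_pow_left₀ (by linarith) (by linarith) _

/-- **the budget of a set of beads** -/
theorem bud_sum {u : ℤ} {cf : Cf} {μ d t den K n : ℕ} {X : NI} (h : Adm u cf μ d t)
    (hden : 0 < den) (hX : Mem (1 / ((μ + d : ℕ) : ℝ)) X) {B : Finset ℕ} (hB : B ∈ Lv K n)
    {T : Finset ℕ} (hT : T ⊆ B) (N : ℕ → ℕ → ℕ)
    (hN : ∀ q, q ≤ cf.v.length → ¬ (u = 1 ∧ q = 0) → ∀ e, e ≤ 1 → ∀ A,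
      ∑ x ∈ T, rowS (tb u μ + d) (wb u μ + d) (qs u q) e B x A ≤ (N (qs u q) e : ℝ) / 10 ^ 10)
    (hlen : u = 1 → 1 ≤ cf.v.length) :
    (∑ x ∈ T, |HIx K (μ + d) t cf.v.length (vC cf (μ + d) den) (tauC cf (μ + d) den) B x|) * den *
      (S : ℕ) ≤ (bud u N (evC cf X) : ℕ) := by
  have h' := h
  obtain ⟨h1, h2, h3, h4⟩ := h'
  set m1 := μ + d with hm1
  have hmR : (0 : ℝ) < m1 := by
    have : 0 < m1 := by omega
    exact_mod_cast this
  have hdR : (0 : ℝ) < den := by exact_mod_cast hden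
  have hS : (0 : ℝ) < ((S : ℕ) : ℝ) := by norm_num [S]
  set len := cf.v.length with hlen0
  -- bound function, `0` is replaced by a safe value where the coefficient vanishes
  set M : ℕ → ℕ → ℝ := fun q e => if u = 1 ∧ q = 0 then ∑ x ∈ T, ∑ a ∈ range 0, (0 : ℝ)
    else ((kf u e * N (qs u q) e : ℕ) : ℝ) / 10 ^ 10 with hM
  have hv : ∀ q p, 2 ≤ p → vC cf m1 den q p = 0 := fun q p hp => vC_two hp
  -- the coefficient `q = 0` vanishes for `u = 1`
  have hv0 : u = 1 → ∀ p, vC cf m1 den 0 p = 0 := by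
    intro hu p
    unfold vC
    rw [h4 hu]
    split_ifs <;> simp [pev]
  have key : ∀ A, ∀ q, q ≤ len → ¬ (u = 1 ∧ q = 0) → ∀ e, e ≤ 1 →
      ∑ x ∈ T, rowS t m1 q e B x A ≤ ((kf u e * N (qs u q) e : ℕ) : ℝ) / 10 ^ 10 := by
    intro A q hq hq0 e he
    have s1 : ∑ x ∈ T, rowS t m1 q e B x A ≤
        ∑ x ∈ T, (kf u e : ℝ) * rowS (tb u μ + d) (wb u μ + d) (qs u q) e B x A :=
      sum_le_sum fun x _ => rowS_shift h q e he hq0 x A
    refine s1.trans ?_
    rw [← mul_sum]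
    have s2 := mul_le_mul_of_nonneg_left (hN q hq hq0 e he A) (Nat.cast_nonneg (kf u e) : (0 : ℝ) ≤ _)
    refine s2.trans (le_of_eq ?_)
    push_cast
    ring
  have hmain : ∑ x ∈ T, |HIx K m1 t len (vC cf m1 den) (tauC cf m1 den) B x| ≤
      (∑ q ∈ range len, (|vC cf m1 den q 0| * (((kf u 0 * N (qs u q) 0 : ℕ) : ℝ) / 10 ^ 10) +
        |vC cf m1 den q 1| / m1 * (((kf u 1 * N (qs u q) 1 : ℕ) : ℝ) / 10 ^ 10))) +
        |tauC cf m1 den| * (((kf u 0 * N (qs u len) 0 : ℕ) : ℝ) / 10 ^ 10) := by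
    -- partial sums
    set bd := (∑ q ∈ range len, (|vC cf m1 den q 0| * (((kf u 0 * N (qs u q) 0 : ℕ) : ℝ) / 10 ^ 10) +
        |vC cf m1 den q 1| / m1 * (((kf u 1 * N (qs u q) 1 : ℕ) : ℝ) / 10 ^ 10))) +
        |tauC cf m1 den| * (((kf u 0 * N (qs u len) 0 : ℕ) : ℝ) / 10 ^ 10) with hbd
    set f : ℕ → ℕ → ℝ := fun x p => |kl t len (vC cf m1 den) (tauC cf m1 den)
      (((K - 1 + m1 : ℕ) : ℤ) - x) p * Rr B x p| with hf
    have hf0 : ∀ x p, 0 ≤ f x p := fun x p => abs_nonneg _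
    have hpart : ∀ A, ∑ p ∈ range A, ∑ x ∈ T, f x p ≤ bd := by
      intro A
      rw [sum_comm]
      have e1 : ∀ x ∈ T, ∑ p ∈ range A, f x p ≤
          (∑ q ∈ range len, (|vC cf m1 den q 0| * rowS t m1 q 0 B x A +
            |vC cf m1 den q 1| / m1 * rowS t m1 q 1 B x A)) +
            |tauC cf m1 den| * rowS t m1 len 0 B x A :=
        fun x hx => HIx_part (by omega) _ hv hB (hT hx) A
      refine (sum_le_sum e1).trans ?_
      rw [sum_add_distrib, sum_comm, ← mul_sum, hbd]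
      refine add_le_add (sum_le_sum fun q hq => ?_) ?_
      · have hqQ : q ≤ len := (mem_range.1 hq).le
        rw [sum_add_distrib, ← mul_sum, ← mul_sum]
        by_cases hq0 : u = 1 ∧ q = 0
        · rw [hq0.2, hv0 hq0.1, hv0 hq0.1]
          simp
        · exact add_le_add (mul_le_mul_of_nonneg_left (key A q hqQ hq0 0 (by omega)) (abs_nonneg _))
            (mul_le_mul_of_nonneg_left (key A q hqQ hq0 1 le_rfl) (by positivity))
      · refine mul_le_mul_of_nonneg_left (key A len le_rfl ?_ 0 (by omega)) (abs_nonneg _)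
        rintro ⟨i1, i2⟩
        have := hlen i1
        omega
    have hsum : ∀ x ∈ T, Summable (f x) := by
      intro x hx
      refine summable_of_sum_range_le (c := bd) (hf0 x) fun A => ?_
      refine le_trans (sum_le_sum fun p _ => ?_) (hpart A)
      exact single_le_sum (f := fun x => f x p) (fun y _ => hf0 y p) hx
    have h1 : ∀ x ∈ T, |HIx K m1 t len (vC cf m1 den) (tauC cf m1 den) B x| ≤ ∑' p, f x p := by
      intro x hx
      unfold HIx
      exact norm_tsum_le_tsum_norm (f := fun p => kl t len (vC cf m1 den) (tauC cf m1 den)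
        (((K - 1 + m1 : ℕ) : ℤ) - x) p * Rr B x p) (hsum x hx)
    refine (sum_le_sum h1).trans ?_
    rw [← Summable.tsum_finsetSum hsum]
    exact Real.tsum_le_of_sum_range_le (fun p => sum_nonneg fun x _ => hf0 x p) hpart
  -- the coefficients
  have c0 : ∀ q, |vC cf m1 den q 0| = |pev (cf.v.getD q ([], [])).1 (1 / m1)| / den := by
    intro q
    unfold vC
    rw [if_pos rfl, abs_div, abs_of_pos hdR]
  have c1 : ∀ q, |vC cf m1 den q 1| / m1 = |pev (cf.v.getD q ([], [])).2 (1 / m1)| / den := by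
    intro q
    unfold vC
    rw [if_neg (by norm_num), if_pos rfl, abs_div, abs_mul, abs_of_pos hdR, abs_of_pos hmR]
    field_simp
  have c2 : |tauC cf m1 den| = |pev cf.tau (1 / m1)| / den := by
    unfold tauC
    rw [abs_div, abs_of_pos hdR]
  have hL := budL_le (u := u) (N := N) hX cf.v 0
  have hTau := le_abS (memS_pev hX cf.tau)
  have hevv : (evC cf X).v = cf.v.map fun c => (pevI c.1 X, pevI c.2 X) := rfl
  have hevt : (evC cf X).tau = pevI cf.tau X := rfl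
  have hevl : (evC cf X).len = len := rfl
  have hfl := div_le_floor (budL u N (evC cf X).v 0 + abS (evC cf X).tau *
    (kf u 0 * N (qs u (evC cf X).len) 0)) (10 ^ 10) (by norm_num)
  unfold bud
  refine le_trans ?_ hfl
  rw [hevv, hevt, hevl]
  set R : ℝ := ∑ q ∈ range len, (|pev (cf.v.getD q ([], [])).1 (1 / (m1 : ℝ))| *
      (kf u 0 * N (qs u q) 0 : ℕ) +
      |pev (cf.v.getD q ([], [])).2 (1 / (m1 : ℝ))| * (kf u 1 * N (qs u q) 1 : ℕ)) with hR
  have hL' : R * (S : ℕ) ≤ (budL u N (cf.v.map fun c => (pevI c.1 X, pevI c.2 X)) 0 : ℕ) := by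
    have e0 : ∀ q : ℕ, 0 + q = q := fun q => Nat.zero_add q
    simp only [e0] at hL
    exact hL
  have hmain' : (∑ x ∈ T, |HIx K m1 t len (vC cf m1 den) (tauC cf m1 den) B x|) * den ≤
      (R + |pev cf.tau (1 / (m1 : ℝ))| * (kf u 0 * N (qs u len) 0 : ℕ)) / 10 ^ 10 := by
    refine (mul_le_mul_of_nonneg_right hmain hdR.le).trans (le_of_eq ?_)
    rw [hR, add_div, sum_div, add_mul, sum_mul, c2]
    congr 1
    · refine sum_congr rfl fun q _ => ?_
      rw [c0, c1]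
      field_simp
    · field_simp
  have hkN : (0 : ℝ) ≤ ((kf u 0 * N (qs u len) 0 : ℕ) : ℝ) := Nat.cast_nonneg _
  calc _ ≤ ((R + |pev cf.tau (1 / (m1 : ℝ))| * (kf u 0 * N (qs u len) 0 : ℕ)) / 10 ^ 10) *
        (S : ℕ) := mul_le_mul_of_nonneg_right hmain' hS.le
    _ = (R * (S : ℕ) + (|pev cf.tau (1 / (m1 : ℝ))| * (S : ℕ)) *
        (kf u 0 * N (qs u len) 0 : ℕ)) / 10 ^ 10 := by ring
    _ ≤ ((budL u N (cf.v.map fun c => (pevI c.1 X, pevI c.2 X)) 0 : ℕ) +
        (abS (pevI cf.tau X) : ℝ) * (kf u 0 * N (qs u len) 0 : ℕ)) / 10 ^ 10 := by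
        refine div_le_div_of_nonneg_right (add_le_add hL' ?_) (by positivity)
        exact mul_le_mul_of_nonneg_right hTau hkN
    _ = _ := by push_cast; ring

/-! ## the three budgets -/

/-- side conditions of the rows `≥ 3` -/
def okBL (u : ℤ) (μ Lc nC : ℕ) : ℕ → Bool
  | 0 => true
  | n + 1 => okBL u μ Lc nC n && okLow (tb u μ) (wb u μ) n 0 Lc nC &&
      okLow (tb u μ) (wb u μ) n 1 Lc nC

/-- side conditions of a far row with `c` beads above -/
def okBF (u : ℤ) (μ c J : ℕ) : ℕ → Bool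
  | 0 => true
  | n + 1 => okBF u μ c J n && okFar (tb u μ) (wb u μ) c n 0 J && okFar (tb u μ) (wb u μ) c n 1 J

theorem okBL_spec {u : ℤ} {μ Lc nC : ℕ} : ∀ {n q : ℕ}, okBL u μ Lc nC n = true → q < n →
    ∀ e, e ≤ 1 → okLow (tb u μ) (wb u μ) q e Lc nC = true
  | 0, q, _, h2 => by omega
  | n + 1, q, h, h2 => by
    rw [okBL, Bool.and_eq_true, Bool.and_eq_true] at h
    rcases Nat.lt_or_ge q n with h' | h'
    · exact okBL_spec h.1.1 h'
    · have : q = n := by omega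
      subst this
      intro e he
      interval_cases e
      · exact h.1.2
      · exact h.2

theorem okBF_spec {u : ℤ} {μ c J : ℕ} : ∀ {n q : ℕ}, okBF u μ c J n = true → q < n →
    ∀ e, e ≤ 1 → okFar (tb u μ) (wb u μ) c q e J = true
  | 0, q, _, h2 => by omega
  | n + 1, q, h, h2 => by
    rw [okBF, Bool.and_eq_true, Bool.and_eq_true] at h
    rcases Nat.lt_or_ge q n with h' | h'
    · exact okBF_spec h.1.1 h'
    · have : q = n := by omega
      subst this
      intro e he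
      interval_cases e
      · exact h.1.2
      · exact h.2

/-- rows `≥ 3`, cap `Lc` at the base -/
def budLow (u : ℤ) (μ : ℕ) (cf : Cf) (X : NI) (Lc nC : ℕ) : ℕ :=
  bud u (fun q e => lowN (tb u μ) (wb u μ) q e Lc nC) (evC cf X)

/-- row `c + 1` in a layer `> J` -/
def budF (u : ℤ) (μ c : ℕ) (cf : Cf) (X : NI) (J : ℕ) : ℕ :=
  bud u (fun q e => farN (tb u μ) (wb u μ) c q e J) (evC cf X)

theorem Two.mem_Lv {k L b s N : ℕ} {B : Finset ℕ} (h : Two k L b s B) (hN : L + b + s = N) :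
    B ∈ Lv (k + 2) N := by
  have hne := two_ne h
  have hm : k + b ∈ B.erase (k + 1 + L) := mem_erase.2 ⟨by omega, h.h2⟩
  have c1 := card_erase_add_one h.h1
  have c2 := card_erase_add_one hm
  rw [mem_Lv_iff]
  refine ⟨by rw [← c1, ← c2, h.hc], ?_⟩
  have s1 : (k + 1 + L) + ∑ y ∈ B.erase (k + 1 + L), y = ∑ y ∈ B, y :=
    add_sum_erase B (fun y => y) h.h1
  have s2 : (k + b) + ∑ y ∈ (B.erase (k + 1 + L)).erase (k + b), y =
      ∑ y ∈ B.erase (k + 1 + L), y := add_sum_erase (B.erase (k + 1 + L)) (fun y => y) hm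
  rw [← s1, ← s2, h.hs, sum_range_succ, sum_range_succ]
  omega

theorem qs_lt {u : ℤ} {cf : Cf} {μ d t : ℕ} (h : Adm u cf μ d t) {q : ℕ} (hq : q ≤ cf.v.length) :
    qs u q < cf.v.length + 2 := by
  obtain ⟨h1, -, -, -⟩ := h
  unfold qs
  omega

/-- **(LOW)** `|den * HL| <= budLow` -/
theorem bud_low {u : ℤ} {cf : Cf} {μ d t den k L b s Lc nC : ℕ} {X : NI} (h : Adm u cf μ d t)
    (hden : 0 < den) (hX : Mem (1 / ((μ + d : ℕ) : ℝ)) X) (hlen : u = 1 → 1 ≤ cf.v.length)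
    (hok : okBL u μ Lc nC (cf.v.length + 2) = true) {B : Finset ℕ} (hT : Two k L b s B)
    (hN : L + b + s = 2 * (μ + d)) (hs : s ≤ Lc + d ∨ (2 * μ) / 3 ≤ Lc) :
    |HL (k + 2) (μ + d) t cf.v.length (vC cf (μ + d) den) (tauC cf (μ + d) den) B (k + b)| * den *
      (S : ℕ) ≤ (budLow u μ cf X Lc nC : ℕ) := by
  have hB0 := Two.mem_Lv hT hN
  obtain ⟨h1, h2, h3, h4⟩ := h
  have htw : tb u μ + wb u μ = 2 * μ := by unfold tb wb; omega
  have hB : B ∈ Lv (k + 2) ((tb u μ + d) + (wb u μ + d)) := by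
    rw [show tb u μ + d + (wb u μ + d) = 2 * (μ + d) by omega]
    exact hB0
  have hcap : ∀ x ∈ B, 2 ≤ up B x → rl B x ≤ Lc + d := by
    intro x hx h2
    rcases hs with hs | hs
    · have hx2 : x ∈ B.filter (fun x => x < k + b) := by
        rw [Two.low hT]
        exact mem_filter.2 ⟨hx, h2⟩
      exact (Two.rl_low hT hB hx (mem_filter.1 hx2).2).trans hs
    · have h3 := rl_le hB hx (by omega)
      have h4 : (tb u μ + wb u μ) / (up B x + 1) ≤ (tb u μ + wb u μ) / 3 :=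
        Nat.div_le_div_left (by omega) (by norm_num)
      rw [htw] at h3 h4
      exact h3.trans (Nat.add_le_add_right (h4.trans hs) d)
  have hden0 : (0 : ℝ) ≤ den := Nat.cast_nonneg den
  unfold HL
  rw [Two.low hT]
  have e1 := abs_sum_le_sum_abs (fun x => HIx (k + 2) (μ + d) t cf.v.length (vC cf (μ + d) den)
    (tauC cf (μ + d) den) B x) (B.filter (fun x => 2 ≤ up B x))
  refine (mul_le_mul_of_nonneg_right (mul_le_mul_of_nonneg_right e1 hden0)
    (by norm_num [S])).trans ?_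
  refine bud_sum (N := fun q e => lowN (tb u μ) (wb u μ) q e Lc nC) ⟨h1, h2, h3, h4⟩ hden hX hB
    (filter_subset _ _) ?_ hlen
  intro q hq hq0 e he A
  exact low_bound (Adm.rg ⟨h1, h2, h3, h4⟩) he
    (okBL_spec hok (qs_lt ⟨h1, h2, h3, h4⟩ hq) e he) d hB hcap A

/-- **(FAR1)** the top bead in a layer `> J` (layer `j1 = m1 - L` in helper23's numbering) -/
theorem bud_far1 {u : ℤ} {cf : Cf} {μ d t den k L b s J : ℕ} {X : NI} (h : Adm u cf μ d t)
    (hden : 0 < den) (hX : Mem (1 / ((μ + d : ℕ) : ℝ)) X) (hlen : u = 1 → 1 ≤ cf.v.length)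
    {B : Finset ℕ} (hT : Two k L b s B) (hN : L + b + s = 2 * (μ + d))
    {J' : ℕ} (hJ' : (J' : ℤ) = J + u) (hok : okBF u μ 0 J' (cf.v.length + 2) = true)
    (hJ : L + J + 1 ≤ μ + d) :
    |HIx (k + 2) (μ + d) t cf.v.length (vC cf (μ + d) den) (tauC cf (μ + d) den) B (k + 1 + L)| *
      den * (S : ℕ) ≤ (budF u μ 0 cf X J' : ℕ) := by
  have hB0 := Two.mem_Lv hT hN
  obtain ⟨h1, h2, h3, h4⟩ := h
  have hB : B ∈ Lv (k + 2) ((tb u μ + d) + (wb u μ + d)) := by
    rw [show tb u μ + d + (wb u μ + d) = 2 * (μ + d) by unfold tb wb; omega]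
    exact hB0
  have := bud_sum (N := fun q e => farN (tb u μ) (wb u μ) 0 q e J') ⟨h1, h2, h3, h4⟩ hden hX hB
    (T := {k + 1 + L}) (singleton_subset_iff.2 hT.h1) (fun q hq hq0 e he A => by
      rw [sum_singleton]
      refine far_bound (Adm.rg ⟨h1, h2, h3, h4⟩) he
        (okBF_spec hok (qs_lt ⟨h1, h2, h3, h4⟩ hq) e he) d hB hT.h1 (Two.up1 hT) ?_ A
      rw [Two.rl1 hT]
      unfold wb
      omega) hlen
  rw [sum_singleton] at this
  exact this

/-- **(FAR2)** the second bead in a layer `> J` (layer `j2 = m1 + 1 - b`) -/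
theorem bud_far2 {u : ℤ} {cf : Cf} {μ d t den k L b s J : ℕ} {X : NI} (h : Adm u cf μ d t)
    (hden : 0 < den) (hX : Mem (1 / ((μ + d : ℕ) : ℝ)) X) (hlen : u = 1 → 1 ≤ cf.v.length)
    {B : Finset ℕ} (hT : Two k L b s B) (hN : L + b + s = 2 * (μ + d))
    {J' : ℕ} (hJ' : (J' : ℤ) = J + u) (hok : okBF u μ 1 J' (cf.v.length + 2) = true)
    (hJ : b + J ≤ μ + d) :
    |HIx (k + 2) (μ + d) t cf.v.length (vC cf (μ + d) den) (tauC cf (μ + d) den) B (k + b)| *
      den * (S : ℕ) ≤ (budF u μ 1 cf X J' : ℕ) := by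
  have hB0 := Two.mem_Lv hT hN
  obtain ⟨h1, h2, h3, h4⟩ := h
  have hB : B ∈ Lv (k + 2) ((tb u μ + d) + (wb u μ + d)) := by
    rw [show tb u μ + d + (wb u μ + d) = 2 * (μ + d) by unfold tb wb; omega]
    exact hB0
  have := bud_sum (N := fun q e => farN (tb u μ) (wb u μ) 1 q e J') ⟨h1, h2, h3, h4⟩ hden hX hB
    (T := {k + b}) (singleton_subset_iff.2 hT.h2) (fun q hq hq0 e he A => by
      rw [sum_singleton]
      refine far_bound (Adm.rg ⟨h1, h2, h3, h4⟩) he
        (okBF_spec hok (qs_lt ⟨h1, h2, h3, h4⟩ hq) e he) d hB hT.h2 (Two.up2 hT) ?_ A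
      rw [Two.rl2 hT]
      unfold wb
      omega) hlen
  rw [sum_singleton] at this
  exact this

end Pool.JM.FR
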