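import Pool.Agent.Work.MP_46fa68_38.ModeA

/-!
# MP_46fa68_co (S4): the maximum over all layers `> J` at one point `m1`

`mF u m1 cf X c J n` = maximum of the sharp numbers `mA` of the layers `J + 1, .., J + n` and of the
uniform budget `budF` of the layers `> J + n` (row `c + 1`; units `2^(-40)`, times `den`).
-/

set_option autoImplicit false

open Finset

namespace Pool.JM.FR

open Pool.OB Pool.NV Pool.NW

/-- maximum of `f (J + 1), .., f (J + n)` and `z` -/
def mxA (f : ℤ → ℕ) (J : ℤ) (z : ℕ) : ℕ → ℕ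
  | 0 => z
  | n + 1 => max (f (J + 1 + n)) (mxA f J z n)

theorem le_mxA_z {f : ℤ → ℕ} {J : ℤ} {z : ℕ} : ∀ n, z ≤ mxA f J z n
  | 0 => le_rfl
  | n + 1 => (le_mxA_z n).trans (le_max_right _ _)

theorem le_mxA {f : ℤ → ℕ} {J : ℤ} {z : ℕ} : ∀ {n i : ℕ}, i < n → f (J + 1 + i) ≤ mxA f J z n
  | 0, i, h => by omega
  | n + 1, i, h => by
    rw [mxA]
    rcases Nat.lt_or_ge i n with h' | h'
    · exact (le_mxA h').trans (le_max_right _ _)
    · have : i = n := by omega
      subst this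
      exact le_max_left _ _

/-- the length of the bead of row `c + 1` in layer `j` -/
def lenA (m1 c : ℕ) (j : ℤ) : ℕ := ((m1 : ℤ) + c - j).toNat

/-- **maximum over all layers `> J`** -/
def mF (u : ℤ) (m1 : ℕ) (cf : Cf) (X : NI) (c : ℕ) (J : ℤ) (n : ℕ) : ℕ :=
  mxA (fun j => mA u m1 cf X c (lenA m1 c j)) J (budF u m1 c cf X (J + n + u).toNat) n

/-- side conditions of the layers `J + 1, .., J + n` -/
def okAs (u : ℤ) (m1 : ℕ) (X : NI) (c : ℕ) (J : ℤ) : ℕ → Bool
  | 0 => true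
  | n + 1 => okA u m1 X c (lenA m1 c (J + 1 + n)) && okAs u m1 X c J n

def okF (u : ℤ) (m1 : ℕ) (cf : Cf) (X : NI) (c : ℕ) (J : ℤ) (n : ℕ) : Bool :=
  decide (0 ≤ J + n + u) && (okAs u m1 X c J n && okBF u m1 c (J + n + u).toNat (cf.v.length + 2))

theorem okAs_spec {u : ℤ} {m1 : ℕ} {X : NI} {c : ℕ} {J : ℤ} : ∀ {n i : ℕ}, okAs u m1 X c J n = true →
    i < n → okA u m1 X c (lenA m1 c (J + 1 + i)) = true
  | 0, i, _, h => by omega
  | n + 1, i, hok, h => by
    rw [okAs, Bool.and_eq_true] at hok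
    rcases Nat.lt_or_ge i n with h' | h'
    · exact okAs_spec hok.2 h'
    · have : i = n := by omega
      subst this
      exact hok.1

/-- **a bead of row `c + 1` in a layer `> J`** -/
theorem row_A {u : ℤ} {cf : Cf} {m1 t den K c n : ℕ} {J : ℤ} {X : NI} (h : Adm u cf m1 0 t)
    (hden : 0 < den) (hX : Mem (1 / (m1 : ℝ)) X) (hlen : u = 1 → 1 ≤ cf.v.length)
    (hok : okF u m1 cf X c J n = true) {B : Finset ℕ} (hB : B ∈ Lv K (2 * m1)) {x : ℕ} (hx : x ∈ B)
    (hc : up B x = c) (hJ : (rl B x : ℤ) + J + 1 ≤ m1 + c) :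
    |HIx K m1 t cf.v.length (vC cf m1 den) (tauC cf m1 den) B x| * den * (S : ℕ) ≤
      (mF u m1 cf X c J n : ℕ) := by
  unfold okF at hok
  rw [Bool.and_eq_true, Bool.and_eq_true, decide_eq_true_eq] at hok
  obtain ⟨o0, o1, o2⟩ := hok
  have h' := h
  obtain ⟨h1, h2, h3, h4⟩ := h'
  rw [Nat.add_zero] at h3
  rcases lt_or_ge ((rl B x : ℤ) + J + n + 1) ((m1 : ℤ) + c + 1) with hfar | hnear
  · -- beyond `J + n`
    have hB' : B ∈ Lv K ((tb u m1 + 0) + (wb u m1 + 0)) := by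
      rw [show tb u m1 + 0 + (wb u m1 + 0) = 2 * m1 by unfold tb wb; omega]
      exact hB
    have := bud_sum (N := fun q e => farN (tb u m1) (wb u m1) c q e (J + n + u).toNat) h hden hX hB
      (T := {x}) (singleton_subset_iff.2 hx) (fun q hq hq0 e he A => by
        rw [sum_singleton]
        refine far_bound (Adm.rg h) he (okBF_spec o2 (qs_lt h hq) e he) 0 hB' hx hc ?_ A
        unfold wb
        omega) hlen
    rw [sum_singleton] at this
    refine this.trans ?_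
    exact_mod_cast le_mxA_z (f := fun j => mA u m1 cf X c (lenA m1 c j)) (J := J) n
  · obtain ⟨i, hi⟩ : ∃ i : ℕ, (m1 : ℤ) + c - rl B x = J + 1 + i :=
      ⟨((m1 : ℤ) + c - rl B x - J - 1).toNat, by omega⟩
    have hin : i < n := by omega
    have hl : lenA m1 c (J + 1 + i) = rl B x := by
      unfold lenA
      omega
    have hok' := okAs_spec o1 hin
    rw [hl] at hok'
    refine (mode_A (by omega) h3 hden hX hok' hB hx hc rfl).trans ?_
    have := le_mxA (f := fun j => mA u m1 cf X c (lenA m1 c j)) (J := J)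
      (z := budF u m1 c cf X (J + n + u).toNat) hin
    rw [← hl]
    exact_mod_cast this

/-- the first row in a layer `> J` -/
theorem far1_A {u : ℤ} {cf : Cf} {m1 t den k L b s n : ℕ} {J : ℤ} {X : NI} (h : Adm u cf m1 0 t)
    (hden : 0 < den) (hX : Mem (1 / (m1 : ℝ)) X) (hlen : u = 1 → 1 ≤ cf.v.length)
    (hok : okF u m1 cf X 0 J n = true) {B : Finset ℕ} (hT : Two k L b s B)
    (hN : L + b + s = 2 * m1) (hJ : J < (m1 : ℤ) - L) :
    |HIx (k + 2) m1 t cf.v.length (vC cf m1 den) (tauC cf m1 den) B (k + 1 + L)| * den * (S : ℕ) ≤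
      (mF u m1 cf X 0 J n : ℕ) := by
  refine row_A h hden hX hlen hok (Two.mem_Lv hT hN) hT.h1 (Two.up1 hT) ?_
  rw [Two.rl1 hT]
  push_cast
  omega

/-- the second row in a layer `> J` -/
theorem far2_A {u : ℤ} {cf : Cf} {m1 t den k L b s n : ℕ} {J : ℤ} {X : NI} (h : Adm u cf m1 0 t)
    (hden : 0 < den) (hX : Mem (1 / (m1 : ℝ)) X) (hlen : u = 1 → 1 ≤ cf.v.length)
    (hok : okF u m1 cf X 1 J n = true) {B : Finset ℕ} (hT : Two k L b s B)
    (hN : L + b + s = 2 * m1) (hJ : J < (m1 : ℤ) + 1 - b) :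
    |HIx (k + 2) m1 t cf.v.length (vC cf m1 den) (tauC cf m1 den) B (k + b)| * den * (S : ℕ) ≤
      (mF u m1 cf X 1 J n : ℕ) := by
  refine row_A h hden hX hlen hok (Two.mem_Lv hT hN) hT.h2 (Two.up2 hT) ?_
  rw [Two.rl2 hT]
  push_cast
  omega

end Pool.JM.FR
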