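import Pool.Agent.Work.MP_46fa68_38.ModeA2

/-!
# MP_46fa68_co (S4): sharp bound of the rows `≥ 3` at one point `m1`

Rows `3, .., c0` (that is `2 ≤ c < c0` beads above) by the sharp numbers `mF`, the rows below by the
uniform budget.
-/

set_option autoImplicit false

open Finset

namespace Pool.JM.FR

open Pool.OB Pool.NV Pool.NW

/-- the uniform bound of the rows with `c0, c0 + 1, ..` beads above (`c0 ≥ 2`) -/
def lowR (t0 m0 q e Lc nC c0 : ℕ) : ℕ :=
  (lowE t0 m0 q e Lc nC - lowE t0 m0 q e Lc (c0 - 2)) + 2 * sentK t0 m0 (nC + 2) q e 96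

theorem lowE_mono {t0 m0 q e Lc : ℕ} {a b : ℕ} (h : a ≤ b) :
    lowE t0 m0 q e Lc a ≤ lowE t0 m0 q e Lc b := by
  rw [lowE_eq, lowE_eq]
  exact sum_le_sum_of_subset (range_subset_range.2 h)

theorem low_boundR {K t0 m0 q e Lc nC c0 : ℕ} (hR : Rg t0 m0) (he : e ≤ 1) (hc2 : 2 ≤ c0)
    (hcn : c0 ≤ nC + 2) (hok : okLow t0 m0 q e Lc nC = true) (d : ℕ) {B : Finset ℕ}
    (hB : B ∈ Lv K ((t0 + d) + (m0 + d)))
    (hcap : ∀ x ∈ B, 2 ≤ up B x → rl B x ≤ Lc + d) (A : ℕ) :
    ∑ x ∈ B.filter (fun x => c0 ≤ up B x), rowS (t0 + d) (m0 + d) q e B x A ≤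
      (lowR t0 m0 q e Lc nC c0 : ℝ) / 10 ^ 10 := by
  unfold okLow at hok
  simp only [Bool.and_eq_true, decide_eq_true_eq] at hok
  obtain ⟨⟨o1, o2⟩, o3⟩ := hok
  set T : ℝ := (sentK t0 m0 (nC + 2) q e 96 : ℝ) / 10 ^ 10 with hT
  have hT0 : 0 ≤ T := by positivity
  set β : ℕ → ℝ := fun c => if c < c0 then 0 else if c < nC + 2 then
      (rowE t0 m0 c q e (min Lc ((t0 + m0) / (c + 1))) : ℝ) / 10 ^ 10
    else T * (1 / 2) ^ (c - (nC + 2)) with hβ
  have hβ0 : ∀ c, 0 ≤ β c := fun c => by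
    simp only [hβ]
    split_ifs <;> positivity
  obtain ⟨r1, r2, r3, r4⟩ := hR
  -- every bead
  have h1 : ∀ x ∈ B.filter (fun x => c0 ≤ up B x),
      rowS (t0 + d) (m0 + d) q e B x A ≤ β (up B x) := by
    intro x hx
    obtain ⟨hxB, h2'⟩ := mem_filter.1 hx
    have h2 : 2 ≤ up B x := hc2.trans h2'
    have hcx := hcap x hxB h2
    have hrl := rl_le hB hxB (by omega)
    simp only [hβ]
    rw [if_neg (by omega)]
    split_ifs with hc
    · obtain ⟨k, hk⟩ : ∃ k, up B x = k + 2 := ⟨up B x - 2, by omega⟩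
      refine row_bound ⟨r1, r2, r3, r4⟩ he d hB hxB ?_ ?_ A
      · rw [hk]
        exact okE_spec o1 (by omega)
      · exact le_min_add hcx hrl
    · obtain ⟨k, hk⟩ : ∃ k, up B x = nC + 2 + k := ⟨up B x - (nC + 2), by omega⟩
      have hs : rl B x ≤ 3 + d := by
        by_contra hcon
        push Not at hcon
        have h5 : 3 ≤ (t0 + m0) / (up B x + 1) := by
          have := hcon.le.trans hrl
          by_contra h6
          push Not at h6
          have h7 := lt_of_lt_of_le hcon hrl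
          omega
        rw [Nat.le_div_iff_mul_le (by omega)] at h5
        omega
      obtain ⟨d1, i, hi, hr⟩ := short_row (q := q) ⟨r1, r2, r3, r4⟩ he hB hxB hs A
      refine hr.trans ?_
      rw [hk] at hi ⊢
      have := small_tail (c := nC + 2) (q := q) (e := e) r1 r2 r3 he (by omega)
        (by unfold i3; omega) k d1 hi A
      rw [show nC + 2 + k - (nC + 2) = k by omega]
      exact this
  refine (sum_le_sum h1).trans ?_
  -- the sum over the numbers of beads above
  have hinj : Set.InjOn (up B) (B.filter (fun x => c0 ≤ up B x)) :=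
    (up_inj B).mono fun x hx => by
      have := (mem_filter.1 (mem_coe.1 hx)).1
      exact mem_coe.2 this
  rw [← sum_image (f := β) hinj]
  have hsub : (B.filter (fun x => c0 ≤ up B x)).image (up B) ⊆
      (range (nC + B.card)).image (fun k => k + 2) := by
    intro c hc
    obtain ⟨x, hx, rfl⟩ := mem_image.1 hc
    obtain ⟨hxB, h2⟩ := mem_filter.1 hx
    have : up B x ≤ B.card := card_le_card (filter_subset _ _)
    exact mem_image.2 ⟨up B x - 2, mem_range.2 (by omega), by omega⟩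
  refine (sum_le_sum_of_subset_of_nonneg hsub fun _ _ _ => hβ0 _).trans ?_
  rw [sum_image (fun a _ b _ h => by simpa using h), sum_range_add]
  have e1 : ∑ k ∈ range nC, β (k + 2) =
      ((lowE t0 m0 q e Lc nC - lowE t0 m0 q e Lc (c0 - 2) : ℕ) : ℝ) / 10 ^ 10 := by
    rw [Nat.cast_sub (lowE_mono (by omega)), lowE_eq, lowE_eq]
    obtain ⟨w, hw⟩ : ∃ w, nC = (c0 - 2) + w := ⟨nC - (c0 - 2), by omega⟩
    rw [hw, sum_range_add, sum_range_add]
    have z1 : ∑ k ∈ range (c0 - 2), β (k + 2) = 0 := by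
      refine sum_eq_zero fun k hk => ?_
      have := mem_range.1 hk
      simp only [hβ]
      rw [if_pos (by omega)]
    rw [z1, zero_add]
    push_cast
    rw [add_sub_cancel_left, sum_div]
    refine sum_congr rfl fun k hk => ?_
    have := mem_range.1 hk
    simp only [hβ]
    rw [if_neg (by omega), if_pos (by omega)]
  have e2 : ∑ k ∈ range B.card, β (nC + k + 2) ≤ 2 * T := by
    have : ∀ k ∈ range B.card, β (nC + k + 2) = T * (1 / 2) ^ k := fun k _ => by
      simp only [hβ]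
      rw [if_neg (by omega), if_neg (by omega), show nC + k + 2 - (nC + 2) = k by omega]
    rw [sum_congr rfl this, ← mul_sum]
    have hg : ∑ k ∈ range B.card, (1 / 2 : ℝ) ^ k ≤ 2 := by
      have h := Summable.sum_le_tsum (f := fun k : ℕ => (1 / 2 : ℝ) ^ k) (range B.card)
        (fun _ _ => by positivity) (summable_geometric_of_lt_one (by norm_num) (by norm_num))
      rw [tsum_geometric_of_lt_one (by norm_num) (by norm_num)] at h
      refine h.trans ?_
      norm_num
    calc T * ∑ k ∈ range B.card, (1 / 2 : ℝ) ^ k ≤ T * 2 := mul_le_mul_of_nonneg_left hg hT0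
      _ = 2 * T := by ring
  rw [e1]
  unfold lowR
  push_cast
  calc _ ≤ ((lowE t0 m0 q e Lc nC - lowE t0 m0 q e Lc (c0 - 2) : ℕ) : ℝ) / 10 ^ 10 + 2 * T := by
        linarith
    _ = _ := by rw [hT]; ring

/-- cap of the length of the row with `c` beads above -/
def capA (m1 Lc c : ℕ) : ℕ := min Lc (2 * m1 / (c + 1))

/-- sharp numbers of the rows with `2, .., n + 1` beads above -/
def lowS (u : ℤ) (m1 : ℕ) (cf : Cf) (X : NI) (Lc w : ℕ) : ℕ → ℕ
  | 0 => 0
  | n + 1 => lowS u m1 cf X Lc w n +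
      mF u m1 cf X (n + 2) ((m1 : ℤ) + (n + 2 : ℕ) - capA m1 Lc (n + 2) - 1) w

def okS (u : ℤ) (m1 : ℕ) (cf : Cf) (X : NI) (Lc w : ℕ) : ℕ → Bool
  | 0 => true
  | n + 1 => okS u m1 cf X Lc w n &&
      okF u m1 cf X (n + 2) ((m1 : ℤ) + (n + 2 : ℕ) - capA m1 Lc (n + 2) - 1) w

/-- **sharp budget of the rows `≥ 3`**: `n` rows sharp (window `w`), the others uniform -/
def lowA (u : ℤ) (m1 : ℕ) (cf : Cf) (X : NI) (Lc nC w n : ℕ) : ℕ :=
  lowS u m1 cf X Lc w n +
    bud u (fun q e => lowR (tb u m1) (wb u m1) q e Lc nC (n + 2)) (evC cf X)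

def okLA (u : ℤ) (m1 : ℕ) (cf : Cf) (X : NI) (Lc nC w n : ℕ) : Bool :=
  okS u m1 cf X Lc w n && (okBL u m1 Lc nC (cf.v.length + 2) && decide (n ≤ nC))

theorem okS_spec {u : ℤ} {m1 : ℕ} {cf : Cf} {X : NI} {Lc w : ℕ} : ∀ {n k : ℕ},
    okS u m1 cf X Lc w n = true → k < n →
    okF u m1 cf X (k + 2) ((m1 : ℤ) + (k + 2 : ℕ) - capA m1 Lc (k + 2) - 1) w = true
  | 0, k, _, h2 => by omega
  | n + 1, k, h, h2 => by
    rw [okS, Bool.and_eq_true] at h
    rcases Nat.lt_or_ge k n with h' | h'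
    · exact okS_spec h.1 h'
    · have : k = n := by omega
      subst this
      exact h.2

theorem lowS_eq (u : ℤ) (m1 : ℕ) (cf : Cf) (X : NI) (Lc w : ℕ) (n : ℕ) :
    lowS u m1 cf X Lc w n = ∑ k ∈ range n,
      mF u m1 cf X (k + 2) ((m1 : ℤ) + (k + 2 : ℕ) - capA m1 Lc (k + 2) - 1) w := by
  induction n with
  | zero => rfl
  | succ n ih => rw [lowS, ih, sum_range_succ]

/-- **(LOW, sharp)**, any cap -/
theorem low_A_cap {u : ℤ} {cf : Cf} {m1 t den k L b s Lc nC w n : ℕ} {X : NI}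
    (h : Adm u cf m1 0 t)
    (hden : 0 < den) (hX : Mem (1 / (m1 : ℝ)) X) (hlen : u = 1 → 1 ≤ cf.v.length)
    (hok : okLA u m1 cf X Lc nC w n = true) {B : Finset ℕ} (hT : Two k L b s B)
    (hN : L + b + s = 2 * m1) (hcap : ∀ x ∈ B, 2 ≤ up B x → rl B x ≤ Lc) :
    |HL (k + 2) m1 t cf.v.length (vC cf m1 den) (tauC cf m1 den) B (k + b)| * den * (S : ℕ) ≤
      (lowA u m1 cf X Lc nC w n : ℕ) := by
  unfold okLA at hok
  rw [Bool.and_eq_true, Bool.and_eq_true, decide_eq_true_eq] at hok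
  obtain ⟨o1, o2, o3⟩ := hok
  have hB0 := Two.mem_Lv hT hN
  have hrg := Adm.rg h
  have h' := h
  obtain ⟨h1, h2, h3, h4⟩ := h'
  rw [Nat.add_zero] at h3
  have htw : tb u m1 + wb u m1 = 2 * m1 := by unfold tb wb; omega
  have hB' : B ∈ Lv (k + 2) ((tb u m1 + 0) + (wb u m1 + 0)) := by
    rw [show tb u m1 + 0 + (wb u m1 + 0) = 2 * m1 by omega]
    exact hB0
  have hS : (0 : ℝ) < ((S : ℕ) : ℝ) := by norm_num [S]
  have hden0 : (0 : ℝ) ≤ den := Nat.cast_nonneg den
  set g : ℕ → ℝ := fun x => |HIx (k + 2) m1 t cf.v.length (vC cf m1 den) (tauC cf m1 den) B x|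
    with hg
  have hg0 : ∀ x, 0 ≤ g x := fun x => abs_nonneg _
  -- splitting
  have hsplit : ∑ x ∈ B.filter (fun x => 2 ≤ up B x), g x =
      ∑ x ∈ B.filter (fun x => 2 ≤ up B x ∧ up B x < n + 2), g x +
        ∑ x ∈ B.filter (fun x => n + 2 ≤ up B x), g x := by
    rw [← sum_filter_add_sum_filter_not (B.filter (fun x => 2 ≤ up B x)) (fun x => up B x < n + 2),
      filter_filter, filter_filter]
    congr 1
    refine sum_congr (filter_congr fun x _ => ?_) fun _ _ => rfl
    constructor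
    · rintro ⟨_, q2⟩
      omega
    · intro q1
      exact ⟨by omega, by omega⟩
  -- the sharp rows
  have hA : (∑ x ∈ B.filter (fun x => 2 ≤ up B x ∧ up B x < n + 2), g x) * den * (S : ℕ) ≤
      (lowS u m1 cf X Lc w n : ℕ) := by
    set β : ℕ → ℕ := fun c => mF u m1 cf X c ((m1 : ℤ) + c - capA m1 Lc c - 1) w with hβ
    have e1 : ∀ x ∈ B.filter (fun x => 2 ≤ up B x ∧ up B x < n + 2),
        g x * (den * (S : ℕ)) ≤ (β (up B x) : ℝ) := by
      intro x hx
      obtain ⟨hxB, hx2, hx3⟩ := mem_filter.1 hx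
      obtain ⟨c, hc⟩ : ∃ c, up B x = c + 2 := ⟨up B x - 2, by omega⟩
      have hok' := okS_spec o1 (k := c) (by omega)
      have hrl := hcap x hxB hx2
      have hrl2 := rl_le hB' hxB (by omega)
      rw [htw, add_zero] at hrl2
      have hcc : rl B x ≤ capA m1 Lc (c + 2) := by
        unfold capA
        rw [hc] at hrl2
        exact le_min hrl hrl2
      have := row_A h hden hX hlen hok' hB0 hxB hc (by omega)
      rw [hc, ← mul_assoc]
      exact this
    calc (∑ x ∈ B.filter (fun x => 2 ≤ up B x ∧ up B x < n + 2), g x) * den * (S : ℕ)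
        = ∑ x ∈ B.filter (fun x => 2 ≤ up B x ∧ up B x < n + 2), g x * (den * (S : ℕ)) := by
          rw [mul_assoc, sum_mul]
      _ ≤ ∑ x ∈ B.filter (fun x => 2 ≤ up B x ∧ up B x < n + 2), (β (up B x) : ℝ) :=
          sum_le_sum e1
      _ ≤ ((lowS u m1 cf X Lc w n : ℕ) : ℝ) := by
          have hinj : Set.InjOn (up B) (B.filter (fun x => 2 ≤ up B x ∧ up B x < n + 2)) :=
            (up_inj B).mono fun x hx => by
              have := (mem_filter.1 (mem_coe.1 hx)).1
              exact mem_coe.2 this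
          have hsub : (B.filter (fun x => 2 ≤ up B x ∧ up B x < n + 2)).image (up B) ⊆
              (range n).image (fun k => k + 2) := by
            intro c hc
            obtain ⟨x, hx, rfl⟩ := mem_image.1 hc
            obtain ⟨_, hx2, hx3⟩ := mem_filter.1 hx
            exact mem_image.2 ⟨up B x - 2, mem_range.2 (by omega), by omega⟩
          rw [lowS_eq]
          have e2 : ∑ x ∈ B.filter (fun x => 2 ≤ up B x ∧ up B x < n + 2), β (up B x) ≤
              ∑ k ∈ range n, β (k + 2) := by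
            rw [← sum_image (f := β) hinj]
            refine (sum_le_sum_of_subset hsub).trans ?_
            rw [sum_image (fun a _ b _ h => by simpa using h)]
          rw [← Nat.cast_sum]
          exact Nat.cast_le.2 e2
  -- the other rows
  have hR : (∑ x ∈ B.filter (fun x => n + 2 ≤ up B x), g x) * den * (S : ℕ) ≤
      (bud u (fun q e => lowR (tb u m1) (wb u m1) q e Lc nC (n + 2)) (evC cf X) : ℕ) := by
    refine bud_sum (N := fun q e => lowR (tb u m1) (wb u m1) q e Lc nC (n + 2)) h hden hX hB'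
      (filter_subset _ _) ?_ hlen
    intro q hq hq0 e he A
    exact low_boundR hrg he (by omega) (by omega)
      (okBL_spec o2 (qs_lt h hq) e he) 0 hB' (fun x hx hx2 => by simpa using hcap x hx hx2) A
  -- together
  unfold HL
  rw [Two.low hT]
  have e1 := abs_sum_le_sum_abs (fun x => HIx (k + 2) m1 t cf.v.length (vC cf m1 den)
    (tauC cf m1 den) B x) (B.filter (fun x => 2 ≤ up B x))
  refine (mul_le_mul_of_nonneg_right (mul_le_mul_of_nonneg_right e1 hden0) hS.le).trans ?_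
  have e3 : (∑ x ∈ B.filter (fun x => 2 ≤ up B x), g x) * den * (S : ℕ) ≤
      ((lowA u m1 cf X Lc nC w n : ℕ) : ℝ) := by
    rw [hsplit, add_mul, add_mul]
    unfold lowA
    push_cast
    push_cast at hA hR
    exact add_le_add hA hR
  exact e3

/-- every row below the second one has length at most `b` -/
theorem Two.rl_b {k L b s N : ℕ} {B : Finset ℕ} (h : Two k L b s B) (hB : B ∈ Lv (k + 2) N) {x : ℕ}
    (hx : x ∈ B) (h2 : 2 ≤ up B x) : rl B x ≤ b := by
  have hxl : x < k + b := by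
    have : x ∈ B.filter (fun x => x < k + b) := by
      rw [Two.low h]
      exact mem_filter.2 ⟨hx, h2⟩
    exact (mem_filter.1 this).2
  have hc : B.card = k + 2 := (Lv_spec hB).1
  have hsub : B.filter (x < ·) ⊆ insert (k + 1 + L) (insert (k + b) (Ioo x (k + b))) := by
    intro y hy
    obtain ⟨y1, y2⟩ := mem_filter.1 hy
    by_cases e1 : y = k + 1 + L
    · rw [e1]; exact mem_insert_self _ _
    by_cases e2 : y = k + b
    · rw [e2]; exact mem_insert_of_mem (mem_insert_self _ _)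
    have := h.hlt y (mem_erase.2 ⟨e2, mem_erase.2 ⟨e1, y1⟩⟩)
    exact mem_insert_of_mem (mem_insert_of_mem (mem_Ioo.2 ⟨y2, this⟩))
  have hup : up B x ≤ (k + b - x - 1) + 1 + 1 := by
    unfold up
    refine (card_le_card hsub).trans ((card_insert_le _ _).trans ?_)
    have := card_insert_le (k + b) (Ioo x (k + b))
    rw [Nat.card_Ioo] at this
    omega
  have hsum : B.card ≤ up B x + dn B x + 1 := by
    have : B ⊆ insert x (B.filter (x < ·) ∪ B.filter (· < x)) := by
      intro y hy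
      rcases lt_trichotomy y x with h | h | h
      · exact mem_insert_of_mem (mem_union_right _ (mem_filter.2 ⟨hy, h⟩))
      · rw [h]; exact mem_insert_self _ _
      · exact mem_insert_of_mem (mem_union_left _ (mem_filter.2 ⟨hy, h⟩))
    refine (card_le_card this).trans ((card_insert_le _ _).trans ?_)
    have := card_union_le (B.filter (x < ·)) (B.filter (· < x))
    unfold up dn
    omega
  unfold rl
  omega

/-- the three caps: `s`, the trivial one, `b` -/
theorem Two.cap3 {k L b s m1 Lc : ℕ} {B : Finset ℕ} (hT : Two k L b s B)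
    (hN : L + b + s = 2 * m1) (hs : s ≤ Lc ∨ (2 * m1) / 3 ≤ Lc ∨ b ≤ Lc) :
    ∀ x ∈ B, 2 ≤ up B x → rl B x ≤ Lc := by
  have hB0 := Two.mem_Lv hT hN
  intro x hx h2
  rcases hs with hs | hs | hs
  · have hx2 : x ∈ B.filter (fun x => x < k + b) := by
      rw [Two.low hT]
      exact mem_filter.2 ⟨hx, h2⟩
    exact (Two.rl_low hT hB0 hx (mem_filter.1 hx2).2).trans hs
  · have h3 := (Rr_all hB0 hx).1
    have h5 : 3 * rl B x ≤ 2 * m1 := (Nat.mul_le_mul_right _ (by omega)).trans h3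
    omega
  · exact (Two.rl_b hT hB0 hx h2).trans hs

/-- **(LOW, sharp)** -/
theorem low_A {u : ℤ} {cf : Cf} {m1 t den k L b s Lc nC w n : ℕ} {X : NI} (h : Adm u cf m1 0 t)
    (hden : 0 < den) (hX : Mem (1 / (m1 : ℝ)) X) (hlen : u = 1 → 1 ≤ cf.v.length)
    (hok : okLA u m1 cf X Lc nC w n = true) {B : Finset ℕ} (hT : Two k L b s B)
    (hN : L + b + s = 2 * m1) (hs : s ≤ Lc ∨ (2 * m1) / 3 ≤ Lc) :
    |HL (k + 2) m1 t cf.v.length (vC cf m1 den) (tauC cf m1 den) B (k + b)| * den * (S : ℕ) ≤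
      (lowA u m1 cf X Lc nC w n : ℕ) :=
  low_A_cap h hden hX hlen hok hT hN (Two.cap3 hT hN (by tauto))

/-- **(LOW, sharp)** with the cap `b` (helper27) -/
theorem low_A_b {u : ℤ} {cf : Cf} {m1 t den k L b s Lc nC w n : ℕ} {X : NI} (h : Adm u cf m1 0 t)
    (hden : 0 < den) (hX : Mem (1 / (m1 : ℝ)) X) (hlen : u = 1 → 1 ≤ cf.v.length)
    (hok : okLA u m1 cf X Lc nC w n = true) {B : Finset ℕ} (hT : Two k L b s B)
    (hN : L + b + s = 2 * m1) (hs : b ≤ Lc) :
    |HL (k + 2) m1 t cf.v.length (vC cf m1 den) (tauC cf m1 den) B (k + b)| * den * (S : ℕ) ≤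
      (lowA u m1 cf X Lc nC w n : ℕ) :=
  low_A_cap h hden hX hlen hok hT hN (Two.cap3 hT hN (by tauto))

/-- **(LOW)** with the cap `b + d`-style: `b ≤ Lc + d` (helper27) -/
theorem bud_low_b {u : ℤ} {cf : Cf} {μ d t den k L b s Lc nC : ℕ} {X : NI} (h : Adm u cf μ d t)
    (hden : 0 < den) (hX : Mem (1 / ((μ + d : ℕ) : ℝ)) X) (hlen : u = 1 → 1 ≤ cf.v.length)
    (hok : okBL u μ Lc nC (cf.v.length + 2) = true) {B : Finset ℕ} (hT : Two k L b s B)
    (hN : L + b + s = 2 * (μ + d)) (hs : b ≤ Lc + d) :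
    |HL (k + 2) (μ + d) t cf.v.length (vC cf (μ + d) den) (tauC cf (μ + d) den) B (k + b)| * den *
      (S : ℕ) ≤ (budLow u μ cf X Lc nC : ℕ) := by
  have hB0 := Two.mem_Lv hT hN
  obtain ⟨h1, h2, h3, h4⟩ := h
  have htw : tb u μ + wb u μ = 2 * μ := by unfold tb wb; omega
  have hB : B ∈ Lv (k + 2) ((tb u μ + d) + (wb u μ + d)) := by
    rw [show tb u μ + d + (wb u μ + d) = 2 * (μ + d) by omega]
    exact hB0
  have hcap : ∀ x ∈ B, 2 ≤ up B x → rl B x ≤ Lc + d :=
    fun x hx h2 => (Two.rl_b hT hB0 hx h2).trans hs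
  have hden0 : (0 : ℝ) ≤ den := Nat.cast_nonneg den
  unfold HL
  rw [Two.low hT]
  have e1 := abs_sum_le_sum_abs (fun x => HIx (k + 2) (μ + d) t cf.v.length (vC cf (μ + d) den)
    (tauC cf (μ + d) den) B x) (B.filter (fun x => 2 ≤ up B x))
  refine (mul_le_mul_of_nonneg_right (mul_le_mul_of_nonneg_right e1 hden0)
    (by norm_num [S])).trans ?_
  refine bud_sum (N := fun q e => lowN (tb u μ) (wb u μ) q e Lc nC) ⟨h1, h2, h3, h4⟩ hden hX hB
    (filter_subset _ _) ?_ hlen
  intro q hq hq0 e he A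
  exact low_bound (Adm.rg ⟨h1, h2, h3, h4⟩) he
    (okBL_spec hok (qs_lt ⟨h1, h2, h3, h4⟩ hq) e he) d hB hcap A

end Pool.JM.FR
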