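import Pool.Agent.Work.MP_46fa68_h4.Conv

/-!
# MP_46fa68_co: the moves of the two largest beads, two-sided bounds

`rh k a C q` is the effect of the rest `C` (a set of `k` beads below `k + a`) on the move by `q` of a
bead at `k + a`.  We prove, for every rest, `(1 + q δ) rh q` is `1 + q δ'` up to
`q (q - 1) δ' (E - 1) E ^ q`, `E = rh 1`, `δ' = (1 + δ) E - 1` (helper38's note (R2)).
-/

set_option autoImplicit false

open Finset Equiv

namespace Pool.JM

theorem rh_zero' {k a : ℕ} {C : Finset ℕ} (hb : ∀ y ∈ C, y < k + a) : rh k a C 0 = 1 := by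
  unfold rh
  have h2 : ∏ y ∈ C, ((((k + a : ℕ) : ℝ) + ((0 : ℕ) : ℝ) - y) / (((k + a : ℕ) : ℝ) - y)) = 1 := by
    refine prod_eq_one fun y hy => ?_
    have hy2 : (y : ℝ) + 1 ≤ ((k + a : ℕ) : ℝ) := by exact_mod_cast hb y hy
    have hne : ((k + a : ℕ) : ℝ) - y ≠ 0 := by
      have : 0 < ((k + a : ℕ) : ℝ) - y := by linarith
      exact this.ne'
    rw [Nat.cast_zero, add_zero]
    exact div_self hne
  have h3 : ∏ y ∈ range k, ((((k + a : ℕ) : ℝ) + ((0 : ℕ) : ℝ) - y) / (((k + a : ℕ) : ℝ) - y)) =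
      1 := by
    refine prod_eq_one fun y hy => ?_
    have hy' := mem_range.1 hy
    have hy2 : (y : ℝ) + 1 ≤ ((k + a : ℕ) : ℝ) := by exact_mod_cast (by omega : y + 1 ≤ k + a)
    have hne : ((k + a : ℕ) : ℝ) - y ≠ 0 := by
      have : 0 < ((k + a : ℕ) : ℝ) - y := by linarith
      exact this.ne'
    rw [Nat.cast_zero, add_zero]
    exact div_self hne
  rw [h2, h3, div_one]

theorem gg_one {Z c : ℝ} (hc : c < Z) (hZ : 0 < Z) :
    gg Z c ((1 : ℕ) : ℝ) = 1 + c / ((Z - c) * (Z + 1)) := by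
  unfold gg
  rw [Nat.cast_one]
  have h1 : Z - c ≠ 0 := by
    have : 0 < Z - c := by linarith
    exact this.ne'
  have h2 : Z + 1 ≠ 0 := by positivity
  field_simp
  ring

theorem gg_le_pow {Z c : ℝ} (hc0 : 0 ≤ c) (hc : c < Z) (q : ℕ) :
    gg Z c q ≤ gg Z c ((1 : ℕ) : ℝ) ^ q := by
  have hZ : 0 < Z := by linarith
  have h1 : 0 < Z - c := by linarith
  rcases Nat.eq_zero_or_pos q with rfl | hq
  · unfold gg
    simp only [Nat.cast_zero, add_zero, pow_zero]
    rw [div_le_one (by positivity)]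
    nlinarith
  · have hq1 : (1 : ℝ) ≤ q := by exact_mod_cast hq
    rw [gg_one hc hZ]
    have h2 : 0 ≤ c / ((Z - c) * (Z + 1)) := by positivity
    have h3 := one_add_mul_le_pow (by linarith : (-2 : ℝ) ≤ c / ((Z - c) * (Z + 1))) q
    refine le_trans ?_ h3
    unfold gg
    rw [div_le_iff₀ (by positivity)]
    have h4 : (1 + (q : ℝ) * (c / ((Z - c) * (Z + 1)))) * ((Z - c) * (Z + q)) =
        (Z - c) * (Z + q) + q * c * ((Z + q) / (Z + 1)) := by
      field_simp
    rw [h4]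
    have h5 : 1 ≤ (Z + q) / (Z + 1) := by
      rw [le_div_iff₀ (by positivity)]
      linarith
    have h6 : q * c * 1 ≤ q * c * ((Z + q) / (Z + 1)) :=
      mul_le_mul_of_nonneg_left h5 (by positivity)
    nlinarith

/-- **powers** -/
theorem rh_le_pow : ∀ (k a : ℕ) (C : Finset ℕ), C.card = k → (∀ y ∈ C, y < k + a) →
    ∀ q, rh k a C q ≤ rh k a C 1 ^ q
  | 0, a, C, hc, _ => by
    rw [card_eq_zero] at hc
    subst hc
    have h : ∀ q, rh 0 a ∅ q = 1 := fun q => by unfold rh; simp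
    intro q
    simp [h]
  | k + 1, a, C, hc, hb => by
    intro q
    obtain ⟨c, hca, hcC, hmax, hrec⟩ := rh_step hc hb
    have hc' : (C.erase (k + c)).card = k := by rw [card_erase_of_mem hcC, hc]; omega
    have hb' : ∀ y ∈ C.erase (k + c), y < k + (a + 1) := fun y hy => by
      have := hb y (mem_of_mem_erase hy); omega
    obtain ⟨p1, -, -⟩ := rh_props k (a + 1) (C.erase (k + c)) hc' hb'
    have hcaR : (c : ℝ) ≤ a := by exact_mod_cast hca
    have ha : (0 : ℝ) ≤ a := Nat.cast_nonneg a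
    have hc0 : (0 : ℝ) ≤ c := Nat.cast_nonneg c
    have hcZ : (c : ℝ) < (a : ℝ) + 1 := by linarith
    have IH := rh_le_pow k (a + 1) (C.erase (k + c)) hc' hb' q
    rw [hrec q, hrec 1, mul_pow]
    exact mul_le_mul (gg_le_pow hc0 hcZ q) IH (p1 q).le
      (pow_nonneg (gg_pos hcZ (by linarith) (Nat.cast_nonneg 1)).le q)

/-- one factor: the exact error -/
theorem gg_two_sided {Z c δ : ℝ} (hc0 : 0 ≤ c) (hc : c < Z) (hδ : 1 ≤ δ * Z) (q : ℕ) :
    1 + q * ((1 + δ) * gg Z c ((1 : ℕ) : ℝ) - 1) ≤ (1 + q * δ) * gg Z c q ∧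
      (1 + q * δ) * gg Z c q ≤ 1 + q * ((1 + δ) * gg Z c ((1 : ℕ) : ℝ) - 1) +
        q * (q - 1) * (δ * (gg Z c ((1 : ℕ) : ℝ) - 1)) := by
  have hZ : 0 < Z := by linarith
  have h1 : 0 < Z - c := by linarith
  have hδ0 : 0 < δ := by
    by_contra h
    push Not at h
    nlinarith
  rw [gg_one hc hZ]
  have hqq : (0 : ℝ) ≤ (q : ℝ) * (q - 1) := by
    rcases Nat.eq_zero_or_pos q with rfl | hq
    · simp
    · have hq1 : (1 : ℝ) ≤ q := by exact_mod_cast hq
      exact mul_nonneg (by linarith) (by linarith)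
  have hq0 : (0 : ℝ) ≤ q := Nat.cast_nonneg q
  have key : (1 + q * δ) * gg Z c q - (1 + q * ((1 + δ) * (1 + c / ((Z - c) * (Z + 1))) - 1)) =
      q * (q - 1) * (c * (δ * Z - 1) / ((Z - c) * (Z + 1) * (Z + q))) := by
    unfold gg
    have e1 : Z - c ≠ 0 := h1.ne'
    have e2 : Z + 1 ≠ 0 := by positivity
    have e3 : Z + (q : ℝ) ≠ 0 := by positivity
    field_simp
    ring
  constructor
  · have h2 : 0 ≤ c * (δ * Z - 1) / ((Z - c) * (Z + 1) * (Z + q)) := by
      refine div_nonneg (mul_nonneg hc0 (by linarith)) (by positivity)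
    nlinarith [mul_nonneg hqq h2]
  · have h3 : c * (δ * Z - 1) / ((Z - c) * (Z + 1) * (Z + q)) ≤
        δ * (1 + c / ((Z - c) * (Z + 1)) - 1) := by
      rw [div_le_iff₀ (by positivity)]
      have e4 : δ * (1 + c / ((Z - c) * (Z + 1)) - 1) * ((Z - c) * (Z + 1) * (Z + q)) =
          δ * c * (Z + q) := by
        have e1 : Z - c ≠ 0 := h1.ne'
        have e2 : Z + 1 ≠ 0 := by positivity
        field_simp
        ring
      rw [e4]
      nlinarith [mul_nonneg (mul_nonneg hδ0.le hc0) hq0]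
    nlinarith [mul_le_mul_of_nonneg_left h3 hqq]

/-- **(U1)** -/
theorem rh_two_sided : ∀ (k a : ℕ) (C : Finset ℕ), C.card = k → (∀ y ∈ C, y < k + a) →
    ∀ δ : ℝ, 1 ≤ δ * ((a : ℝ) + 1) → ∀ q : ℕ,
      1 + q * ((1 + δ) * rh k a C 1 - 1) ≤ (1 + q * δ) * rh k a C q ∧
        (1 + q * δ) * rh k a C q ≤ 1 + q * ((1 + δ) * rh k a C 1 - 1) +
          q * (q - 1) * (((1 + δ) * rh k a C 1 - 1) * (rh k a C 1 - 1)) * rh k a C 1 ^ q
  | 0, a, C, hc, _ => by
    rw [card_eq_zero] at hc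
    subst hc
    have h : ∀ q, rh 0 a ∅ q = 1 := fun q => by unfold rh; simp
    intro δ _ q
    simp [h]
  | k + 1, a, C, hc, hb => by
    intro δ hδ q
    obtain ⟨c, hca, hcC, hmax, hrec⟩ := rh_step hc hb
    have hc' : (C.erase (k + c)).card = k := by rw [card_erase_of_mem hcC, hc]; omega
    have hb' : ∀ y ∈ C.erase (k + c), y < k + (a + 1) := fun y hy => by
      have := hb y (mem_of_mem_erase hy); omega
    obtain ⟨p1, p2, -⟩ := rh_props k (a + 1) (C.erase (k + c)) hc' hb'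
    have hcaR : (c : ℝ) ≤ a := by exact_mod_cast hca
    have ha : (0 : ℝ) ≤ a := Nat.cast_nonneg a
    have hc0 : (0 : ℝ) ≤ c := Nat.cast_nonneg c
    have hcZ : (c : ℝ) < (a : ℝ) + 1 := by linarith
    have hZ : (0 : ℝ) < (a : ℝ) + 1 := by linarith
    have hδ0 : 0 < δ := by
      by_contra h
      push Not at h
      nlinarith
    obtain ⟨g1, g2⟩ := gg_two_sided hc0 hcZ hδ q
    set φ := gg ((a : ℝ) + 1) c ((1 : ℕ) : ℝ) with hφ
    have hφ1 : 1 ≤ φ := by
      rw [hφ, gg_one hcZ hZ]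
      have : 0 ≤ (c : ℝ) / (((a : ℝ) + 1 - c) * ((a : ℝ) + 1 + 1)) := by
        have : 0 < (a : ℝ) + 1 - c := by linarith
        positivity
      linarith
    have hδ1 : 1 ≤ ((1 + δ) * φ - 1) * (((a + 1 : ℕ) : ℝ) + 1) := by
      push_cast
      nlinarith
    obtain ⟨i1, i2⟩ := rh_two_sided k (a + 1) (C.erase (k + c)) hc' hb' ((1 + δ) * φ - 1) hδ1 q
    have hpow := rh_le_pow k (a + 1) (C.erase (k + c)) hc' hb' q
    have hE1 : 1 ≤ rh k (a + 1) (C.erase (k + c)) 1 := by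
      rw [← rh_zero' hb']
      exact p2 0
    have hrpos := p1 q
    rw [hrec q, hrec 1, ← hφ]
    set E := rh k (a + 1) (C.erase (k + c)) 1
    set r := rh k (a + 1) (C.erase (k + c)) q
    set G := gg ((a : ℝ) + 1) c q
    have e1 : (1 + ((1 + δ) * φ - 1)) * E = (1 + δ) * (φ * E) := by ring
    rw [e1] at i1 i2
    have hqq : (0 : ℝ) ≤ (q : ℝ) * (q - 1) := by
      rcases Nat.eq_zero_or_pos q with h | hq
      · simp [h]
      · have hq1 : (1 : ℝ) ≤ q := by exact_mod_cast hq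
        exact mul_nonneg (by linarith) (by linarith)
    constructor
    · calc 1 + (q : ℝ) * ((1 + δ) * (φ * E) - 1) ≤ (1 + q * ((1 + δ) * φ - 1)) * r := i1
        _ ≤ ((1 + q * δ) * G) * r := mul_le_mul_of_nonneg_right g1 hrpos.le
        _ = _ := by ring
    · set W := ((1 + δ) * (φ * E) - 1) with hW
      have hWδ : δ ≤ W := by
        have : 1 ≤ φ * E := one_le_mul_of_one_le_of_one_le hφ1 hE1
        nlinarith
      have hW0 : 0 ≤ W := by linarith
      have hEq : E ^ q ≤ (φ * E) ^ q :=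
        pow_le_pow_left₀ (by linarith) (by nlinarith) q
      have hEq0 : 0 ≤ E ^ q := by positivity
      have s1 : (1 + q * δ) * (G * r) ≤
          (1 + q * ((1 + δ) * φ - 1)) * r + q * (q - 1) * (δ * (φ - 1)) * r := by
        have := mul_le_mul_of_nonneg_right g2 hrpos.le
        nlinarith
      have s2 : q * (q - 1) * (δ * (φ - 1)) * r ≤ q * (q - 1) * (W * (φ - 1)) * (φ * E) ^ q := by
        have t1 : δ * (φ - 1) ≤ W * (φ - 1) := mul_le_mul_of_nonneg_right hWδ (by linarith)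
        have t2 : (q : ℝ) * (q - 1) * (δ * (φ - 1)) ≤ q * (q - 1) * (W * (φ - 1)) :=
          mul_le_mul_of_nonneg_left t1 hqq
        exact mul_le_mul t2 (hpow.trans hEq) hrpos.le
          (mul_nonneg hqq (mul_nonneg hW0 (by linarith)))
      have s3 : (q : ℝ) * (q - 1) * (W * (E - 1)) * E ^ q ≤
          q * (q - 1) * (W * (E - 1)) * (φ * E) ^ q :=
        mul_le_mul_of_nonneg_left hEq (mul_nonneg hqq (mul_nonneg hW0 (by linarith)))
      have s4 : (q : ℝ) * (q - 1) * (W * (φ - 1)) * (φ * E) ^ q +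
          q * (q - 1) * (W * (E - 1)) * (φ * E) ^ q ≤
          q * (q - 1) * (W * (φ * E - 1)) * (φ * E) ^ q := by
        have t3 : (φ - 1) + (E - 1) ≤ φ * E - 1 := by nlinarith
        have t4 : W * ((φ - 1) + (E - 1)) ≤ W * (φ * E - 1) := mul_le_mul_of_nonneg_left t3 hW0
        have t5 := mul_le_mul_of_nonneg_left t4 hqq
        have t6 := mul_le_mul_of_nonneg_right t5 (hEq0.trans hEq)
        nlinarith
      linarith

/-- **(U2)** the effect of the rest (with `b` boxes, rows of length at most `c`) on one step -/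
theorem rh_one_le : ∀ (k a b c : ℕ) (C : Finset ℕ), c ≤ a → C.card = k → (∀ y ∈ C, y < k + c) →
    (∑ y ∈ C, y = ∑ y ∈ range k, y + b) →
    rh k a C 1 * (1 - b / (((a : ℝ) + 1 - c) * (a + 2))) ≤ 1
  | 0, a, b, c, C, hca, hc, _, _ => by
    rw [card_eq_zero] at hc
    subst hc
    have h : rh 0 a ∅ 1 = 1 := by unfold rh; simp
    have hcaR : (c : ℝ) ≤ a := by exact_mod_cast hca
    have h1 : 0 < (a : ℝ) + 1 - c := by linarith
    rw [h, one_mul]
    have : 0 ≤ (b : ℝ) / (((a : ℝ) + 1 - c) * (a + 2)) := by positivity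
    linarith
  | k + 1, a, b, c, C, hca, hc, hb, hs => by
    have hcaR : (c : ℝ) ≤ a := by exact_mod_cast hca
    obtain ⟨c1, hc1a, hcC, hmax, hrec⟩ := rh_step (a := a) hc (fun y hy => by
      have := hb y hy; omega)
    have hc1 : c1 ≤ c := by have := hb _ hcC; omega
    have hc' : (C.erase (k + c1)).card = k := by rw [card_erase_of_mem hcC, hc]; omega
    have hb' : ∀ y ∈ C.erase (k + c1), y < k + c1 := fun y hy => by
      have h1 := hmax y (mem_of_mem_erase hy)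
      have h2 := ne_of_mem_erase hy
      omega
    have hsum : ∑ y ∈ C, y = (k + c1) + ∑ y ∈ C.erase (k + c1), y := by
      rw [← add_sum_erase C _ hcC]
    have hge : ∑ y ∈ range k, y ≤ ∑ y ∈ C.erase (k + c1), y := sum_range_le hc'
    rw [sum_range_succ] at hs
    obtain ⟨b', hb2⟩ : ∃ b', b = c1 + b' := ⟨b - c1, by omega⟩
    subst hb2
    have hs' : ∑ y ∈ C.erase (k + c1), y = ∑ y ∈ range k, y + b' := by omega
    have IH := rh_one_le k (a + 1) b' c (C.erase (k + c1)) (by omega) hc'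
      (fun y hy => by have := hb' y hy; omega) hs'
    obtain ⟨p1, -, -⟩ := rh_props k (a + 1) (C.erase (k + c1)) hc'
      (fun y hy => by have := hb' y hy; omega)
    have hpos := p1 1
    rw [hrec 1]
    have hc1R : (c1 : ℝ) ≤ c := by exact_mod_cast hc1
    have hc10 : (0 : ℝ) ≤ c1 := Nat.cast_nonneg c1
    have hb0 : (0 : ℝ) ≤ b' := Nat.cast_nonneg b'
    have hc0 : (0 : ℝ) ≤ c := Nat.cast_nonneg c
    have ha0 : (0 : ℝ) ≤ a := Nat.cast_nonneg a
    rw [gg_one (by linarith : (c1 : ℝ) < (a : ℝ) + 1) (by linarith : (0 : ℝ) < (a : ℝ) + 1)]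
    set E := rh k (a + 1) (C.erase (k + c1)) 1
    have hz : 0 < (a : ℝ) + 1 - c := by linarith
    set W : ℝ := 1 / (((a : ℝ) + 1 - c) * (a + 2)) with hW
    have hW0 : 0 < W := by positivity
    have e0 : ((c1 + b' : ℕ) : ℝ) / (((a : ℝ) + 1 - c) * (a + 2)) = (c1 + b') * W := by
      rw [hW]; push_cast; ring
    have e1 : (b' : ℝ) / ((((a + 1 : ℕ) : ℝ) + 1 - c) * (((a + 1 : ℕ) : ℝ) + 2)) ≤ b' * W := by
      rw [hW, mul_one_div]
      refine div_le_div_of_nonneg_left hb0 (by positivity) ?_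
      push_cast
      refine mul_le_mul (by linarith) (by linarith) (by linarith) (by linarith)
    have e2 : (c1 : ℝ) / (((a : ℝ) + 1 - c1) * ((a : ℝ) + 1 + 1)) ≤ c1 * W := by
      rw [hW, mul_one_div]
      refine div_le_div_of_nonneg_left hc10 (by positivity) ?_
      refine mul_le_mul (by linarith) (by linarith) (by linarith) (by linarith)
    have e3 : 0 ≤ (c1 : ℝ) / (((a : ℝ) + 1 - c1) * ((a : ℝ) + 1 + 1)) := by
      have : 0 < (a : ℝ) + 1 - c1 := by linarith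
      positivity
    rw [e0]
    set x := (c1 : ℝ) / (((a : ℝ) + 1 - c1) * ((a : ℝ) + 1 + 1))
    have IH' : E * (1 - b' * W) ≤ 1 := by
      refine le_trans (mul_le_mul_of_nonneg_left ?_ hpos.le) IH
      linarith
    have key : (1 + x) * (1 - (c1 + b') * W) ≤ 1 - b' * W := by
      have h1 : 0 ≤ x * ((c1 + b') * W) := by positivity
      nlinarith
    calc (1 + x) * E * (1 - (c1 + b') * W) = E * ((1 + x) * (1 - (c1 + b') * W)) := by ring
      _ ≤ E * (1 - b' * W) := mul_le_mul_of_nonneg_left key hpos.le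
      _ ≤ 1 := IH'

/-- **the top bead**, `x_1 = k + 1 + a`, `x_2 = k + c` -/
theorem Rr_top_eq {k a c : ℕ} {B : Finset ℕ} (hc : (B.erase (k + 1 + a)).card = k + 1)
    (hb : ∀ y ∈ B.erase (k + 1 + a), y < k + 1 + a) (hcC : k + c ∈ B.erase (k + 1 + a))
    (hmax : ∀ y ∈ B.erase (k + 1 + a), y ≤ k + c) (p : ℕ) :
    Rr B (k + 1 + a) p = (((a + 1).factorial : ℝ) / (a + 1 + p).factorial) *
      ((1 + p * (1 / ((a : ℝ) + 1 - c))) *
        rh k (a + 1) ((B.erase (k + 1 + a)).erase (k + c)) p) := by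
  rw [Rr_rh]
  obtain ⟨c', hca, hcC', hmax', hrec⟩ := rh_step hc hb
  have : c' = c := by
    have h1 := hmax _ hcC'
    have h2 := hmax' _ hcC
    omega
  subst this
  rw [hrec p]
  have hcaR : (c' : ℝ) ≤ a := by exact_mod_cast hca
  have ha : (0 : ℝ) ≤ a := Nat.cast_nonneg a
  have hp : (0 : ℝ) ≤ p := Nat.cast_nonneg p
  have h1 : (a : ℝ) + 1 - c' ≠ 0 := by
    have : 0 < (a : ℝ) + 1 - c' := by linarith
    exact this.ne'
  have h2 : (a : ℝ) + 1 + p ≠ 0 := by positivity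
  have f2 : ((a + p).factorial : ℝ) ≠ 0 := by exact_mod_cast (a + p).factorial_ne_zero
  have e1 : (((a + 1).factorial : ℕ) : ℝ) = ((a : ℝ) + 1) * a.factorial := by
    rw [Nat.factorial_succ]; push_cast; ring
  have e2 : (((a + 1 + p).factorial : ℕ) : ℝ) = ((a : ℝ) + 1 + p) * (a + p).factorial := by
    rw [show a + 1 + p = (a + p) + 1 by omega, Nat.factorial_succ]; push_cast; ring
  rw [e1, e2]
  unfold gg
  field_simp

/-- **the second bead**, `x_1 = k + 1 + a`, `x_2 = k + c` -/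
theorem Rr_second_eq {k a c : ℕ} {B : Finset ℕ} (hB : k + 1 + a ∈ B) (hca : c ≤ a) (p : ℕ) :
    Rr B (k + c) p = (1 - p * (1 / ((a : ℝ) + 1 - c))) *
      (((c.factorial : ℝ) / (c + p).factorial) *
        rh k c ((B.erase (k + 1 + a)).erase (k + c)) p) := by
  have hne : k + 1 + a ≠ k + c := by omega
  have h1 : Rr B (k + c) p = (1 - p * (1 / ((a : ℝ) + 1 - c))) *
      Rr (B.erase (k + 1 + a)) (k + c) p := by
    unfold Rr
    have hmem : k + 1 + a ∈ B.erase (k + c) := mem_erase.2 ⟨hne, hB⟩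
    rw [← mul_prod_erase (B.erase (k + c)) _ hmem, erase_right_comm]
    have hcaR : (c : ℝ) ≤ a := by exact_mod_cast hca
    have h2 : (a : ℝ) + 1 - c ≠ 0 := by
      have : 0 < (a : ℝ) + 1 - c := by linarith
      exact this.ne'
    have h3 : (((k + c : ℕ) : ℝ) + p - ((k + 1 + a : ℕ) : ℝ)) /
        (((k + c : ℕ) : ℝ) - ((k + 1 + a : ℕ) : ℝ)) = 1 - p * (1 / ((a : ℝ) + 1 - c)) := by
      have e1 : ((k + c : ℕ) : ℝ) + p - ((k + 1 + a : ℕ) : ℝ) = -(((a : ℝ) + 1 - c) - p) := by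
        push_cast; ring
      have e2 : ((k + c : ℕ) : ℝ) - ((k + 1 + a : ℕ) : ℝ) = -((a : ℝ) + 1 - c) := by
        push_cast; ring
      rw [e1, e2, neg_div_neg_eq]
      field_simp
    rw [h3]
    ring
  rw [h1, Rr_rh]
  ring

theorem w_eq_Rr (B : Finset ℕ) (x : ℕ) : w B x = Rr B x 1 := by
  unfold w Rr
  rw [Nat.factorial_succ]
  have h1 : (x.factorial : ℝ) ≠ 0 := by exact_mod_cast x.factorial_ne_zero
  have h2 : ((x : ℝ) + 1) ≠ 0 := by positivity
  push_cast
  field_simp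

/-- **(U3)** the moved bead itself -/
theorem Rr_mv_self {B : Finset ℕ} {x : ℕ} (hx1 : x + 1 ∉ B) (p : ℕ) :
    Rr (mv B x) (x + 1) p * Rr B x 1 = Rr B x (p + 1) := by
  have e1 : (mv B x).erase (x + 1) = B.erase x := by
    unfold mv
    rw [erase_insert]
    intro h
    exact hx1 (mem_of_mem_erase h)
  unfold Rr
  rw [e1]
  have h1 : ∀ y ∈ B.erase x, (((x + 1 : ℕ) : ℝ) - y) ≠ 0 := fun y hy h => by
    have : y = x + 1 := by
      have : (y : ℝ) = ((x + 1 : ℕ) : ℝ) := by linarith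
      exact_mod_cast this
    subst this
    exact hx1 (mem_of_mem_erase hy)
  have h2 : (∏ y ∈ B.erase x, ((((x + 1 : ℕ) : ℝ) + p - y) / (((x + 1 : ℕ) : ℝ) - y))) *
      (∏ y ∈ B.erase x, (((x : ℝ) + ((1 : ℕ) : ℝ) - y) / ((x : ℝ) - y))) =
      ∏ y ∈ B.erase x, (((x : ℝ) + ((p + 1 : ℕ) : ℝ) - y) / ((x : ℝ) - y)) := by
    rw [← prod_mul_distrib]
    refine prod_congr rfl fun y hy => ?_
    have h3 := h1 y hy
    have e2 : (x : ℝ) + ((1 : ℕ) : ℝ) - y = ((x + 1 : ℕ) : ℝ) - y := by push_cast; ring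
    have e3 : (x : ℝ) + ((p + 1 : ℕ) : ℝ) - y = ((x + 1 : ℕ) : ℝ) + p - y := by push_cast; ring
    rw [e2, e3]
    field_simp
  have f1 : ((x.factorial : ℕ) : ℝ) ≠ 0 := by exact_mod_cast x.factorial_ne_zero
  have f2 : (((x + 1).factorial : ℕ) : ℝ) ≠ 0 := by exact_mod_cast (x + 1).factorial_ne_zero
  have f3 : (((x + 1 + p).factorial : ℕ) : ℝ) ≠ 0 := by
    exact_mod_cast (x + 1 + p).factorial_ne_zero
  rw [show x + (p + 1) = x + 1 + p by omega, ← h2]
  field_simp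

/-- **(U4)** another bead `y` is moved to `y + 1` -/
theorem Rr_mv_other {B : Finset ℕ} {x y : ℕ} (hx : x ∈ B) (hy : y ∈ B) (hyx : y ≠ x)
    (hy1 : y + 1 ∉ B) (p : ℕ) :
    Rr (mv B y) x p * (((x : ℝ) + p - y) * ((x : ℝ) - y - 1)) =
      Rr B x p * (((x : ℝ) + p - y - 1) * ((x : ℝ) - y)) := by
  have hxy1 : y + 1 ≠ x := fun h => hy1 (h ▸ hx)
  have hyC : y ∈ B.erase x := mem_erase.2 ⟨hyx, hy⟩
  have e1 : (mv B y).erase x = insert (y + 1) ((B.erase x).erase y) := by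
    unfold mv
    rw [erase_insert_of_ne hxy1, erase_right_comm]
  have hn : y + 1 ∉ (B.erase x).erase y := fun h =>
    hy1 (mem_of_mem_erase (mem_of_mem_erase h))
  have h1 : (x : ℝ) - y ≠ 0 := by
    intro h
    have : (x : ℝ) = y := by linarith
    exact hyx (by exact_mod_cast this.symm)
  have h2 : (x : ℝ) - ((y + 1 : ℕ) : ℝ) ≠ 0 := by
    intro h
    have : (x : ℝ) = ((y + 1 : ℕ) : ℝ) := by linarith
    exact hxy1 (by exact_mod_cast this.symm)
  unfold Rr
  rw [e1, prod_insert hn, ← mul_prod_erase (B.erase x) _ hyC]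
  have h3 : (x : ℝ) - y - 1 = (x : ℝ) - ((y + 1 : ℕ) : ℝ) := by push_cast; ring
  have h4 : (x : ℝ) + p - y - 1 = (x : ℝ) + p - ((y + 1 : ℕ) : ℝ) := by push_cast; ring
  rw [h3, h4]
  field_simp

end Pool.JM
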