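import Pool.Agent.Work.MP_46fa68_h4.Conv

/-!
# MP_46fa68_co (S4, R1): crude bound for the moves of a bead with `c` beads above it

`|Rr B x p| ≤ Cb c p * nuR p a (R / a)`, `a` = length of the row, `R` = boxes below.
-/

set_option autoImplicit false

open Finset Equiv

namespace Pool.JM.FR

/-- the crude factor of `c` beads above -/
noncomputable def Cb (c p : ℕ) : ℝ := ∏ k ∈ range c, max 1 (((p : ℝ) - ((k : ℝ) + 1)) / ((k : ℝ) + 1))

/-- the crude bound of the top bead: row of length `len`, `x` = boxes below / `len` -/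
noncomputable def nuR (p len : ℕ) (x : ℝ) : ℝ :=
  (∏ l ∈ range p, (((l : ℝ) + 1 + x) / ((l : ℝ) + 1 + x + len))) / (p.factorial : ℝ)

theorem Cb_one_le (c p : ℕ) : 1 ≤ Cb c p := by
  unfold Cb
  calc (1 : ℝ) = ∏ k ∈ range c, (1 : ℝ) := by simp
    _ ≤ _ := prod_le_prod (fun _ _ => zero_le_one) fun _ _ => le_max_left _ _

theorem Cb_nonneg (c p : ℕ) : 0 ≤ Cb c p := zero_le_one.trans (Cb_one_le c p)

theorem nuR_nonneg (p len : ℕ) {x : ℝ} (hx : 0 ≤ x) : 0 ≤ nuR p len x := by
  unfold nuR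
  refine div_nonneg (prod_nonneg fun l _ => by positivity) (Nat.cast_nonneg _)

theorem nuR_zero (len : ℕ) (x : ℝ) : nuR 0 len x = 1 := by simp [nuR]

theorem nuR_succ (p len : ℕ) (x : ℝ) : nuR (p + 1) len x =
    nuR p len x * ((((p : ℝ) + 1 + x) / ((p : ℝ) + 1 + x + len)) / ((p : ℝ) + 1)) := by
  unfold nuR
  rw [prod_range_succ, Nat.factorial_succ]
  have h1 : (p.factorial : ℝ) ≠ 0 := by exact_mod_cast p.factorial_ne_zero
  push_cast
  field_simp

theorem prod_dist_le {g : ℕ → ℝ} (hg : ∀ k l, 1 ≤ k → k ≤ l → g l ≤ g k)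
    (h0 : ∀ k, 1 ≤ k → 0 ≤ g k) : ∀ (c : ℕ) (D : Finset ℕ), D.card = c → (∀ d ∈ D, 1 ≤ d) →
    ∏ d ∈ D, g d ≤ ∏ k ∈ range c, g (k + 1)
  | 0, D, hc, _ => by
    rw [card_eq_zero] at hc
    subst hc
    simp
  | c + 1, D, hc, h1 => by
    have hne : D.Nonempty := card_pos.1 (by omega)
    obtain ⟨d0, hd0, hmax⟩ := D.exists_max_image (fun z => z) hne
    have hcd : c + 1 ≤ d0 := card_le_max hc h1 fun d hd => hmax d hd
    have IH := prod_dist_le hg h0 c (D.erase d0) (by rw [card_erase_of_mem hd0, hc]; omega)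
      fun d hd => h1 d (mem_of_mem_erase hd)
    rw [← mul_prod_erase D _ hd0, prod_range_succ, mul_comm]
    refine mul_le_mul IH (hg _ _ (by omega) hcd) (h0 _ (by omega)) ?_
    exact prod_nonneg fun k _ => h0 _ (by omega)

theorem prod_above_le {B : Finset ℕ} {x : ℕ} (p : ℕ) :
    ∏ y ∈ B.filter (x < ·), |((x : ℝ) + p - y) / ((x : ℝ) - y)| ≤
      Cb (B.filter (x < ·)).card p := by
  set S := B.filter (x < ·) with hS
  have hS' : ∀ y ∈ S, x < y := fun y hy => (mem_filter.1 hy).2
  have inj : Set.InjOn (fun y : ℕ => y - x) S := by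
    intro y hy z hz h
    have h1 := hS' y hy
    have h2 := hS' z hz
    simp only at h
    omega
  set D := S.image (fun y => y - x) with hD
  have hDc : D.card = S.card := card_image_of_injOn inj
  have e1 : ∏ y ∈ S, |((x : ℝ) + p - y) / ((x : ℝ) - y)| ≤
      ∏ d ∈ D, max 1 (((p : ℝ) - d) / d) := by
    rw [hD, prod_image inj]
    refine prod_le_prod (fun _ _ => abs_nonneg _) fun y hy => ?_
    have h1 := hS' y hy
    have h2 : ((y - x : ℕ) : ℝ) = (y : ℝ) - x := by rw [Nat.cast_sub h1.le]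
    have h3 : (0 : ℝ) < (y : ℝ) - x := by
      have : (x : ℝ) < y := by exact_mod_cast h1
      linarith
    have hp : (0 : ℝ) ≤ p := Nat.cast_nonneg p
    rw [h2]
    have h4 : ((x : ℝ) + p - y) / ((x : ℝ) - y) = 1 - p / ((y : ℝ) - x) := by
      have h5 : (x : ℝ) - y ≠ 0 := by linarith
      have h6 : (y : ℝ) - x ≠ 0 := h3.ne'
      rw [eq_sub_iff_add_eq, div_add_div _ _ h5 h6, div_eq_one_iff_eq (mul_ne_zero h5 h6)]
      ring
    have h7 : ((p : ℝ) - ((y : ℝ) - x)) / ((y : ℝ) - x) = p / ((y : ℝ) - x) - 1 := by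
      field_simp
    rw [h4, h7, abs_le]
    have h8 : 0 ≤ p / ((y : ℝ) - x) := by positivity
    constructor
    · have := le_max_right (1 : ℝ) (p / ((y : ℝ) - x) - 1)
      linarith
    · have := le_max_left (1 : ℝ) (p / ((y : ℝ) - x) - 1)
      linarith
  refine e1.trans ?_
  have hg : ∀ k l : ℕ, 1 ≤ k → k ≤ l → max (1 : ℝ) (((p : ℝ) - l) / l) ≤
      max 1 (((p : ℝ) - k) / k) := by
    intro k l hk hkl
    have hk0 : (0 : ℝ) < k := by exact_mod_cast hk
    have hkl' : (k : ℝ) ≤ l := by exact_mod_cast hkl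
    have hl0 : (0 : ℝ) < l := by linarith
    refine max_le_max le_rfl ?_
    rw [sub_div, sub_div, div_self hk0.ne', div_self hl0.ne']
    have : (p : ℝ) / l ≤ p / k := div_le_div_of_nonneg_left (Nat.cast_nonneg p) hk0 hkl'
    linarith
  have h := prod_dist_le (g := fun d : ℕ => max (1 : ℝ) (((p : ℝ) - d) / d)) hg
    (fun k _ => zero_le_one.trans (le_max_left _ _)) S.card D hDc (fun d hd => by
      obtain ⟨y, hy, rfl⟩ := mem_image.1 hd
      have := hS' y hy
      omega)
  refine h.trans (le_of_eq ?_)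
  unfold Cb
  refine prod_congr rfl fun k _ => ?_
  push_cast
  rfl

/-- the top bead, crude -/
theorem Rr_top_nu {k a R : ℕ} (ha : 1 ≤ a) {C : Finset ℕ} (hk : C.card = k)
    (hs : ∑ y ∈ C, y = ∑ y ∈ range k, y + R) (hb : ∀ y ∈ C, y < k + a) :
    ∀ p, Rr (insert (k + a) C) (k + a) p ≤ nuR p a ((R : ℝ) / a) := by
  have hn : k + a ∉ C := fun h => lt_irrefl _ (hb _ h)
  have hE : (insert (k + a) C).erase (k + a) = C := erase_insert hn
  have hmax : ∀ y ∈ insert (k + a) C, y ≤ k + a := fun y hy => by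
    rcases mem_insert.1 hy with rfl | h
    · exact le_rfl
    · exact (hb y h).le
  have haR : (0 : ℝ) < a := by exact_mod_cast ha
  have hR0 : (0 : ℝ) ≤ R := Nat.cast_nonneg R
  intro p
  induction p with
  | zero =>
    rw [nuR_zero]
    unfold Rr
    rw [hE, add_zero, div_self (by exact_mod_cast Nat.factorial_ne_zero _), mul_one]
    refine le_of_eq (prod_eq_one fun y hy => ?_)
    have hy2 : (y : ℝ) + 1 ≤ ((k + a : ℕ) : ℝ) := by exact_mod_cast hb y hy
    have hne : ((k + a : ℕ) : ℝ) - y ≠ 0 := by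
      have : 0 < ((k + a : ℕ) : ℝ) - y := by linarith
      exact this.ne'
    rw [Nat.cast_zero, add_zero]
    exact div_self hne
  | succ p ih =>
    have h1 := Rr_ratio_le ha (B := insert (k + a) C) (b := R) (by rw [hE]; exact hk)
      (by rw [hE]; exact hs) (by rw [hE]; exact hb) hmax p
    have hp : (0 : ℝ) ≤ p := Nat.cast_nonneg p
    rw [nuR_succ]
    have h2 : Rr (insert (k + a) C) (k + a) (p + 1) ≤ Rr (insert (k + a) C) (k + a) p *
        ((((p : ℝ) + 1 + R / a) / ((p : ℝ) + 1 + R / a + a)) / ((p : ℝ) + 1)) := by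
      have e : (((p : ℝ) + 1 + R / a) / ((p : ℝ) + 1 + R / a + a)) / ((p : ℝ) + 1) =
          (((a : ℝ) + R) + p * a) / (((p : ℝ) + 1) * ((a : ℝ) ^ 2 + (a + R) + p * a)) := by
        field_simp
        ring
      rw [e, ← mul_div_assoc, le_div_iff₀ (by positivity)]
      exact h1
    exact h2.trans (mul_le_mul_of_nonneg_right ih (by positivity))

theorem Rr_split {B : Finset ℕ} {x : ℕ} (p : ℕ) :
    Rr B x p = (∏ y ∈ B.filter (x < ·), (((x : ℝ) + p - y) / ((x : ℝ) - y))) *
      Rr (insert x (B.filter (· < x))) x p := by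
  have hn : x ∉ B.filter (· < x) := fun h => lt_irrefl _ (mem_filter.1 h).2
  have e1 : B.erase x = B.filter (x < ·) ∪ B.filter (· < x) := by
    ext y
    simp only [mem_erase, mem_union, mem_filter]
    constructor
    · rintro ⟨h1, h2⟩
      rcases lt_or_gt_of_ne h1 with h | h
      · exact Or.inr ⟨h2, h⟩
      · exact Or.inl ⟨h2, h⟩
    · rintro (⟨h1, h2⟩ | ⟨h1, h2⟩)
      · exact ⟨by omega, h1⟩
      · exact ⟨by omega, h1⟩
  have hd : Disjoint (B.filter (x < ·)) (B.filter (· < x)) := by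
    rw [disjoint_left]
    intro y h1 h2
    have := (mem_filter.1 h1).2
    have := (mem_filter.1 h2).2
    omega
  unfold Rr
  rw [e1, prod_union hd, erase_insert hn]
  ring

/-- **(W)** -/
theorem Rr_row_le {B : Finset ℕ} {k a R x : ℕ} (ha : 1 ≤ a) (hx : x = k + a)
    (hk : (B.filter (· < x)).card = k)
    (hs : ∑ y ∈ B.filter (· < x), y = ∑ y ∈ range k, y + R) (p : ℕ) :
    |Rr B x p| ≤ Cb (B.filter (x < ·)).card p * nuR p a ((R : ℝ) / a) := by
  subst hx
  have hb : ∀ y ∈ B.filter (· < k + a), y < k + a := fun y hy => (mem_filter.1 hy).2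
  have h1 := Rr_top_nu ha hk hs hb p
  have hmax : ∀ y ∈ insert (k + a) (B.filter (· < k + a)), y ≤ k + a := fun y hy => by
    rcases mem_insert.1 hy with rfl | h
    · exact le_rfl
    · exact (hb y h).le
  have h2 := Rr_pos hmax p
  rw [Rr_split, abs_mul, abs_of_pos h2, abs_prod]
  exact mul_le_mul (prod_above_le p) h1 h2.le (Cb_nonneg _ _)

/-- an empty row -/
theorem Rr_row_zero {B : Finset ℕ} {k : ℕ}
    (hk : B.filter (· < k) = range k) (p : ℕ) :
    |Rr B k p| ≤ Cb (B.filter (k < ·)).card p / p.factorial := by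
  have h1 : Rr (insert k (range k)) k p = 1 / p.factorial := by
    unfold Rr
    rw [erase_insert (by simp), prod_below]
    have f1 : (k.factorial : ℝ) ≠ 0 := by exact_mod_cast k.factorial_ne_zero
    have f2 : ((k + p).factorial : ℝ) ≠ 0 := by exact_mod_cast (k + p).factorial_ne_zero
    have f3 : (p.factorial : ℝ) ≠ 0 := by exact_mod_cast p.factorial_ne_zero
    field_simp
  have h3 : (0 : ℝ) ≤ 1 / p.factorial := by positivity
  have h4 : Cb (B.filter (k < ·)).card p / (p.factorial : ℝ) =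
      Cb (B.filter (k < ·)).card p * (1 / p.factorial) := by ring
  rw [Rr_split, hk, h1, abs_mul, abs_of_nonneg h3, abs_prod, h4]
  exact mul_le_mul_of_nonneg_right (prod_above_le p) h3

/-- the data of a bead of a shape -/
theorem bead_data {K n : ℕ} {B : Finset ℕ} (hB : B ∈ Lv K n) {x : ℕ} (hx : x ∈ B) :
    ∃ a R : ℕ, (B.filter (· < x)).card + (B.filter (x < ·)).card + 1 = K ∧
      x = (B.filter (· < x)).card + a ∧
      ∑ y ∈ B.filter (· < x), y = ∑ y ∈ range (B.filter (· < x)).card, y + R ∧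
      ((B.filter (x < ·)).card + 1) * a + R ≤ n := by
  obtain ⟨hc, hsum⟩ := mem_Lv_iff.1 hB
  set S := B.filter (x < ·) with hS
  set C := B.filter (· < x) with hC
  have e1 : B = insert x (S ∪ C) := by
    ext y
    simp only [hS, hC, mem_insert, mem_union, mem_filter]
    constructor
    · intro h
      rcases lt_trichotomy y x with h1 | h1 | h1
      · exact Or.inr (Or.inr ⟨h, h1⟩)
      · exact Or.inl h1
      · exact Or.inr (Or.inl ⟨h, h1⟩)
    · rintro (h | ⟨h, -⟩ | ⟨h, -⟩)
      · rw [h]; exact hx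
      · exact h
      · exact h
  have hd : Disjoint S C := by
    rw [disjoint_left]
    intro y h1 h2
    have := (mem_filter.1 h1).2
    have := (mem_filter.1 h2).2
    omega
  have hxn : x ∉ S ∪ C := by
    intro h
    rcases mem_union.1 h with h | h
    · exact lt_irrefl _ (mem_filter.1 h).2
    · exact lt_irrefl _ (mem_filter.1 h).2
  have hcard : C.card + S.card + 1 = K := by
    rw [← hc, e1, card_insert_of_notMem hxn, card_union_of_disjoint hd]
    omega
  have hsum2 : ∑ i ∈ B, i = x + (∑ y ∈ S, y + ∑ y ∈ C, y) := by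
    rw [e1, sum_insert hxn, sum_union hd]
  have hkx : C.card ≤ x := by
    have h1 : C ⊆ range x := fun y hy => mem_range.2 (mem_filter.1 hy).2
    have := card_le_card h1
    rwa [card_range] at this
  have hge : ∑ y ∈ range C.card, y ≤ ∑ y ∈ C, y := sum_range_le rfl
  obtain ⟨a, ha⟩ : ∃ a, x = C.card + a := ⟨x - C.card, by omega⟩
  obtain ⟨R, hR⟩ : ∃ R, ∑ y ∈ C, y = ∑ y ∈ range C.card, y + R :=
    ⟨∑ y ∈ C, y - ∑ y ∈ range C.card, y, by omega⟩
  refine ⟨a, R, hcard, ha, hR, ?_⟩
  -- the beads above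
  have inj : Set.InjOn (fun y : ℕ => y - x) S := by
    intro y hy z hz h
    have h1 := (mem_filter.1 hy).2
    have h2 := (mem_filter.1 hz).2
    simp only at h
    omega
  have htri := sum_ge_tri S.card (S.image fun y => y - x) (card_image_of_injOn inj) (fun d hd => by
    obtain ⟨y, hy, rfl⟩ := mem_image.1 hd
    have := (mem_filter.1 hy).2
    omega)
  rw [sum_image inj] at htri
  have hS2 : ∑ y ∈ S, y = ∑ y ∈ S, (y - x) + S.card * x := by
    rw [← smul_eq_mul, ← sum_const, ← sum_add_distrib]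
    refine sum_congr rfl fun y hy => ?_
    have := (mem_filter.1 hy).2
    omega
  -- the sum over the range
  have hrange : 2 * ∑ y ∈ range K, y = 2 * ∑ y ∈ range C.card, y +
      (2 * C.card * (S.card + 1) + S.card * (S.card + 1)) := by
    have h1 : 2 * ∑ y ∈ range K, y = K * (K - 1) := by
      rw [mul_comm, sum_range_id_mul_two]
    have h2 : 2 * ∑ y ∈ range C.card, y = C.card * (C.card - 1) := by
      rw [mul_comm, sum_range_id_mul_two]
    rw [h1, h2, ← hcard]
    rcases Nat.eq_zero_or_pos C.card with h | h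
    · rw [h]; simp; ring
    · obtain ⟨k, hk⟩ : ∃ k, C.card = k + 1 := ⟨C.card - 1, by omega⟩
      rw [hk]
      have e : k + 1 + S.card + 1 - 1 = k + 1 + S.card := by omega
      rw [e, Nat.add_sub_cancel]
      ring
  have key : 2 * n + 2 * ∑ y ∈ range K, y = 2 * (x + (∑ y ∈ S, y + ∑ y ∈ C, y)) := by
    rw [← hsum2, hsum]; ring
  rw [hrange, hS2, hR] at key
  have hxa : S.card * x = S.card * C.card + S.card * a := by rw [ha]; ring
  nlinarith

end Pool.JM.FR
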