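import Pool.Agent.Work.MP_46fa68_38.Far1

/-!
# MP_46fa68_co (S4, R1): the diagonal monotonicity of the crude bounds
-/

set_option autoImplicit false

open Finset Equiv

namespace Pool.JM.FR

/-- the absolute weight of a source: `C(t+a-1,a) C(a,i)` -/
noncomputable def Wa (t i a : ℕ) : ℝ := ((t + a - 1).choose a : ℝ) * (a.choose i : ℝ)

theorem Wa_nonneg (t i a : ℕ) : 0 ≤ Wa t i a := by unfold Wa; positivity

theorem Wa_zero {t i a : ℕ} (h : a < i) : Wa t i a = 0 := by
  unfold Wa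
  rw [Nat.choose_eq_zero_of_lt h]
  simp

theorem Wa_t {t i a : ℕ} (ht : 1 ≤ t) : Wa (t + 1) i a * t = Wa t i a * (t + a) := by
  unfold Wa
  have h := Nat.choose_mul_succ_eq (t + a - 1) a
  rw [show t + a - 1 + 1 = t + a by omega, show t + a - a = t by omega] at h
  have h' : ((t + a - 1).choose a : ℝ) * ((t : ℝ) + a) = ((t + a).choose a : ℝ) * t := by
    exact_mod_cast h
  rw [show t + 1 + a - 1 = t + a by omega]
  linear_combination -(a.choose i : ℝ) * h'

/-- the growth in the displacement -/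
theorem Wa_a {t i a : ℕ} (ht : 1 ≤ t) (h : i ≤ a) :
    Wa t i (a + 1) * ((a : ℝ) + 1 - i) = Wa t i a * (t + a) := by
  unfold Wa
  have h1 : (a + 1) * (t + a).choose (a + 1) = (t + a) * (t + a - 1).choose a := by
    have := Nat.add_one_mul_choose_eq (t + a - 1) a
    rw [show t + a - 1 + 1 = t + a by omega] at this
    linarith
  have h2 := Nat.choose_mul_succ_eq a i
  have h1' : ((a : ℝ) + 1) * ((t + a).choose (a + 1) : ℝ) =
      ((t : ℝ) + a) * ((t + a - 1).choose a : ℝ) := by exact_mod_cast h1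
  have h2' : (a.choose i : ℝ) * ((a : ℝ) + 1) = ((a + 1).choose i : ℝ) * ((a : ℝ) + 1 - i) := by
    have e : ((a + 1 - i : ℕ) : ℝ) = (a : ℝ) + 1 - i := by
      rw [Nat.cast_sub (by omega)]; push_cast; ring
    rw [← e]
    exact_mod_cast h2
  rw [show t + (a + 1) - 1 = t + a by omega]
  have ha : (0 : ℝ) < (a : ℝ) + 1 := by positivity
  have key : ((t + a).choose (a + 1) : ℝ) * (((a + 1).choose i : ℝ) * ((a : ℝ) + 1 - i)) =
      ((t + a - 1).choose a : ℝ) * (a.choose i : ℝ) * (t + a) := by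
    rw [← h2']
    linear_combination (a.choose i : ℝ) * h1'
  linear_combination key

theorem nuR_mono (p len : ℕ) {x y : ℝ} (hx : 0 ≤ x) (h : x ≤ y) : nuR p len x ≤ nuR p len y := by
  unfold nuR
  refine div_le_div_of_nonneg_right (prod_le_prod (fun l _ => by positivity) fun l _ => ?_)
    (Nat.cast_nonneg _)
  have hl : (0 : ℝ) ≤ l := Nat.cast_nonneg l
  have hn : (0 : ℝ) ≤ len := Nat.cast_nonneg len
  have hy := hx.trans h
  rw [div_le_div_iff₀ (by positivity) (by positivity)]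
  nlinarith [mul_nonneg hn (sub_nonneg.2 h)]

theorem nuR_diag (p len : ℕ) {x : ℝ} (hx : 0 ≤ x) :
    nuR p (len + 1) x * (1 + x + len + p) = nuR p len x * (1 + x + len) := by
  induction p with
  | zero => simp [nuR_zero]
  | succ p ih =>
    rw [nuR_succ, nuR_succ]
    have hp : (0 : ℝ) ≤ p := Nat.cast_nonneg p
    have hl : (0 : ℝ) ≤ len := Nat.cast_nonneg len
    have h1 : (p : ℝ) + 1 + x + ((len + 1 : ℕ) : ℝ) ≠ 0 := by
      have : 0 < (p : ℝ) + 1 + x + ((len + 1 : ℕ) : ℝ) := by positivity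
      exact this.ne'
    have h2 : (p : ℝ) + 1 + x + (len : ℝ) ≠ 0 := by
      have : 0 < (p : ℝ) + 1 + x + (len : ℝ) := by positivity
      exact this.ne'
    have h3 : (p : ℝ) + 1 ≠ 0 := by positivity
    have e1 : (1 + x + (len : ℝ) + ((p + 1 : ℕ) : ℝ)) = (p : ℝ) + 1 + x + ((len + 1 : ℕ) : ℝ) := by
      push_cast; ring
    have e2 : (1 + x + (len : ℝ) + (p : ℝ)) = (p : ℝ) + 1 + x + len := by ring
    rw [e2] at ih
    rw [e1]
    have e3 : nuR p (len + 1) x * ((((p : ℝ) + 1 + x) / ((p : ℝ) + 1 + x + ((len + 1 : ℕ) : ℝ))) /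
        ((p : ℝ) + 1)) * ((p : ℝ) + 1 + x + ((len + 1 : ℕ) : ℝ)) =
        (nuR p (len + 1) x * ((p : ℝ) + 1 + x + len)) *
          ((((p : ℝ) + 1 + x) / ((p : ℝ) + 1 + x + len)) / ((p : ℝ) + 1)) := by
      field_simp
    rw [e3, ih]
    ring

/-- **Lemma M**, with the weight `m^e`, `e ≤ 1` -/
theorem term_step {t i a e len m : ℕ} {x y : ℝ} (ht : 1 ≤ t) (he : e ≤ 1) (hx : 0 ≤ x)
    (hxy : x ≤ y) (h : 1 + e + y + len ≤ t) (hm : (e : ℝ) * (1 + y + len) ≤ m) :
    ((m : ℝ) + 1) ^ e * (Wa (t + 1) i a * nuR (a + e) (len + 1) x) ≤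
      (m : ℝ) ^ e * (Wa t i a * nuR (a + e) len y) := by
  have hy : 0 ≤ y := hx.trans hxy
  have htR : (1 : ℝ) ≤ t := by exact_mod_cast ht
  have h1 := Wa_t (i := i) (a := a) ht
  have h2 := nuR_diag (a + e) len hy
  have h3 := nuR_mono (a + e) (len + 1) hx hxy
  have h4 := Wa_nonneg t i a
  have h5 := Wa_nonneg (t + 1) i a
  have h6 := nuR_nonneg (a + e) len hy
  have h7 := nuR_nonneg (a + e) (len + 1) hy
  have ha : (0 : ℝ) ≤ a := Nat.cast_nonneg a
  have hu : (0 : ℝ) ≤ m := Nat.cast_nonneg m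
  have hl : (0 : ℝ) ≤ len := Nat.cast_nonneg len
  refine (mul_le_mul_of_nonneg_left (mul_le_mul_of_nonneg_left h3 h5) (by positivity)).trans ?_
  have hP : 0 < 1 + y + len + ((a + e : ℕ) : ℝ) := by positivity
  have e1 : Wa (t + 1) i a = Wa t i a * ((t + a) / t) := by
    field_simp
    linear_combination h1
  have e2 : nuR (a + e) (len + 1) y = nuR (a + e) len y *
      ((1 + y + len) / (1 + y + len + ((a + e : ℕ) : ℝ))) := by
    field_simp
    linear_combination h2
  rw [e1, e2]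
  have hY0 : 0 ≤ 1 + y + len := by positivity
  have e3 : ((m : ℝ) + 1) ^ e * (((t : ℝ) + a) / t *
      ((1 + y + len) / (1 + y + len + ((a + e : ℕ) : ℝ)))) ≤ (m : ℝ) ^ e := by
    interval_cases e
    · rw [pow_zero, pow_zero, one_mul, div_mul_div_comm, div_le_one (by positivity)]
      push_cast at h ⊢
      have : 1 + y + len ≤ (t : ℝ) := by linarith
      nlinarith [mul_nonneg ha (sub_nonneg.2 this)]
    · rw [pow_one, pow_one, div_mul_div_comm, ← mul_div_assoc, div_le_iff₀ (by positivity)]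
      push_cast at h hm ⊢
      set P : ℝ := 1 + y + len with hPd
      have hY : P + 1 ≤ (t : ℝ) := by linarith
      have hM : P ≤ (m : ℝ) := by linarith
      have j1 : P * ((m : ℝ) + 1) ≤ t * m := by nlinarith
      have j2 : P * ((m : ℝ) + 1) * a ≤ t * m * a := mul_le_mul_of_nonneg_right j1 ha
      have j3 : P * (t : ℝ) ≤ m * t := mul_le_mul_of_nonneg_right hM (by linarith)
      nlinarith
  calc ((m : ℝ) + 1) ^ e * (Wa t i a * ((t + a) / t) * (nuR (a + e) len y *
        ((1 + y + len) / (1 + y + len + ((a + e : ℕ) : ℝ))))) =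
      (Wa t i a * nuR (a + e) len y) * (((m : ℝ) + 1) ^ e * (((t : ℝ) + a) / t *
        ((1 + y + len) / (1 + y + len + ((a + e : ℕ) : ℝ))))) := by ring
    _ ≤ (Wa t i a * nuR (a + e) len y) * (m : ℝ) ^ e :=
      mul_le_mul_of_nonneg_left e3 (mul_nonneg h4 h6)
    _ = _ := by ring

/-- the parameter `x` of a row of length `len` with `c` rows above, `n` boxes -/
noncomputable def Xn (n c len : ℕ) : ℝ := ((n : ℝ) - (c + 1) * len) / len

/-- **the chain**: from `(t0 + d, len0 + d)` down to `(t0, len0)` -/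
theorem chain {t0 n0 c len0 e m0 : ℕ} (ht : 1 ≤ t0) (he : e ≤ 1) (hl : 1 ≤ len0)
    (hc : 1 ≤ c ∨ 2 * len0 ≤ n0)
    (h1 : n0 + (1 + e) * len0 + len0 * len0 ≤ len0 * t0 + (c + 1) * len0)
    (h2 : len0 + e + 2 ≤ t0 + c)
    (hm : e = 0 ∨ (n0 + len0 * len0 ≤ len0 * m0 + c * len0 ∧ len0 + 2 ≤ m0 + c)) (i a : ℕ) :
    ∀ (d : ℕ) (x : ℝ), 0 ≤ x → x ≤ Xn (n0 + 2 * d) c (len0 + d) →
      ((m0 + d : ℕ) : ℝ) ^ e * (Wa (t0 + d) i a * nuR (a + e) (len0 + d) x) ≤
        (m0 : ℝ) ^ e * (Wa t0 i a * nuR (a + e) len0 (Xn n0 c len0)) := by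
  have hlR : (1 : ℝ) ≤ len0 := by exact_mod_cast hl
  have h1' : (n0 : ℝ) + (1 + e) * len0 + len0 * len0 ≤
      len0 * t0 + (c + 1) * len0 := by exact_mod_cast h1
  have h2' : (len0 : ℝ) + e + 2 ≤ t0 + c := by exact_mod_cast h2
  intro d
  induction d with
  | zero =>
    intro x hx hxX
    have e0 : Xn (n0 + 2 * 0) c (len0 + 0) = Xn n0 c len0 := by simp
    rw [e0] at hxX
    rw [add_zero, add_zero, add_zero]
    exact mul_le_mul_of_nonneg_left
      (mul_le_mul_of_nonneg_left (nuR_mono _ _ hx hxX) (Wa_nonneg _ _ _)) (by positivity)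
  | succ d ih =>
    intro x hx hxX
    have hd : (0 : ℝ) ≤ d := Nat.cast_nonneg d
    have hpos : (0 : ℝ) < (len0 : ℝ) + d := by linarith
    have e0 : Xn (n0 + 2 * (d + 1)) c (len0 + (d + 1)) =
        ((n0 : ℝ) + 2 * (d + 1) - (c + 1) * (len0 + d + 1)) / (len0 + d + 1) := by
      unfold Xn; push_cast; ring_nf
    have e1 : Xn (n0 + 2 * d) c (len0 + d) =
        ((n0 : ℝ) + 2 * d - (c + 1) * (len0 + d)) / (len0 + d) := by
      unfold Xn; push_cast; ring_nf
    rw [e0] at hxX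
    have hN : 0 ≤ (n0 : ℝ) + 2 * (d + 1) - (c + 1) * (len0 + d + 1) := by
      have := hx.trans hxX
      rw [le_div_iff₀ (by linarith)] at this
      linarith
    have hmono : 2 * ((len0 : ℝ) + d) ≤ n0 + 2 * d := by
      rcases hc with hc | hc
      · have hcR : (1 : ℝ) ≤ c := by exact_mod_cast hc
        nlinarith
      · have : 2 * (len0 : ℝ) ≤ n0 := by exact_mod_cast hc
        linarith
    have hX : x ≤ Xn (n0 + 2 * d) c (len0 + d) := by
      rw [e1]
      refine hxX.trans ?_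
      rw [div_le_div_iff₀ (by linarith) hpos]
      nlinarith
    have hXb : 1 + (e : ℝ) + Xn (n0 + 2 * d) c (len0 + d) + ((len0 + d : ℕ) : ℝ) ≤
        ((t0 + d : ℕ) : ℝ) := by
      rw [e1]
      push_cast
      have : ((n0 : ℝ) + 2 * d - (c + 1) * (len0 + d)) / (len0 + d) ≤
          (t0 : ℝ) - 1 - e - len0 := by
        rw [div_le_iff₀ hpos]
        nlinarith
      linarith
    have hXm : (e : ℝ) * (1 + Xn (n0 + 2 * d) c (len0 + d) + ((len0 + d : ℕ) : ℝ)) ≤
        ((m0 + d : ℕ) : ℝ) := by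
      rcases hm with rfl | ⟨hm1, hm2⟩
      · rw [Nat.cast_zero, zero_mul]
        positivity
      · have hm1' : (n0 : ℝ) + len0 * len0 ≤ len0 * m0 + c * len0 := by exact_mod_cast hm1
        have hm2' : (len0 : ℝ) + 2 ≤ m0 + c := by exact_mod_cast hm2
        have he1 : (e : ℝ) ≤ 1 := by exact_mod_cast he
        have he0 : (0 : ℝ) ≤ e := Nat.cast_nonneg e
        have hX0 := hx.trans hX
        have hle : 1 + Xn (n0 + 2 * d) c (len0 + d) + ((len0 + d : ℕ) : ℝ) ≤
            ((m0 + d : ℕ) : ℝ) := by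
          rw [e1]
          push_cast
          have : ((n0 : ℝ) + 2 * d - (c + 1) * (len0 + d)) / (len0 + d) ≤
              (m0 : ℝ) - 1 - len0 := by
            rw [div_le_iff₀ hpos]
            nlinarith
          linarith
        have h0 : 0 ≤ 1 + Xn (n0 + 2 * d) c (len0 + d) + ((len0 + d : ℕ) : ℝ) := by positivity
        calc _ ≤ 1 * (1 + Xn (n0 + 2 * d) c (len0 + d) + ((len0 + d : ℕ) : ℝ)) :=
              mul_le_mul_of_nonneg_right he1 h0
          _ ≤ _ := by rw [one_mul]; exact hle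
    have := term_step (t := t0 + d) (i := i) (a := a) (e := e) (len := len0 + d) (m := m0 + d)
      (by omega) he hx hX hXb hXm
    refine le_trans ?_ (ih _ (hx.trans hX) le_rfl)
    rw [show t0 + (d + 1) = t0 + d + 1 by omega, show len0 + (d + 1) = len0 + d + 1 by omega]
    refine le_trans (le_of_eq ?_) this
    push_cast
    ring

end Pool.JM.FR
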