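import Pool.Agent.Work.MP_46fa68_38.Far2

/-!
# MP_46fa68_co (S4, R1): growth of the terms in the displacement, the sum over a row
-/

set_option autoImplicit false

open Finset Equiv

namespace Pool.JM.FR

theorem Cb_succ_le {c p : ℕ} (h : c < p) : Cb c (p + 1) * ((p : ℝ) - c) ≤ Cb c p * p := by
  induction c with
  | zero =>
    simp [Cb]
  | succ c ih =>
    have ih := ih (by omega)
    have hc : ((c : ℝ) + 1) + 1 ≤ p := by exact_mod_cast h
    have hc0 : (0 : ℝ) ≤ c := Nat.cast_nonneg c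
    have e1 : Cb (c + 1) (p + 1) = Cb c (p + 1) * max 1 ((((p + 1 : ℕ) : ℝ) - ((c : ℝ) + 1)) / ((c : ℝ) + 1)) := by
      unfold Cb
      rw [prod_range_succ]
    have e2 : Cb (c + 1) p = Cb c p * max 1 (((p : ℝ) - ((c : ℝ) + 1)) / ((c : ℝ) + 1)) := by
      unfold Cb
      rw [prod_range_succ]
    have n1 := Cb_nonneg c (p + 1)
    have n2 := Cb_nonneg c p
    have m1 := le_max_left (1 : ℝ) (((p : ℝ) - ((c : ℝ) + 1)) / ((c : ℝ) + 1))
    -- the key inequality of the last factor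
    have key : max 1 ((((p + 1 : ℕ) : ℝ) - ((c : ℝ) + 1)) / ((c : ℝ) + 1)) * ((p : ℝ) - (c + 1)) ≤
        max 1 (((p : ℝ) - ((c : ℝ) + 1)) / ((c : ℝ) + 1)) * ((p : ℝ) - c) := by
      rcases le_total ((((p + 1 : ℕ) : ℝ) - ((c : ℝ) + 1)) / ((c : ℝ) + 1)) 1 with h1 | h1
      · rw [max_eq_left h1]
        nlinarith
      · rw [max_eq_right h1]
        rcases Nat.lt_or_ge p (2 * (c + 1)) with h2 | h2
        · -- then p + 1 - (c+1) ≤ c + 1, hence the ratio is ≤ 1
          have h3 : ((p : ℝ) + 1) ≤ 2 * (c + 1) := by exact_mod_cast h2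
          have h4 : (((p + 1 : ℕ) : ℝ) - ((c : ℝ) + 1)) / ((c : ℝ) + 1) ≤ 1 := by
            rw [div_le_one (by linarith)]
            push_cast
            linarith
          nlinarith
        · have h3 : (2 * ((c : ℝ) + 1)) ≤ p := by exact_mod_cast h2
          have h4 : 1 ≤ ((p : ℝ) - ((c : ℝ) + 1)) / ((c : ℝ) + 1) := by
            rw [one_le_div (by linarith)]
            linarith
          rw [max_eq_right h4]
          push_cast
          have e3 : ((p : ℝ) + 1 - ((c : ℝ) + 1)) / ((c : ℝ) + 1) * ((p : ℝ) - (c + 1)) =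
              ((p : ℝ) - ((c : ℝ) + 1)) / ((c : ℝ) + 1) * ((p : ℝ) - c) := by
            field_simp
            ring
          rw [e3]
    have e5 : ((c + 1 : ℕ) : ℝ) = (c : ℝ) + 1 := by push_cast; ring
    rw [e1, e2, e5]
    have hpc : 0 < (p : ℝ) - c := by linarith
    calc Cb c (p + 1) * max 1 ((((p + 1 : ℕ) : ℝ) - ((c : ℝ) + 1)) / ((c : ℝ) + 1)) * ((p : ℝ) - (c + 1))
        = Cb c (p + 1) * (max 1 ((((p + 1 : ℕ) : ℝ) - ((c : ℝ) + 1)) / ((c : ℝ) + 1)) *
            ((p : ℝ) - (c + 1))) := by ring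
      _ ≤ Cb c (p + 1) * (max 1 (((p : ℝ) - ((c : ℝ) + 1)) / ((c : ℝ) + 1)) * ((p : ℝ) - c)) :=
          mul_le_mul_of_nonneg_left key n1
      _ = (Cb c (p + 1) * ((p : ℝ) - c)) * max 1 (((p : ℝ) - ((c : ℝ) + 1)) / ((c : ℝ) + 1)) := by ring
      _ ≤ (Cb c p * p) * max 1 (((p : ℝ) - ((c : ℝ) + 1)) / ((c : ℝ) + 1)) :=
          mul_le_mul_of_nonneg_right ih (by linarith)
      _ = _ := by ring

theorem Cb_const {c h p : ℕ} (h1 : h ≤ c) (h2 : p ≤ 2 * (h + 1)) : Cb c p = Cb h p := by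
  induction c, h1 using Nat.le_induction with
  | base => rfl
  | succ c hc ih =>
    have e2 : Cb (c + 1) p = Cb c p * max 1 (((p : ℝ) - ((c : ℝ) + 1)) / ((c : ℝ) + 1)) := by
      unfold Cb
      rw [prod_range_succ]
    rw [e2, ih, max_eq_left, mul_one]
    have h3 : (p : ℝ) ≤ 2 * (h + 1) := by exact_mod_cast h2
    have h4 : (h : ℝ) ≤ c := by exact_mod_cast hc
    have h5 : (0 : ℝ) ≤ c := Nat.cast_nonneg c
    rw [div_le_one (by linarith)]
    linarith

/-- the factor at most doubles -/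
theorem Cb_two (c p : ℕ) : Cb c (p + 1) ≤ 2 * Cb c p := by
  rcases Nat.eq_zero_or_pos p with rfl | hp
  · have h1 : Cb c (0 + 1) = Cb 0 1 := Cb_const (Nat.zero_le c) (by norm_num)
    have h2 := Cb_one_le c 0
    rw [h1]
    simp only [Cb, range_zero, prod_empty]
    unfold Cb at h2
    linarith
  · by_cases hc : c ≤ p / 2
    · have hcp : c < p := by omega
      have h := Cb_succ_le hcp
      have h0 := Cb_nonneg c p
      have h1 := Cb_nonneg c (p + 1)
      have h2 : 2 * (c : ℝ) ≤ p := by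
        have : 2 * c ≤ p := by omega
        exact_mod_cast this
      have h3 : (0 : ℝ) < p := by exact_mod_cast hp
      nlinarith
    · push Not at hc
      have e1 : Cb c (p + 1) = Cb (p / 2) (p + 1) := Cb_const (by omega) (by omega)
      have e2 : Cb c p = Cb (p / 2) p := Cb_const (by omega) (by omega)
      rw [e1, e2]
      have hcp : p / 2 < p := by omega
      have h := Cb_succ_le hcp
      have h0 := Cb_nonneg (p / 2) p
      have h1 := Cb_nonneg (p / 2) (p + 1)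
      have h2 : 2 * ((p / 2 : ℕ) : ℝ) ≤ p := by
        have : 2 * (p / 2) ≤ p := by omega
        exact_mod_cast this
      have h3 : (0 : ℝ) < p := by exact_mod_cast hp
      nlinarith

/-- one term -/
noncomputable def tm (t i c e len : ℕ) (x : ℝ) (a : ℕ) : ℝ :=
  Wa t i a * (Cb c (a + e) * nuR (a + e) len x)

theorem tm_nonneg {t i c e len a : ℕ} {x : ℝ} (hx : 0 ≤ x) : 0 ≤ tm t i c e len x a :=
  mul_nonneg (Wa_nonneg _ _ _) (mul_nonneg (Cb_nonneg _ _) (nuR_nonneg _ _ hx))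

/-- the growth constant (without the factor of the beads above) -/
noncomputable def G0 (t i e len : ℕ) (x : ℝ) : ℝ :=
  (((t : ℝ) + i) * ((i : ℝ) + e + 1 + x)) / (((i : ℝ) + e + 1 + x + len) * ((i : ℝ) + e + 1))

theorem tm_step {t i c e len a : ℕ} {x g : ℝ} (ht : 1 ≤ t) (hx : 0 ≤ x) (hi : i ≤ a)
    (h : 1 + e + x + len ≤ t) (hg0 : 0 ≤ g) (hg : Cb c (a + e + 1) ≤ g * Cb c (a + e)) :
    tm t i c e len x (a + 1) * ((a : ℝ) + 1 - i) ≤ tm t i c e len x a * (G0 t i e len x * g) := by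
  have h1 := Wa_a (t := t) ht hi
  have haR : (i : ℝ) ≤ a := by exact_mod_cast hi
  have hi0 : (0 : ℝ) ≤ i := Nat.cast_nonneg i
  have he0 : (0 : ℝ) ≤ e := Nat.cast_nonneg e
  have hl0 : (0 : ℝ) ≤ len := Nat.cast_nonneg len
  have ha0 : (0 : ℝ) ≤ a := Nat.cast_nonneg a
  have htR : (1 : ℝ) ≤ t := by exact_mod_cast ht
  unfold tm G0
  rw [show a + 1 + e = a + e + 1 by ring, nuR_succ]
  set W := Wa t i a with hW
  set W1 := Wa t i (a + 1) with hW1
  set nu := nuR (a + e) len x with hnu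
  have n1 : 0 ≤ W := Wa_nonneg _ _ _
  have n2 : 0 ≤ nu := nuR_nonneg _ _ hx
  have n3 := Cb_nonneg c (a + e)
  have n4 := Cb_nonneg c (a + e + 1)
  push_cast
  -- the comparison of the rational factors
  have key : ((t : ℝ) + a) * ((((a : ℝ) + e + 1 + x) / ((a : ℝ) + e + 1 + x + len)) /
      ((a : ℝ) + e + 1)) ≤
      (((t : ℝ) + i) * ((i : ℝ) + e + 1 + x)) / (((i : ℝ) + e + 1 + x + len) * ((i : ℝ) + e + 1)) := by
    have f1 : ((t : ℝ) + a) / ((a : ℝ) + e + 1 + x + len) ≤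
        ((t : ℝ) + i) / ((i : ℝ) + e + 1 + x + len) := by
      rw [div_le_div_iff₀ (by positivity) (by positivity)]
      nlinarith [mul_nonneg (sub_nonneg.2 haR) (sub_nonneg.2 h)]
    have f2 : ((a : ℝ) + e + 1 + x) / ((a : ℝ) + e + 1) ≤ ((i : ℝ) + e + 1 + x) / ((i : ℝ) + e + 1) := by
      rw [div_le_div_iff₀ (by positivity) (by positivity)]
      nlinarith [mul_nonneg (sub_nonneg.2 haR) hx]
    have e1 : ((t : ℝ) + a) * ((((a : ℝ) + e + 1 + x) / ((a : ℝ) + e + 1 + x + len)) /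
        ((a : ℝ) + e + 1)) = (((t : ℝ) + a) / ((a : ℝ) + e + 1 + x + len)) *
          (((a : ℝ) + e + 1 + x) / ((a : ℝ) + e + 1)) := by
      field_simp
    have e2 : (((t : ℝ) + i) * ((i : ℝ) + e + 1 + x)) /
        (((i : ℝ) + e + 1 + x + len) * ((i : ℝ) + e + 1)) =
        (((t : ℝ) + i) / ((i : ℝ) + e + 1 + x + len)) *
          (((i : ℝ) + e + 1 + x) / ((i : ℝ) + e + 1)) := by
      field_simp
    rw [e1, e2]
    exact mul_le_mul f1 f2 (by positivity) (by positivity)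
  set G := (((t : ℝ) + i) * ((i : ℝ) + e + 1 + x)) /
    (((i : ℝ) + e + 1 + x + len) * ((i : ℝ) + e + 1)) with hG
  have hG0 : 0 ≤ G := by positivity
  calc W1 * (Cb c (a + e + 1) * (nu * ((((a : ℝ) + e + 1 + x) / ((a : ℝ) + e + 1 + x + len)) /
        ((a : ℝ) + e + 1)))) * ((a : ℝ) + 1 - i)
      = (W1 * ((a : ℝ) + 1 - i)) * nu * ((((a : ℝ) + e + 1 + x) / ((a : ℝ) + e + 1 + x + len)) /
          ((a : ℝ) + e + 1)) * Cb c (a + e + 1) := by ring
    _ = (W * nu) * (((t : ℝ) + a) * ((((a : ℝ) + e + 1 + x) / ((a : ℝ) + e + 1 + x + len)) /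
          ((a : ℝ) + e + 1))) * Cb c (a + e + 1) := by rw [h1]; ring
    _ ≤ (W * nu) * G * (g * Cb c (a + e)) := by
        refine mul_le_mul (mul_le_mul_of_nonneg_left key (mul_nonneg n1 n2)) hg n4 ?_
        exact mul_nonneg (mul_nonneg n1 n2) hG0
    _ = _ := by ring

/-- **the sum over a row** -/
theorem tm_sum {t i c e len : ℕ} {x g : ℝ} (ht : 1 ≤ t) (hx : 0 ≤ x)
    (h : 1 + e + x + len ≤ t) (hg0 : 0 ≤ g)
    (hg : ∀ a, i ≤ a → Cb c (a + e + 1) ≤ g * Cb c (a + e)) (A : ℕ) :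
    ∑ a ∈ range A, tm t i c e len x a ≤
      tm t i c e len x i * Real.exp (G0 t i e len x * g) := by
  have hT := tm_nonneg (t := t) (i := i) (c := c) (e := e) (len := len) (a := i) hx
  have hG0 : 0 ≤ G0 t i e len x := by
    unfold G0
    have hi0 : (0 : ℝ) ≤ i := Nat.cast_nonneg i
    have he0 : (0 : ℝ) ≤ e := Nat.cast_nonneg e
    positivity
  set G := G0 t i e len x * g with hG
  have hGn : 0 ≤ G := mul_nonneg hG0 hg0
  have hk : ∀ k : ℕ, tm t i c e len x (i + k) ≤ tm t i c e len x i * (G ^ k / k.factorial) := by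
    intro k
    induction k with
    | zero => simp
    | succ k ih =>
      have h1 := tm_step (t := t) (i := i) (c := c) (e := e) (len := len) (a := i + k) ht hx
        (by omega) h hg0 (hg _ (by omega))
      rw [← hG] at h1
      have e1 : (((i + k : ℕ) : ℝ) + 1 - i) = (k : ℝ) + 1 := by push_cast; ring
      rw [e1] at h1
      have hkp : (0 : ℝ) < (k : ℝ) + 1 := by positivity
      have hf : (0 : ℝ) < k.factorial := by exact_mod_cast k.factorial_pos
      rw [Nat.factorial_succ]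
      push_cast
      have h2 : tm t i c e len x (i + (k + 1)) ≤ tm t i c e len x (i + k) * G / ((k : ℝ) + 1) := by
        rw [le_div_iff₀ hkp]
        exact h1
      refine h2.trans ?_
      have h3 : tm t i c e len x (i + k) * G ≤ tm t i c e len x i * (G ^ k / k.factorial) * G :=
        mul_le_mul_of_nonneg_right ih hGn
      calc tm t i c e len x (i + k) * G / ((k : ℝ) + 1) ≤
          tm t i c e len x i * (G ^ k / k.factorial) * G / ((k : ℝ) + 1) :=
            div_le_div_of_nonneg_right h3 hkp.le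
        _ = _ := by
          rw [pow_succ]
          field_simp
  have h0 : ∀ a, a < i → tm t i c e len x a = 0 := fun a ha => by
    unfold tm
    rw [Wa_zero ha, zero_mul]
  have h1 : ∑ a ∈ range A, tm t i c e len x a ≤ ∑ a ∈ range (i + A), tm t i c e len x a :=
    sum_le_sum_of_subset_of_nonneg (range_subset_range.2 (by omega))
      fun a _ _ => tm_nonneg hx
  refine h1.trans ?_
  rw [sum_range_add]
  have h2 : ∑ a ∈ range i, tm t i c e len x a = 0 :=
    sum_eq_zero fun a ha => h0 a (mem_range.1 ha)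
  rw [h2, zero_add]
  calc ∑ k ∈ range A, tm t i c e len x (i + k) ≤
      ∑ k ∈ range A, tm t i c e len x i * (G ^ k / k.factorial) := sum_le_sum fun k _ => hk k
    _ = tm t i c e len x i * ∑ k ∈ range A, G ^ k / k.factorial := by rw [mul_sum]
    _ ≤ _ := mul_le_mul_of_nonneg_left (Real.sum_le_exp_of_nonneg hGn A) hT

/-- the factor of the beads above, from the displacement `p0` on -/
theorem Cb_grow {c p0 : ℕ} (h : c < p0) {p : ℕ} (hp : p0 ≤ p) :
    Cb c (p + 1) ≤ ((p0 : ℝ) / ((p0 : ℝ) - c)) * Cb c p := by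
  have h1 := Cb_succ_le (lt_of_lt_of_le h hp)
  have h2 : (c : ℝ) < p0 := by exact_mod_cast h
  have h3 : (p0 : ℝ) ≤ p := by exact_mod_cast hp
  have h4 := Cb_nonneg c p
  have hc : (0 : ℝ) ≤ c := Nat.cast_nonneg c
  have h5 : (p : ℝ) / ((p : ℝ) - c) ≤ (p0 : ℝ) / ((p0 : ℝ) - c) := by
    rw [div_le_div_iff₀ (by linarith) (by linarith)]
    nlinarith
  calc Cb c (p + 1) ≤ (p : ℝ) / ((p : ℝ) - c) * Cb c p := by
        rw [div_mul_eq_mul_div, le_div_iff₀ (by linarith)]
        linarith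
    _ ≤ _ := mul_le_mul_of_nonneg_right h5 h4

end Pool.JM.FR
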