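import Pool.Agent.Work.MP_46fa68_38.Far3

/-!
# MP_46fa68_co (S4, R1): the table entries (natural numbers, computed in the kernel) and small rows
-/

set_option autoImplicit false

open Finset Equiv

namespace Pool.JM.FR

/-! ## computable ingredients -/

def asc (t : ℕ) : ℕ → ℕ
  | 0 => 1
  | l + 1 => asc t l * (t + l)

def fact : ℕ → ℕ
  | 0 => 1
  | l + 1 => fact l * (l + 1)

def cbN (p : ℕ) : ℕ → ℕ
  | 0 => 1
  | c + 1 => cbN p c * max (c + 1) (p - (c + 1))

def nuN (len R : ℕ) : ℕ → ℕ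
  | 0 => 1
  | l + 1 => nuN len R l * ((l + 1) * len + R)

def nuD (len R : ℕ) : ℕ → ℕ
  | 0 => 1
  | l + 1 => nuD len R l * ((l + 1) * len + R + len * len)

theorem fact_eq (n : ℕ) : fact n = n.factorial := by
  induction n with
  | zero => rfl
  | succ n ih => rw [fact, ih, Nat.factorial_succ, mul_comm]

theorem asc_eq (t n : ℕ) : asc t n = n.factorial * (t + n - 1).choose n := by
  rw [← Nat.ascFactorial_eq_factorial_mul_choose']
  induction n with
  | zero => rfl
  | succ n ih => rw [asc, ih, Nat.ascFactorial_succ, mul_comm]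

theorem Cb_succ' (c p : ℕ) : Cb (c + 1) p = Cb c p * max 1 (((p : ℝ) - ((c : ℝ) + 1)) / ((c : ℝ) + 1)) := by
  unfold Cb
  rw [prod_range_succ]

theorem Cb_eq (c p : ℕ) : Cb c p = (cbN p c : ℝ) / (fact c : ℝ) := by
  induction c with
  | zero => simp [Cb, cbN, fact]
  | succ c ih =>
    rw [Cb_succ', ih, cbN, fact]
    have hf : (fact c : ℝ) ≠ 0 := by
      rw [fact_eq]; exact_mod_cast c.factorial_ne_zero
    have hc : (0 : ℝ) < (c : ℝ) + 1 := by positivity
    have e : max (1 : ℝ) (((p : ℝ) - ((c : ℝ) + 1)) / ((c : ℝ) + 1)) =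
        ((max (c + 1) (p - (c + 1)) : ℕ) : ℝ) / ((c : ℝ) + 1) := by
      rcases Nat.lt_or_ge p (c + 1 + (c + 1)) with h | h
      · have h1 : max (c + 1) (p - (c + 1)) = c + 1 := by omega
        have h2 : (p : ℝ) ≤ (c : ℝ) + 1 + (c + 1) := by exact_mod_cast h.le
        rw [h1, max_eq_left (by rw [div_le_one hc]; linarith)]
        push_cast
        field_simp
      · have h1 : max (c + 1) (p - (c + 1)) = p - (c + 1) := by omega
        have h2 : (c : ℝ) + 1 + (c + 1) ≤ (p : ℝ) := by exact_mod_cast h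
        rw [h1, max_eq_right (by rw [one_le_div hc]; linarith), Nat.cast_sub (by omega)]
        push_cast
        ring
    rw [e]
    push_cast
    field_simp

theorem nuD_pos {len : ℕ} (hl : 1 ≤ len) (R p : ℕ) : 0 < nuD len R p := by
  induction p with
  | zero => exact one_pos
  | succ p ih =>
    rw [nuD]
    have : 0 < (p + 1) * len + R + len * len := by positivity
    positivity

theorem nuR_eq {len : ℕ} (hl : 1 ≤ len) (R p : ℕ) :
    nuR p len ((R : ℝ) / len) = (nuN len R p : ℝ) / ((nuD len R p : ℝ) * (fact p : ℝ)) := by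
  have hlR : (0 : ℝ) < len := by exact_mod_cast hl
  have hR : (0 : ℝ) ≤ R := Nat.cast_nonneg R
  induction p with
  | zero => simp [nuR, nuN, nuD, fact]
  | succ p ih =>
    rw [nuR_succ, ih, nuN, nuD, fact]
    have hf : (fact p : ℝ) ≠ 0 := by
      rw [fact_eq]; exact_mod_cast p.factorial_ne_zero
    have hD : (nuD len R p : ℝ) ≠ 0 := by exact_mod_cast (nuD_pos hl R p).ne'
    have hp : (0 : ℝ) ≤ p := Nat.cast_nonneg p
    have h1 : (p : ℝ) + 1 + R / len + len ≠ 0 := by
      have : 0 < (p : ℝ) + 1 + R / len + len := by positivity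
      exact this.ne'
    have h2 : ((p : ℝ) + 1) * len + R + len * len ≠ 0 := by
      have : 0 < ((p : ℝ) + 1) * len + R + len * len := by positivity
      exact this.ne'
    have e1 : ((p : ℝ) + 1 + R / len) / ((p : ℝ) + 1 + R / len + len) =
        (((p : ℝ) + 1) * len + R) / (((p : ℝ) + 1) * len + R + len * len) := by
      rw [div_eq_div_iff h1 h2]
      field_simp
    rw [e1]
    push_cast
    field_simp

/-! ## the exponential -/

theorem exp_20 : Real.exp (1 / 20) ≤ 105128 / 100000 := by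
  have h := Real.exp_bound' (x := 1 / 20) (by norm_num) (by norm_num) (n := 4) (by norm_num)
  refine h.trans ?_
  norm_num [Finset.sum_range_succ, Nat.factorial]

theorem exp_le_pow {G : ℝ} {K : ℕ} (h : 20 * G ≤ K) :
    Real.exp G ≤ (105128 ^ K : ℕ) / (100000 ^ K : ℕ) := by
  have h1 : G ≤ K * (1 / 20) := by linarith
  calc Real.exp G ≤ Real.exp (K * (1 / 20)) := Real.exp_le_exp.2 h1
    _ = Real.exp (1 / 20) ^ K := by rw [← Real.exp_nat_mul]
    _ ≤ (105128 / 100000) ^ K := pow_le_pow_left₀ (Real.exp_pos _).le exp_20 K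
    _ = _ := by rw [div_pow]; push_cast; rfl

theorem div_le_floor (a b : ℕ) (hb : 0 < b) : (a : ℝ) / b ≤ ((a / b + 1 : ℕ) : ℝ) := by
  have hb' : (0 : ℝ) < b := by exact_mod_cast hb
  rw [div_le_iff₀ hb']
  have h := Nat.lt_mul_div_succ a hb
  have h2 : (a : ℝ) < (b : ℝ) * ((a / b + 1 : ℕ) : ℝ) := by exact_mod_cast h
  linarith

/-! ## the factor of the beads above -/

/-- numerator and denominator of the growth factor -/
def gN (c p : ℕ) : ℕ := if p ≤ 2 * c then 2 else p
def gD (c p : ℕ) : ℕ := if p ≤ 2 * c then 1 else p - c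

theorem gD_pos (c p : ℕ) : 0 < gD c p := by
  unfold gD
  split_ifs with h
  · exact one_pos
  · omega

theorem grow {c p0 p : ℕ} (hp : p0 ≤ p) : Cb c (p + 1) ≤ ((gN c p0 : ℝ) / gD c p0) * Cb c p := by
  unfold gN gD
  split_ifs with h
  · have := Cb_two c p
    push_cast
    linarith
  · have h1 := Cb_grow (c := c) (p0 := p0) (by omega) hp
    rw [Nat.cast_sub (by omega)]
    exact h1

/-! ## the table -/

/-- the number of lifts above the bead of the source `q`, wall `m` -/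
def ix (m c q len : ℕ) : ℕ := q + m + c - len - 1

def ok (t0 m0 c q e L : ℕ) : Bool :=
  decide (t0 + m0 + (1 + e) * L + L * L ≤ L * t0 + (c + 1) * L) && decide (L + e + 2 ≤ t0 + c) &&
  (decide (1 ≤ c) || decide (2 * L ≤ t0 + m0)) && decide ((c + 1) * L ≤ t0 + m0) &&
  decide (L + 1 ≤ q + m0 + c) &&
  (decide (e = 0) || (decide (t0 + m0 + L * L ≤ L * m0 + c * L) && decide (L + 2 ≤ m0 + c)))

/-- the bound of one entry in units `10^(-10)` -/
def ent (t0 m0 c q e L : ℕ) : ℕ :=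
  let i := ix m0 c q L
  let p := i + e
  let R := t0 + m0 - (c + 1) * L
  let K := 20 * ((t0 + i) * ((p + 1) * L + R) * gN c p) /
    (((p + 1 + L) * L + R) * (p + 1) * gD c p) + 1
  (m0 ^ e * asc t0 i * cbN p c * nuN L R p * 105128 ^ K * 10 ^ 10) /
    (fact i * fact c * fact p * nuD L R p * 100000 ^ K) + 1

theorem ok_spec {t0 m0 c q e L : ℕ} (h : ok t0 m0 c q e L = true) :
    t0 + m0 + (1 + e) * L + L * L ≤ L * t0 + (c + 1) * L ∧ L + e + 2 ≤ t0 + c ∧
      (1 ≤ c ∨ 2 * L ≤ t0 + m0) ∧ (c + 1) * L ≤ t0 + m0 ∧ L + 1 ≤ q + m0 + c ∧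
      (e = 0 ∨ (t0 + m0 + L * L ≤ L * m0 + c * L ∧ L + 2 ≤ m0 + c)) := by
  unfold ok at h
  simp only [Bool.and_eq_true, Bool.or_eq_true, decide_eq_true_eq] at h
  obtain ⟨⟨⟨⟨⟨h1, h2⟩, h3⟩, h4⟩, h5⟩, h6⟩ := h
  exact ⟨h1, h2, h3, h4, h5, h6⟩

/-- **one entry of the table**, for all `t = t0 + d` -/
theorem ent_spec {t0 m0 c q e L : ℕ} (ht : 1 ≤ t0) (he : e ≤ 1) (hL : 1 ≤ L)
    (hok : ok t0 m0 c q e L = true) (d : ℕ) {x : ℝ} (hx : 0 ≤ x)
    (hX : x ≤ Xn ((t0 + d) + (m0 + d)) c (L + d)) (A : ℕ) :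
    ((m0 + d : ℕ) : ℝ) ^ e * ∑ a ∈ range A, Wa (t0 + d) (ix (m0 + d) c q (L + d)) a *
      (Cb c (a + e) * nuR (a + e) (L + d) x) ≤ (ent t0 m0 c q e L : ℝ) / 10 ^ 10 := by
  obtain ⟨h1, h2, h3, h4, h5, h6⟩ := ok_spec hok
  have hix : ix (m0 + d) c q (L + d) = ix m0 c q L := by unfold ix; omega
  rw [hix]
  set i := ix m0 c q L with hi
  set p := i + e with hp
  set R := t0 + m0 - (c + 1) * L with hR
  have hLR : (0 : ℝ) < L := by exact_mod_cast hL
  have hXR : Xn (t0 + m0) c L = (R : ℝ) / L := by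
    unfold Xn
    rw [hR, Nat.cast_sub h4]
    push_cast
    ring
  -- the chain
  have s1 : ((m0 + d : ℕ) : ℝ) ^ e * ∑ a ∈ range A, Wa (t0 + d) i a *
      (Cb c (a + e) * nuR (a + e) (L + d) x) ≤
      (m0 : ℝ) ^ e * ∑ a ∈ range A, tm t0 i c e L ((R : ℝ) / L) a := by
    rw [mul_sum, mul_sum]
    refine sum_le_sum fun a _ => ?_
    have h := chain (t0 := t0) (n0 := t0 + m0) (c := c) (len0 := L) (e := e) (m0 := m0) ht he hL
      h3 h1 h2 h6 i a d x hx (by rw [show t0 + m0 + 2 * d = t0 + d + (m0 + d) by ring]; exact hX)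
    rw [hXR] at h
    have hC := Cb_nonneg c (a + e)
    unfold tm
    calc _ = Cb c (a + e) * (((m0 + d : ℕ) : ℝ) ^ e *
          (Wa (t0 + d) i a * nuR (a + e) (L + d) x)) := by ring
      _ ≤ Cb c (a + e) * ((m0 : ℝ) ^ e * (Wa t0 i a * nuR (a + e) L ((R : ℝ) / L))) :=
          mul_le_mul_of_nonneg_left h hC
      _ = _ := by ring
  -- the sum
  have hx0 : (0 : ℝ) ≤ (R : ℝ) / L := by positivity
  have hxt : 1 + (e : ℝ) + (R : ℝ) / L + L ≤ t0 := by
    rw [← hXR]
    unfold Xn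
    have h1' : ((t0 : ℝ) + m0) + (1 + e) * L + L * L ≤ L * t0 + (c + 1) * L := by exact_mod_cast h1
    have : (((t0 + m0 : ℕ) : ℝ) - (c + 1) * L) / L ≤ (t0 : ℝ) - 1 - e - L := by
      rw [div_le_iff₀ hLR]
      push_cast
      nlinarith
    linarith
  have s2 := tm_sum (t := t0) (i := i) (c := c) (e := e) (len := L) (x := (R : ℝ) / L)
    (g := (gN c p : ℝ) / gD c p) ht hx0 hxt (by positivity)
    (fun a ha => grow (by omega)) A
  refine s1.trans ((mul_le_mul_of_nonneg_left s2 (by positivity)).trans ?_)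
  -- the numbers
  set K := 20 * ((t0 + i) * ((p + 1) * L + R) * gN c p) /
    (((p + 1 + L) * L + R) * (p + 1) * gD c p) + 1 with hK
  have hgD := gD_pos c p
  have hK20 : 20 * (G0 t0 i e L ((R : ℝ) / L) * ((gN c p : ℝ) / gD c p)) ≤ K := by
    have hden : 0 < ((p + 1 + L) * L + R) * (p + 1) * gD c p := by positivity
    have := div_le_floor (20 * ((t0 + i) * ((p + 1) * L + R) * gN c p))
      (((p + 1 + L) * L + R) * (p + 1) * gD c p) hden
    rw [← hK] at this
    refine le_trans (le_of_eq ?_) this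
    unfold G0
    have hpR : ((p : ℕ) : ℝ) = (i : ℝ) + e := by rw [hp]; push_cast; ring
    have hgDR : (gD c p : ℝ) ≠ 0 := by exact_mod_cast hgD.ne'
    have hi0 : (0 : ℝ) ≤ i := Nat.cast_nonneg i
    have he0 : (0 : ℝ) ≤ e := Nat.cast_nonneg e
    have hR0 : (0 : ℝ) ≤ R := Nat.cast_nonneg R
    have n1 : (i : ℝ) + e + 1 + R / L + L ≠ 0 := by
      have : 0 < (i : ℝ) + e + 1 + R / L + L := by positivity
      exact this.ne'
    have n2 : (i : ℝ) + e + 1 ≠ 0 := by positivity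
    have n3 : ((i : ℝ) + e + 1 + L) * L + R ≠ 0 := by
      have : 0 < ((i : ℝ) + e + 1 + L) * L + R := by positivity
      exact this.ne'
    push_cast
    rw [hpR]
    have e1 : ((t0 : ℝ) + i) * ((i : ℝ) + e + 1 + R / L) / (((i : ℝ) + e + 1 + R / L + L) *
        ((i : ℝ) + e + 1)) = ((t0 : ℝ) + i) * (((i : ℝ) + e + 1) * L + R) /
        ((((i : ℝ) + e + 1 + L) * L + R) * ((i : ℝ) + e + 1)) := by
      rw [div_eq_div_iff (mul_ne_zero n1 n2) (mul_ne_zero n3 n2)]
      field_simp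
      ring
    rw [e1]
    field_simp
  have s3 := exp_le_pow hK20
  have hT : tm t0 i c e L ((R : ℝ) / L) i = ((asc t0 i * cbN p c * nuN L R p : ℕ) : ℝ) /
      ((fact i * fact c * fact p * nuD L R p : ℕ) : ℝ) := by
    unfold tm Wa
    rw [← hp, nuR_eq hL, Cb_eq, Nat.choose_self, asc_eq, ← fact_eq]
    have f1 : (fact i : ℝ) ≠ 0 := by rw [fact_eq]; exact_mod_cast i.factorial_ne_zero
    have f2 : (fact c : ℝ) ≠ 0 := by rw [fact_eq]; exact_mod_cast c.factorial_ne_zero
    have f3 : (fact p : ℝ) ≠ 0 := by rw [fact_eq]; exact_mod_cast p.factorial_ne_zero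
    have f4 : (nuD L R p : ℝ) ≠ 0 := by exact_mod_cast (nuD_pos hL R p).ne'
    push_cast
    field_simp
  have hTn : 0 ≤ tm t0 i c e L ((R : ℝ) / L) i := tm_nonneg hx0
  calc (m0 : ℝ) ^ e * (tm t0 i c e L ((R : ℝ) / L) i *
        Real.exp (G0 t0 i e L ((R : ℝ) / L) * ((gN c p : ℝ) / gD c p))) ≤
      (m0 : ℝ) ^ e * (tm t0 i c e L ((R : ℝ) / L) i *
        ((105128 ^ K : ℕ) / (100000 ^ K : ℕ))) :=
        mul_le_mul_of_nonneg_left (mul_le_mul_of_nonneg_left s3 hTn) (by positivity)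
    _ = ((m0 ^ e * asc t0 i * cbN p c * nuN L R p * 105128 ^ K * 10 ^ 10 : ℕ) : ℝ) /
        ((fact i * fact c * fact p * nuD L R p * 100000 ^ K : ℕ) : ℝ) / 10 ^ 10 := by
        rw [hT]
        have f1 : (fact i : ℝ) ≠ 0 := by rw [fact_eq]; exact_mod_cast i.factorial_ne_zero
        have f2 : (fact c : ℝ) ≠ 0 := by rw [fact_eq]; exact_mod_cast c.factorial_ne_zero
        have f3 : (fact p : ℝ) ≠ 0 := by rw [fact_eq]; exact_mod_cast p.factorial_ne_zero
        have f4 : (nuD L R p : ℝ) ≠ 0 := by exact_mod_cast (nuD_pos hL R p).ne'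
        push_cast
        field_simp
        norm_num
    _ ≤ _ := by
        refine div_le_div_of_nonneg_right ?_ (by positivity)
        refine div_le_floor _ _ ?_
        have f1 : 0 < fact i := by rw [fact_eq]; exact i.factorial_pos
        have f2 : 0 < fact c := by rw [fact_eq]; exact c.factorial_pos
        have f3 : 0 < fact p := by rw [fact_eq]; exact p.factorial_pos
        have f4 := nuD_pos hL R p
        positivity

end Pool.JM.FR
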