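import Pool.Agent.Work.MP_46fa68_38.Far4

/-!
# MP_46fa68_co (S4, R1): small rows (length at most 3 at the end of the diagonal)
-/

set_option autoImplicit false

open Finset Equiv

namespace Pool.JM.FR

theorem nuR_zz (p : ℕ) : nuR p 0 0 = 1 / (p.factorial : ℝ) := by
  unfold nuR
  rw [prod_eq_one]
  intro l _
  have h : (l : ℝ) + 1 ≠ 0 := by positivity
  simp only [Nat.cast_zero, add_zero]
  exact div_self h

theorem nuR_le_zz {p len : ℕ} {x : ℝ} (hx : 0 ≤ x) : nuR p len x ≤ nuR p 0 0 := by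
  rw [nuR_zz]
  unfold nuR
  refine div_le_div_of_nonneg_right ?_ (Nat.cast_nonneg _)
  refine prod_le_one (fun l _ => by positivity) fun l _ => ?_
  have hn : (0 : ℝ) ≤ len := Nat.cast_nonneg len
  rw [div_le_one (by positivity)]
  linarith

/-- the first term of a small row, with the weight -/
noncomputable def Fs (t m c i e : ℕ) : ℝ := (m : ℝ) ^ e * tm t i c e 0 0 i

theorem tm_zz (t i c e : ℕ) : tm t i c e 0 0 i =
    ((t + i - 1).choose i : ℝ) * (Cb c (i + e) / ((i + e).factorial : ℝ)) := by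
  unfold tm Wa
  rw [nuR_zz, Nat.choose_self]
  push_cast
  ring

theorem Fs_nonneg (t m c i e : ℕ) : 0 ≤ Fs t m c i e :=
  mul_nonneg (by positivity) (tm_nonneg le_rfl)

theorem choose_i {t i : ℕ} (ht : 1 ≤ t) : ((t + (i + 1) - 1).choose (i + 1) : ℝ) * ((i : ℝ) + 1) =
    ((t + i - 1).choose i : ℝ) * ((t : ℝ) + i) := by
  have := Nat.add_one_mul_choose_eq (t + i - 1) i
  rw [show t + i - 1 + 1 = t + i by omega] at this
  rw [show t + (i + 1) - 1 = t + i by omega]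
  have h : ((t : ℝ) + i) * ((t + i - 1).choose i : ℝ) = ((t + i).choose (i + 1) : ℝ) * ((i : ℝ) + 1) := by
    exact_mod_cast this
  linarith

theorem choose_t {t i : ℕ} (ht : 1 ≤ t) : ((t + 1 + i - 1).choose i : ℝ) * (t : ℝ) =
    ((t + i - 1).choose i : ℝ) * ((t : ℝ) + i) := by
  have h := Nat.choose_mul_succ_eq (t + i - 1) i
  rw [show t + i - 1 + 1 = t + i by omega, show t + i - i = t by omega] at h
  rw [show t + 1 + i - 1 = t + i by omega]
  have h' : ((t + i - 1).choose i : ℝ) * ((t : ℝ) + i) = ((t + i).choose i : ℝ) * t := by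
    exact_mod_cast h
  linarith

/-- one more lift -/
theorem Fs_i {t m c i e : ℕ} (ht : 1 ≤ t) (h1 : t ≤ i + 6) (h2 : 9 ≤ i) :
    Fs t m c (i + 1) e ≤ Fs t m c i e := by
  unfold Fs
  refine mul_le_mul_of_nonneg_left ?_ (by positivity)
  rw [tm_zz, tm_zz, show i + 1 + e = i + e + 1 by ring, Nat.factorial_succ]
  have e1 := choose_i (i := i) ht
  have e2 := Cb_two c (i + e)
  have n1 := Cb_nonneg c (i + e)
  have n2 := Cb_nonneg c (i + e + 1)
  have hf : (0 : ℝ) < ((i + e).factorial : ℝ) := by exact_mod_cast (i + e).factorial_pos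
  have hi : (9 : ℝ) ≤ i := by exact_mod_cast h2
  have hti : (t : ℝ) ≤ i + 6 := by exact_mod_cast h1
  have he : (0 : ℝ) ≤ e := Nat.cast_nonneg e
  have e3 : ((t + (i + 1) - 1).choose (i + 1) : ℝ) =
      ((t + i - 1).choose i : ℝ) * (((t : ℝ) + i) / ((i : ℝ) + 1)) := by
    rw [← mul_div_assoc, eq_div_iff (by positivity)]
    exact e1
  set C0 : ℝ := ((t + i - 1).choose i : ℝ) with hC0
  have hC : 0 ≤ C0 := Nat.cast_nonneg _
  rw [e3]
  push_cast
  have key : (((t : ℝ) + i) / ((i : ℝ) + 1)) * (2 / ((i : ℝ) + e + 1)) ≤ 1 := by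
    rw [div_mul_div_comm, div_le_one (by positivity)]
    nlinarith
  calc C0 * (((t : ℝ) + i) / ((i : ℝ) + 1)) * (Cb c (i + e + 1) / (((i : ℝ) + e + 1) *
        ((i + e).factorial : ℝ))) ≤
      C0 * (((t : ℝ) + i) / ((i : ℝ) + 1)) * ((2 * Cb c (i + e)) / (((i : ℝ) + e + 1) *
        ((i + e).factorial : ℝ))) := by
        refine mul_le_mul_of_nonneg_left ?_ (by positivity)
        exact div_le_div_of_nonneg_right e2 (by positivity)
    _ = (C0 * (Cb c (i + e) / ((i + e).factorial : ℝ))) *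
        ((((t : ℝ) + i) / ((i : ℝ) + 1)) * (2 / ((i : ℝ) + e + 1))) := by
        field_simp
    _ ≤ (C0 * (Cb c (i + e) / ((i + e).factorial : ℝ))) * 1 :=
        mul_le_mul_of_nonneg_left key (by positivity)
    _ = _ := by ring

/-- one step up the diagonal -/
theorem Fs_t {t m c i e : ℕ} (ht : 15 ≤ t) (hm : 13 ≤ m) (he : e ≤ 1) (h1 : t ≤ i + 6) :
    Fs (t + 1) (m + 1) c (i + 1) e ≤ Fs t m c i e := by
  unfold Fs
  rw [tm_zz, tm_zz, show i + 1 + e = i + e + 1 by ring, Nat.factorial_succ]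
  have e1 := choose_i (t := t + 1) (i := i) (by omega)
  have e1' := choose_t (t := t) (i := i) (by omega)
  have e2 := Cb_two c (i + e)
  have n1 := Cb_nonneg c (i + e)
  have n2 := Cb_nonneg c (i + e + 1)
  have hf : (0 : ℝ) < ((i + e).factorial : ℝ) := by exact_mod_cast (i + e).factorial_pos
  have htR : (15 : ℝ) ≤ t := by exact_mod_cast ht
  have hmR : (13 : ℝ) ≤ m := by exact_mod_cast hm
  have hti : (t : ℝ) ≤ i + 6 := by exact_mod_cast h1
  have hi : (9 : ℝ) ≤ i := by linarith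
  have e3 : ((t + 1 + (i + 1) - 1).choose (i + 1) : ℝ) =
      ((t + i - 1).choose i : ℝ) * ((((t : ℝ) + i) / t) * (((t : ℝ) + 1 + i) / ((i : ℝ) + 1))) := by
    have e4 : ((t + 1 + i - 1).choose i : ℝ) = ((t + i - 1).choose i : ℝ) * (((t : ℝ) + i) / t) := by
      rw [← mul_div_assoc, eq_div_iff (by positivity)]
      exact e1'
    have e5 : ((t + 1 + (i + 1) - 1).choose (i + 1) : ℝ) =
        ((t + 1 + i - 1).choose i : ℝ) * (((t : ℝ) + 1 + i) / ((i : ℝ) + 1)) := by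
      rw [← mul_div_assoc, eq_div_iff (by positivity)]
      push_cast at e1
      linarith
    rw [e5, e4]
    ring
  set C0 : ℝ := ((t + i - 1).choose i : ℝ) with hC0
  have hC : 0 ≤ C0 := Nat.cast_nonneg _
  rw [e3]
  push_cast
  have key : ((m : ℝ) + 1) ^ e * ((((t : ℝ) + i) / t) * (((t : ℝ) + 1 + i) / ((i : ℝ) + 1)) *
      (2 / ((i : ℝ) + e + 1))) ≤ (m : ℝ) ^ e := by
    obtain ⟨s, hs, hs0⟩ : ∃ s : ℝ, (t : ℝ) = 15 + s ∧ 0 ≤ s := ⟨t - 15, by ring, by linarith⟩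
    obtain ⟨k, hk, hk0⟩ : ∃ k : ℝ, (i : ℝ) = 9 + s + k ∧ 0 ≤ k :=
      ⟨i - 9 - s, by ring, by linarith⟩
    have h3 : 0 ≤ s * k := mul_nonneg hs0 hk0
    have h4 : 0 ≤ s * s * k := mul_nonneg (mul_nonneg hs0 hs0) hk0
    have h5 : 0 ≤ s * k * k := mul_nonneg h3 hk0
    have h6 : 0 ≤ s * s := mul_nonneg hs0 hs0
    have h7 : 0 ≤ s * s * s := mul_nonneg h6 hs0
    have h8 : 0 ≤ k * k := mul_nonneg hk0 hk0
    interval_cases e
    · rw [pow_zero, pow_zero, one_mul, div_mul_div_comm, div_mul_div_comm, div_le_one (by positivity)]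
      rw [hs, hk]
      push_cast
      nlinarith
    · rw [pow_one, pow_one, div_mul_div_comm, div_mul_div_comm, ← mul_div_assoc,
        div_le_iff₀ (by positivity)]
      rw [hs, hk]
      push_cast
      have hb : 14 * (((15 + s) + (9 + s + k)) * ((15 + s) + 1 + (9 + s + k)) * 2) ≤
          13 * ((15 + s) * ((9 + s + k) + 1) * ((9 + s + k) + 1 + 1)) := by
        nlinarith
      have hmm : 13 * ((m : ℝ) + 1) ≤ 14 * m := by linarith
      have hpos : 0 ≤ ((15 + s) + (9 + s + k)) * ((15 + s) + 1 + (9 + s + k)) * 2 := by positivity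
      set Q : ℝ := ((15 + s) + (9 + s + k)) * ((15 + s) + 1 + (9 + s + k)) * 2 with hQ
      set P : ℝ := (15 + s) * ((9 + s + k) + 1) * ((9 + s + k) + 1 + 1) with hP
      have hm0 : (0 : ℝ) ≤ m := by linarith
      nlinarith [mul_le_mul_of_nonneg_right hmm hpos, mul_le_mul_of_nonneg_left hb hm0]
  calc ((m : ℝ) + 1) ^ e * (C0 * ((((t : ℝ) + i) / t) * (((t : ℝ) + 1 + i) / ((i : ℝ) + 1))) *
        (Cb c (i + e + 1) / (((i : ℝ) + e + 1) * ((i + e).factorial : ℝ)))) ≤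
      ((m : ℝ) + 1) ^ e * (C0 * ((((t : ℝ) + i) / t) * (((t : ℝ) + 1 + i) / ((i : ℝ) + 1))) *
        ((2 * Cb c (i + e)) / (((i : ℝ) + e + 1) * ((i + e).factorial : ℝ)))) := by
        refine mul_le_mul_of_nonneg_left (mul_le_mul_of_nonneg_left ?_ (by positivity))
          (by positivity)
        exact div_le_div_of_nonneg_right e2 (by positivity)
    _ = (C0 * (Cb c (i + e) / ((i + e).factorial : ℝ))) *
        (((m : ℝ) + 1) ^ e * ((((t : ℝ) + i) / t) * (((t : ℝ) + 1 + i) / ((i : ℝ) + 1)) *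
          (2 / ((i : ℝ) + e + 1)))) := by
        field_simp
    _ ≤ (C0 * (Cb c (i + e) / ((i + e).factorial : ℝ))) * (m : ℝ) ^ e :=
        mul_le_mul_of_nonneg_left key (by positivity)
    _ = _ := by ring

/-- one more bead above (`c ≥ 4`) -/
theorem Fs_c {t m c i e : ℕ} (ht : 1 ≤ t) (hc : 4 ≤ c) (h1 : t ≤ i + 3) (h2 : 9 ≤ i)
    (h3 : c < i + e) : Fs t m (c + 1) (i + 1) e ≤ Fs t m c i e / 2 := by
  unfold Fs
  rw [mul_div_assoc]
  refine mul_le_mul_of_nonneg_left ?_ (by positivity)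
  rw [tm_zz, tm_zz, show i + 1 + e = i + e + 1 by ring, Nat.factorial_succ]
  have e1 := choose_i (i := i) ht
  have n1 := Cb_nonneg c (i + e)
  have n2 := Cb_nonneg c (i + e + 1)
  have hf : (0 : ℝ) < ((i + e).factorial : ℝ) := by exact_mod_cast (i + e).factorial_pos
  have hi : (9 : ℝ) ≤ i := by exact_mod_cast h2
  have hti : (t : ℝ) ≤ i + 3 := by exact_mod_cast h1
  have he : (0 : ℝ) ≤ e := Nat.cast_nonneg e
  have hcR : (4 : ℝ) ≤ c := by exact_mod_cast hc
  have hpR : ((i + e : ℕ) : ℝ) = (i : ℝ) + e := by push_cast; ring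
  -- the factor of the beads above
  have e2 : Cb (c + 1) (i + e + 1) ≤ Cb c (i + e) * (((i : ℝ) + e + 1) / 5) := by
    rw [Cb_succ']
    have e5 : (((i + e + 1 : ℕ) : ℝ) - ((c : ℝ) + 1)) = (i : ℝ) + e - c := by push_cast; ring
    rw [e5]
    rcases le_total (((i : ℝ) + e - c) / ((c : ℝ) + 1)) 1 with h | h
    · rw [max_eq_left h, mul_one]
      refine (Cb_two c (i + e)).trans ?_
      rw [mul_comm]
      exact mul_le_mul_of_nonneg_left (by linarith) n1
    · rw [max_eq_right h, ← mul_div_assoc, div_le_iff₀ (by linarith)]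
      have h4 := Cb_succ_le h3
      rw [hpR] at h4
      refine h4.trans ?_
      rw [mul_assoc]
      refine mul_le_mul_of_nonneg_left ?_ n1
      nlinarith
  have e3 : ((t + (i + 1) - 1).choose (i + 1) : ℝ) =
      ((t + i - 1).choose i : ℝ) * (((t : ℝ) + i) / ((i : ℝ) + 1)) := by
    rw [← mul_div_assoc, eq_div_iff (by positivity)]
    exact e1
  set C0 : ℝ := ((t + i - 1).choose i : ℝ) with hC0
  have hC : 0 ≤ C0 := Nat.cast_nonneg _
  rw [e3]
  push_cast
  have key : ((t : ℝ) + i) / ((i : ℝ) + 1) ≤ 5 / 2 := by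
    rw [div_le_iff₀ (by positivity)]
    linarith
  calc C0 * (((t : ℝ) + i) / ((i : ℝ) + 1)) * (Cb (c + 1) (i + e + 1) / (((i : ℝ) + e + 1) *
        ((i + e).factorial : ℝ))) ≤
      C0 * (5 / 2) * ((Cb c (i + e) * (((i : ℝ) + e + 1) / 5)) / (((i : ℝ) + e + 1) *
        ((i + e).factorial : ℝ))) := by
        refine mul_le_mul (mul_le_mul_of_nonneg_left key hC)
          (div_le_div_of_nonneg_right e2 (by positivity)) (div_nonneg (Cb_nonneg _ _) (by positivity))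
          (by positivity)
    _ = _ := by
        field_simp

/-- the number of lifts of a row of length 3 -/
def i3 (m c q : ℕ) : ℕ := q + m + c - 4

theorem Fs_le {t0 m0 c q e : ℕ} (ht : 15 ≤ t0) (hm : 13 ≤ m0) (hmt : t0 ≤ m0 + 2) (he : e ≤ 1)
    (d : ℕ) {i : ℕ} (hi : i3 (m0 + d) c q ≤ i) :
    Fs (t0 + d) (m0 + d) c i e ≤ Fs t0 m0 c (i3 m0 c q) e := by
  have s1 : ∀ k : ℕ, Fs (t0 + d) (m0 + d) c (i3 (m0 + d) c q + k) e ≤
      Fs (t0 + d) (m0 + d) c (i3 (m0 + d) c q) e := by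
    intro k
    induction k with
    | zero => exact le_rfl
    | succ k ih =>
      refine le_trans ?_ ih
      rw [← add_assoc]
      exact Fs_i (by omega) (by unfold i3; omega) (by unfold i3; omega)
  have s2 : ∀ d : ℕ, Fs (t0 + d) (m0 + d) c (i3 (m0 + d) c q) e ≤ Fs t0 m0 c (i3 m0 c q) e := by
    intro d
    induction d with
    | zero => exact le_rfl
    | succ d ih =>
      refine le_trans ?_ ih
      rw [show t0 + (d + 1) = t0 + d + 1 by ring, show m0 + (d + 1) = m0 + d + 1 by ring,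
        show i3 (m0 + d + 1) c q = i3 (m0 + d) c q + 1 by unfold i3; omega]
      exact Fs_t (by omega) (by omega) he (by unfold i3; omega)
  obtain ⟨k, rfl⟩ := Nat.exists_eq_add_of_le hi
  exact (s1 k).trans (s2 d)

theorem G0_zz {t i e : ℕ} (h1 : t ≤ i + 6) (h2 : 9 ≤ i) : G0 t i e 0 0 ≤ 12 / 5 := by
  unfold G0
  have hi : (9 : ℝ) ≤ i := by exact_mod_cast h2
  have hti : (t : ℝ) ≤ i + 6 := by exact_mod_cast h1
  have he : (0 : ℝ) ≤ e := Nat.cast_nonneg e
  rw [div_le_iff₀ (by positivity)]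
  simp only [Nat.cast_zero, add_zero]
  have : (t : ℝ) + i ≤ 12 / 5 * ((i : ℝ) + e + 1) := by linarith
  have h3 : (0 : ℝ) ≤ (i : ℝ) + e + 1 := by positivity
  nlinarith

/-- **a small row** -/
theorem small_sum {t0 m0 c q e : ℕ} (ht : 15 ≤ t0) (hm : 13 ≤ m0) (hmt : t0 ≤ m0 + 2) (he : e ≤ 1)
    (d : ℕ) {i : ℕ} (hi : i3 (m0 + d) c q ≤ i) {g : ℝ} (hg0 : 0 ≤ g)
    (hg : ∀ p, i3 m0 c q + e ≤ p → Cb c (p + 1) ≤ g * Cb c p) (A : ℕ) :
    ((m0 + d : ℕ) : ℝ) ^ e * ∑ a ∈ range A, tm (t0 + d) i c e 0 0 a ≤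
      Fs t0 m0 c (i3 m0 c q) e * Real.exp (12 / 5 * g) := by
  have hii : i3 m0 c q + d = i3 (m0 + d) c q := by unfold i3; omega
  have h9 : 9 ≤ i := by unfold i3 at hi; omega
  have h4 : t0 + d ≤ i + 6 := by unfold i3 at hi; omega
  have hcond : 1 + (e : ℝ) + 0 + ((0 : ℕ) : ℝ) ≤ ((t0 + d : ℕ) : ℝ) := by
    have h : 1 + e ≤ t0 + d := by omega
    have : (1 : ℝ) + e ≤ ((t0 + d : ℕ) : ℝ) := by exact_mod_cast h
    simpa using this
  have s := tm_sum (t := t0 + d) (i := i) (c := c) (e := e) (len := 0) (x := 0) (g := g)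
    (by omega) le_rfl hcond hg0 (fun a ha => hg _ (by omega)) A
  have hG := G0_zz (e := e) h4 h9
  have hexp : Real.exp (G0 (t0 + d) i e 0 0 * g) ≤ Real.exp (12 / 5 * g) :=
    Real.exp_le_exp.2 (mul_le_mul_of_nonneg_right hG hg0)
  have hF := Fs_le (c := c) (q := q) ht hm hmt he d hi
  have hT := tm_nonneg (t := t0 + d) (i := i) (c := c) (e := e) (len := 0) (a := i) (x := 0) le_rfl
  calc _ ≤ ((m0 + d : ℕ) : ℝ) ^ e * (tm (t0 + d) i c e 0 0 i *
        Real.exp (G0 (t0 + d) i e 0 0 * g)) := mul_le_mul_of_nonneg_left s (by positivity)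
    _ ≤ ((m0 + d : ℕ) : ℝ) ^ e * (tm (t0 + d) i c e 0 0 i * Real.exp (12 / 5 * g)) :=
        mul_le_mul_of_nonneg_left (mul_le_mul_of_nonneg_left hexp hT) (by positivity)
    _ = Fs (t0 + d) (m0 + d) c i e * Real.exp (12 / 5 * g) := by
        unfold Fs
        ring
    _ ≤ _ := mul_le_mul_of_nonneg_right hF (Real.exp_pos _).le

/-! ## numbers -/

/-- the bound of the small rows in units `10^(-10)`, `K / 20` the exponent -/
def sentK (t0 m0 c q e K : ℕ) : ℕ :=
  let i := i3 m0 c q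
  let p := i + e
  (m0 ^ e * asc t0 i * cbN p c * 105128 ^ K * 10 ^ 10) /
    (fact i * fact c * fact p * 100000 ^ K) + 1

theorem sentK_spec {t0 m0 c q e K : ℕ} {G : ℝ} (h : 20 * G ≤ K) :
    Fs t0 m0 c (i3 m0 c q) e * Real.exp G ≤ (sentK t0 m0 c q e K : ℝ) / 10 ^ 10 := by
  set i := i3 m0 c q with hi
  set p := i + e with hp
  have s3 := exp_le_pow h
  have hT : Fs t0 m0 c i e = ((m0 ^ e * (asc t0 i * cbN p c) : ℕ) : ℝ) /
      ((fact i * fact c * fact p : ℕ) : ℝ) := by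
    unfold Fs
    rw [tm_zz, ← hp, Cb_eq, asc_eq, ← fact_eq, ← fact_eq]
    have f1 : (fact i : ℝ) ≠ 0 := by rw [fact_eq]; exact_mod_cast i.factorial_ne_zero
    have f2 : (fact c : ℝ) ≠ 0 := by rw [fact_eq]; exact_mod_cast c.factorial_ne_zero
    have f3 : (fact p : ℝ) ≠ 0 := by rw [fact_eq]; exact_mod_cast p.factorial_ne_zero
    push_cast
    field_simp
  have f1 : 0 < fact i := by rw [fact_eq]; exact i.factorial_pos
  have f2 : 0 < fact c := by rw [fact_eq]; exact c.factorial_pos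
  have f3 : 0 < fact p := by rw [fact_eq]; exact p.factorial_pos
  calc Fs t0 m0 c i e * Real.exp G ≤ Fs t0 m0 c i e * ((105128 ^ K : ℕ) / (100000 ^ K : ℕ)) :=
        mul_le_mul_of_nonneg_left s3 (Fs_nonneg _ _ _ _ _)
    _ = ((m0 ^ e * asc t0 i * cbN p c * 105128 ^ K * 10 ^ 10 : ℕ) : ℝ) /
        ((fact i * fact c * fact p * 100000 ^ K : ℕ) : ℝ) / 10 ^ 10 := by
        rw [hT]
        push_cast
        field_simp
        norm_num
    _ ≤ _ := by
        refine div_le_div_of_nonneg_right ?_ (by positivity)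
        exact div_le_floor _ _ (by positivity)

/-- the bound of a small row with `c` beads above -/
def sent (t0 m0 c q e : ℕ) : ℕ :=
  sentK t0 m0 c q e (48 * gN c (i3 m0 c q + e) / gD c (i3 m0 c q + e) + 1)

theorem small_row {t0 m0 c q e : ℕ} (ht : 15 ≤ t0) (hm : 13 ≤ m0) (hmt : t0 ≤ m0 + 2) (he : e ≤ 1)
    (d : ℕ) {i : ℕ} (hi : i3 (m0 + d) c q ≤ i) (A : ℕ) :
    ((m0 + d : ℕ) : ℝ) ^ e * ∑ a ∈ range A, tm (t0 + d) i c e 0 0 a ≤
      (sent t0 m0 c q e : ℝ) / 10 ^ 10 := by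
  refine (small_sum ht hm hmt he d hi (g := (gN c (i3 m0 c q + e) : ℝ) / gD c (i3 m0 c q + e))
    (by positivity) (fun p hp => grow hp) A).trans (sentK_spec ?_)
  have h := div_le_floor (48 * gN c (i3 m0 c q + e)) (gD c (i3 m0 c q + e)) (gD_pos _ _)
  refine le_trans (le_of_eq ?_) h
  push_cast
  ring

/-- the bound of all small rows with at least `c ≥ 4` beads above -/
theorem small_tail {t0 m0 c q e : ℕ} (ht : 15 ≤ t0) (hm : 13 ≤ m0) (hmt : t0 ≤ m0 + 2) (he : e ≤ 1)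
    (hc : 4 ≤ c) (hcp : c < i3 m0 c q + e) (k d : ℕ) {i : ℕ}
    (hi : i3 (m0 + d) (c + k) q ≤ i) (A : ℕ) :
    ((m0 + d : ℕ) : ℝ) ^ e * ∑ a ∈ range A, tm (t0 + d) i (c + k) e 0 0 a ≤
      (sentK t0 m0 c q e 96 : ℝ) / 10 ^ 10 * (1 / 2) ^ k := by
  have s1 := small_sum (c := c + k) ht hm hmt he d hi (g := 2) (by norm_num)
    (fun p _ => Cb_two (c + k) p) A
  have s2 : ∀ k : ℕ, Fs t0 m0 (c + k) (i3 m0 (c + k) q) e ≤
      Fs t0 m0 c (i3 m0 c q) e * (1 / 2) ^ k := by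
    intro k
    induction k with
    | zero => simp
    | succ k ih =>
      rw [← add_assoc, show i3 m0 (c + k + 1) q = i3 m0 (c + k) q + 1 by unfold i3; omega]
      have h := Fs_c (t := t0) (m := m0) (c := c + k) (i := i3 m0 (c + k) q) (e := e) (by omega)
        (by omega) (by unfold i3; omega) (by unfold i3; omega) (by unfold i3 at hcp ⊢; omega)
      refine h.trans ?_
      rw [pow_succ]
      linarith
  have s3 := sentK_spec (t0 := t0) (m0 := m0) (c := c) (q := q) (e := e) (K := 96)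
    (G := 12 / 5 * 2) (by norm_num)
  calc _ ≤ _ := s1
    _ ≤ (Fs t0 m0 c (i3 m0 c q) e * (1 / 2) ^ k) * Real.exp (12 / 5 * 2) :=
        mul_le_mul_of_nonneg_right (s2 k) (Real.exp_pos _).le
    _ = (Fs t0 m0 c (i3 m0 c q) e * Real.exp (12 / 5 * 2)) * (1 / 2) ^ k := by ring
    _ ≤ _ := mul_le_mul_of_nonneg_right s3 (by positivity)

end Pool.JM.FR
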