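import Pool.Agent.Work.MP_46fa68_38.Far5

/-!
# MP_46fa68_co (S4, R1): the contribution of one bead
-/

set_option autoImplicit false

open Finset Equiv

namespace Pool.JM.FR

/-- number of beads above `x` -/
def up (B : Finset ℕ) (x : ℕ) : ℕ := (B.filter (x < ·)).card

/-- number of beads below `x` -/
def dn (B : Finset ℕ) (x : ℕ) : ℕ := (B.filter (· < x)).card

/-- length of the row of the bead `x` -/
def rl (B : Finset ℕ) (x : ℕ) : ℕ := x - dn B x

/-- the table maximum over `3 ≤ L ≤ Lm` -/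
def mx (t0 m0 c q e : ℕ) : ℕ → ℕ
  | 0 => 0
  | L + 1 => max (mx t0 m0 c q e L) (if 3 ≤ L + 1 then ent t0 m0 c q e (L + 1) else 0)

def okR (t0 m0 c q e : ℕ) : ℕ → Bool
  | 0 => true
  | L + 1 => okR t0 m0 c q e L && (decide (L + 1 < 3) || ok t0 m0 c q e (L + 1))

theorem mx_ge {t0 m0 c q e : ℕ} : ∀ {Lm L : ℕ}, 3 ≤ L → L ≤ Lm → ent t0 m0 c q e L ≤ mx t0 m0 c q e Lm
  | 0, L, h1, h2 => by omega
  | Lm + 1, L, h1, h2 => by
    rw [mx]
    rcases Nat.lt_or_ge L (Lm + 1) with h | h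
    · exact (mx_ge h1 (by omega)).trans (le_max_left _ _)
    · have : L = Lm + 1 := by omega
      subst this
      rw [if_pos h1]
      exact le_max_right _ _

theorem okR_spec {t0 m0 c q e : ℕ} : ∀ {Lm L : ℕ}, okR t0 m0 c q e Lm = true → 3 ≤ L → L ≤ Lm →
    ok t0 m0 c q e L = true
  | 0, L, h, h1, h2 => by omega
  | Lm + 1, L, h, h1, h2 => by
    rw [okR, Bool.and_eq_true, Bool.or_eq_true, decide_eq_true_eq] at h
    rcases Nat.lt_or_ge L (Lm + 1) with h' | h'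
    · exact okR_spec h.1 h1 (by omega)
    · have : L = Lm + 1 := by omega
      subst this
      rcases h.2 with h3 | h3
      · omega
      · exact h3

/-- the bound of a row with `c` beads above, length at most `Lm + (t - t0)` -/
def rowE (t0 m0 c q e Lm : ℕ) : ℕ := max (mx t0 m0 c q e Lm) (sent t0 m0 c q e)

/-- the admissible starting values: lifts `t0`, wall `m0` -/
structure Rg (t0 m0 : ℕ) : Prop where
  h15 : 15 ≤ t0
  h13 : 13 ≤ m0
  h2 : t0 ≤ m0 + 2
  h3 : m0 ≤ t0 + 3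

/-- **one bead**: with the weight `m^e`; `t` lifts, wall `m` -/
noncomputable def rowS (t m q e : ℕ) (B : Finset ℕ) (x A : ℕ) : ℝ :=
  (m : ℝ) ^ e * ∑ a ∈ range A, Wa t (ix m (up B x) q (rl B x)) a * |Rr B x (a + e)|

theorem rowS_nonneg (t m q e : ℕ) (B : Finset ℕ) (x A : ℕ) : 0 ≤ rowS t m q e B x A :=
  mul_nonneg (by positivity) (sum_nonneg fun _ _ => mul_nonneg (Wa_nonneg _ _ _) (abs_nonneg _))

/-- the bound of `Rr` in all cases -/
theorem Rr_all {K n : ℕ} {B : Finset ℕ} (hB : B ∈ Lv K n) {x : ℕ} (hx : x ∈ B) :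
    (up B x + 1) * rl B x ≤ n ∧
    (∀ p, |Rr B x p| ≤ Cb (up B x) p * nuR p 0 0) ∧
    (1 ≤ rl B x → ∃ y : ℝ, 0 ≤ y ∧ y ≤ Xn n (up B x) (rl B x) ∧
      ∀ p, |Rr B x p| ≤ Cb (up B x) p * nuR p (rl B x) y) := by
  obtain ⟨a, R, h1, h2, h3, h4⟩ := bead_data hB hx
  have hrl : rl B x = a := by
    unfold rl dn
    omega
  have hup : up B x = (B.filter (x < ·)).card := rfl
  have hpos : 1 ≤ a → ∃ y : ℝ, 0 ≤ y ∧ y ≤ Xn n (up B x) a ∧
      ∀ p, |Rr B x p| ≤ Cb (up B x) p * nuR p a y := by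
    intro ha
    have haR : (0 : ℝ) < a := by exact_mod_cast ha
    refine ⟨(R : ℝ) / a, by positivity, ?_, fun p => Rr_row_le ha h2 rfl h3 p⟩
    unfold Xn
    refine div_le_div_of_nonneg_right ?_ haR.le
    have : (((up B x : ℕ) : ℝ) + 1) * a + R ≤ n := by
      rw [hup]
      exact_mod_cast h4
    linarith
  rw [hrl]
  refine ⟨?_, ?_, hpos⟩
  · rw [hup]
    omega
  · rcases Nat.eq_zero_or_pos a with ha | ha
    · -- an empty row
      subst ha
      rw [add_zero] at h2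
      have hk : B.filter (· < x) = range x := by
        refine eq_of_subset_of_card_le (fun y hy => mem_range.2 (mem_filter.1 hy).2) ?_
        rw [card_range, ← h2]
      intro p
      have h := Rr_row_zero hk p
      rw [nuR_zz]
      refine h.trans (le_of_eq ?_)
      rw [hup]
      ring
    · obtain ⟨y, hy0, -, hy⟩ := hpos ha
      intro p
      exact (hy p).trans (mul_le_mul_of_nonneg_left (nuR_le_zz hy0) (Cb_nonneg _ _))

theorem rowS_zz {K n t m q e : ℕ} {B : Finset ℕ} (hB : B ∈ Lv K n) {x : ℕ} (hx : x ∈ B)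
    (A : ℕ) : rowS t m q e B x A ≤ (m : ℝ) ^ e * ∑ a ∈ range A,
      tm t (ix m (up B x) q (rl B x)) (up B x) e 0 0 a := by
  obtain ⟨-, h2, -⟩ := Rr_all hB hx
  unfold rowS tm
  refine mul_le_mul_of_nonneg_left (sum_le_sum fun a _ => ?_) (by positivity)
  exact mul_le_mul_of_nonneg_left (h2 _) (Wa_nonneg _ _ _)

/-- the chain down to length 3 -/
theorem chain3 {t1 m1 c q e : ℕ} (hR : Rg t1 m1) (he : e ≤ 1) (d : ℕ) {x : ℝ} (hx : 0 ≤ x)
    (hX : x ≤ Xn ((t1 + d) + (m1 + d)) c (3 + d)) (A : ℕ) :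
    ((m1 + d : ℕ) : ℝ) ^ e * ∑ a ∈ range A, Wa (t1 + d) (ix (m1 + d) c q (3 + d)) a *
      (Cb c (a + e) * nuR (a + e) (3 + d) x) ≤
    (m1 : ℝ) ^ e * ∑ a ∈ range A, tm t1 (ix m1 c q 3) c e 0 0 a := by
  obtain ⟨r1, r2, r3, r4⟩ := hR
  have hix : ix (m1 + d) c q (3 + d) = ix m1 c q 3 := by unfold ix; omega
  rw [hix, mul_sum, mul_sum]
  refine sum_le_sum fun a _ => ?_
  have h := chain (t0 := t1) (n0 := t1 + m1) (c := c) (len0 := 3) (e := e) (m0 := m1) (by omega) he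
    (by norm_num) (by omega) (by omega) (by omega) (Or.inr ⟨by omega, by omega⟩)
    (ix m1 c q 3) a d x hx
    (by rw [show t1 + m1 + 2 * d = t1 + d + (m1 + d) by ring]; exact hX)
  have hC := Cb_nonneg c (a + e)
  have hXn : 0 ≤ Xn (t1 + m1) c 3 ∨ Xn (t1 + m1) c 3 < 0 := le_or_gt _ _
  unfold tm
  have hW := Wa_nonneg t1 (ix m1 c q 3) a
  have hnu : nuR (a + e) 3 (Xn (t1 + m1) c 3) ≤ nuR (a + e) 0 0 := by
    rcases hXn with h0 | h0
    · exact nuR_le_zz h0
    · exfalso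
      -- the parameter along the chain is at most the starting one
      have hd : (0 : ℝ) ≤ d := Nat.cast_nonneg d
      have h1 : 0 ≤ Xn ((t1 + d) + (m1 + d)) c (3 + d) := hx.trans hX
      unfold Xn at h0 h1
      have e1 : (((3 + d : ℕ) : ℕ) : ℝ) = 3 + (d : ℝ) := by push_cast; ring
      rw [e1] at h1
      have h2 : 0 ≤ (((t1 + d + (m1 + d) : ℕ) : ℝ) - ((c : ℝ) + 1) * (3 + d)) := by
        by_contra hneg
        push Not at hneg
        have := div_neg_of_neg_of_pos hneg (by positivity : (0 : ℝ) < 3 + (d : ℝ))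
        linarith
      have h3 : (((t1 + m1 : ℕ) : ℝ) - ((c : ℝ) + 1) * ((3 : ℕ) : ℝ)) < 0 := by
        by_contra hneg
        push Not at hneg
        have := div_nonneg hneg (by norm_num : (0 : ℝ) ≤ ((3 : ℕ) : ℝ))
        linarith
      push_cast at h2 h3
      have h5 : (15 : ℝ) ≤ t1 := by exact_mod_cast r1
      have h6' : (13 : ℝ) ≤ m1 := by exact_mod_cast r2
      rcases Nat.eq_zero_or_pos c with h6 | h6
      · subst h6
        push_cast at h2 h3
        linarith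
      · have h7 : (1 : ℝ) ≤ c := by exact_mod_cast h6
        nlinarith
  calc _ = Cb c (a + e) * (((m1 + d : ℕ) : ℝ) ^ e *
        (Wa (t1 + d) (ix m1 c q 3) a * nuR (a + e) (3 + d) x)) := by ring
    _ ≤ Cb c (a + e) * ((m1 : ℝ) ^ e * (Wa t1 (ix m1 c q 3) a *
        nuR (a + e) 3 (Xn (t1 + m1) c 3))) := mul_le_mul_of_nonneg_left h hC
    _ ≤ Cb c (a + e) * ((m1 : ℝ) ^ e * (Wa t1 (ix m1 c q 3) a * nuR (a + e) 0 0)) := by
        refine mul_le_mul_of_nonneg_left (mul_le_mul_of_nonneg_left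
          (mul_le_mul_of_nonneg_left hnu hW) (by positivity)) hC
    _ = _ := by ring

theorem Rg.add {t0 m0 : ℕ} (h : Rg t0 m0) (d : ℕ) : Rg (t0 + d) (m0 + d) := by
  obtain ⟨a, b, c, e⟩ := h
  exact ⟨by omega, by omega, by omega, by omega⟩

/-- the reduction of a short row (`rl B x ≤ 3 + d`) to a small row at some `t1 = t0 + d1` -/
theorem short_row {K t0 m0 q e d : ℕ} (hR : Rg t0 m0) (he : e ≤ 1) {B : Finset ℕ}
    (hB : B ∈ Lv K ((t0 + d) + (m0 + d))) {x : ℕ} (hx : x ∈ B)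
    (hs : rl B x ≤ 3 + d) (A : ℕ) :
    ∃ d1 i : ℕ, i3 (m0 + d1) (up B x) q ≤ i ∧
      rowS (t0 + d) (m0 + d) q e B x A ≤
        ((m0 + d1 : ℕ) : ℝ) ^ e * ∑ a ∈ range A, tm (t0 + d1) i (up B x) e 0 0 a := by
  set c := up B x with hcdef
  rcases Nat.lt_or_ge (rl B x) 3 with h | h
  · refine ⟨d, ix (m0 + d) c q (rl B x), ?_, ?_⟩
    · unfold i3 ix
      omega
    · have := rowS_zz (t := t0 + d) (m := m0 + d) (q := q) (e := e) hB hx A
      exact this
  · obtain ⟨k, hk⟩ : ∃ k, rl B x = 3 + k := ⟨rl B x - 3, by omega⟩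
    obtain ⟨d1, hd1⟩ : ∃ d1, d = d1 + k := ⟨d - k, by omega⟩
    obtain ⟨-, -, h3⟩ := Rr_all hB hx
    obtain ⟨y, hy0, hyX, hy⟩ := h3 (by omega)
    refine ⟨d1, ix (m0 + d1) c q 3, by unfold i3 ix; omega, ?_⟩
    have hch := chain3 (t1 := t0 + d1) (m1 := m0 + d1) (c := c) (q := q) (e := e) (hR.add d1) he
      k hy0 (by
        rw [hk] at hyX
        rw [show t0 + d1 + k + (m0 + d1 + k) = t0 + d + (m0 + d) by omega]
        exact hyX) A
    refine le_trans ?_ hch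
    rw [show t0 + d1 + k = t0 + d by omega, show m0 + d1 + k = m0 + d by omega]
    unfold rowS
    rw [hk, ← hcdef]
    refine mul_le_mul_of_nonneg_left (sum_le_sum fun a _ => ?_) (by positivity)
    have := hy (a + e)
    rw [hk] at this
    exact mul_le_mul_of_nonneg_left this (Wa_nonneg _ _ _)

/-- **one bead**: the bound `rowE / 10^10` for all `t ≥ t0` -/
theorem row_bound {K t0 m0 q e Lm : ℕ} (hR : Rg t0 m0) (he : e ≤ 1) (d : ℕ) {B : Finset ℕ}
    (hB : B ∈ Lv K ((t0 + d) + (m0 + d))) {x : ℕ} (hx : x ∈ B)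
    (hok : okR t0 m0 (up B x) q e Lm = true) (hL : rl B x ≤ Lm + d) (A : ℕ) :
    rowS (t0 + d) (m0 + d) q e B x A ≤ (rowE t0 m0 (up B x) q e Lm : ℝ) / 10 ^ 10 := by
  set c := up B x with hcdef
  rcases Nat.lt_or_ge (rl B x) (3 + d) with h | h
  · obtain ⟨d1, i, hi, hr⟩ := short_row (q := q) hR he hB hx h.le A
    refine hr.trans ((small_row hR.h15 hR.h13 hR.h2 he d1 hi A).trans ?_)
    refine div_le_div_of_nonneg_right ?_ (by positivity)
    exact_mod_cast le_max_right _ _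
  · obtain ⟨L, hLd⟩ : ∃ L, rl B x = L + d := ⟨rl B x - d, by omega⟩
    obtain ⟨-, -, h3⟩ := Rr_all hB hx
    obtain ⟨y, hy0, hyX, hy⟩ := h3 (by omega)
    have hL3 : 3 ≤ L := by omega
    have hLL : L ≤ Lm := by omega
    have hR1 := hR.h15
    have he' := ent_spec (t0 := t0) (m0 := m0) (c := c) (q := q) (e := e) (L := L) (by omega) he
      (by omega) (okR_spec hok hL3 hLL) d hy0 (by
        rw [hLd] at hyX
        exact hyX) A
    have h1 : (ent t0 m0 c q e L : ℝ) / 10 ^ 10 ≤ (rowE t0 m0 c q e Lm : ℝ) / 10 ^ 10 := by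
      refine div_le_div_of_nonneg_right ?_ (by positivity)
      exact_mod_cast (mx_ge hL3 hLL).trans (le_max_left _ _)
    refine le_trans ?_ (he'.trans h1)
    unfold rowS
    rw [hLd, ← hcdef]
    refine mul_le_mul_of_nonneg_left (sum_le_sum fun a _ => ?_) (by positivity)
    have := hy (a + e)
    rw [hLd] at this
    exact mul_le_mul_of_nonneg_left this (Wa_nonneg _ _ _)

end Pool.JM.FR
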