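import Pool.Agent.Work.MP_46fa68_38.Far6

/-!
# MP_46fa68_co (S4, R1): the sum over the rows `≥ 3`, the far rows
-/

set_option autoImplicit false

open Finset Equiv

namespace Pool.JM.FR

/-- sum of the bounds of the rows with `2, .., nC + 1` beads above; `Lc`: cap of the lengths -/
def lowE (t0 m0 q e Lc : ℕ) : ℕ → ℕ
  | 0 => 0
  | k + 1 => lowE t0 m0 q e Lc k + rowE t0 m0 (k + 2) q e (min Lc ((t0 + m0) / (k + 3)))

def okE (t0 m0 q e Lc : ℕ) : ℕ → Bool
  | 0 => true
  | k + 1 => okE t0 m0 q e Lc k && okR t0 m0 (k + 2) q e (min Lc ((t0 + m0) / (k + 3)))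

/-- **the bound of all rows `≥ 3`** in units `10^(-10)` -/
def lowN (t0 m0 q e Lc nC : ℕ) : ℕ :=
  lowE t0 m0 q e Lc nC + 2 * sentK t0 m0 (nC + 2) q e 96

/-- the side conditions -/
def okLow (t0 m0 q e Lc nC : ℕ) : Bool :=
  okE t0 m0 q e Lc nC && decide (2 ≤ nC) && decide (t0 + m0 < 3 * (nC + 3))

theorem okE_spec {t0 m0 q e Lc : ℕ} : ∀ {nC k : ℕ}, okE t0 m0 q e Lc nC = true → k < nC →
    okR t0 m0 (k + 2) q e (min Lc ((t0 + m0) / (k + 3))) = true
  | 0, k, _, h2 => by omega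
  | nC + 1, k, h, h2 => by
    rw [okE, Bool.and_eq_true] at h
    rcases Nat.lt_or_ge k nC with h' | h'
    · exact okE_spec h.1 h'
    · have : k = nC := by omega
      subst this
      exact h.2

theorem lowE_eq (t0 m0 q e Lc : ℕ) (nC : ℕ) : lowE t0 m0 q e Lc nC =
    ∑ k ∈ range nC, rowE t0 m0 (k + 2) q e (min Lc ((t0 + m0) / (k + 3))) := by
  induction nC with
  | zero => rfl
  | succ n ih => rw [lowE, ih, sum_range_succ]

theorem up_lt {B : Finset ℕ} {x y : ℕ} (hy : y ∈ B) (h : x < y) : up B y < up B x := by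
  unfold up
  refine card_lt_card ⟨fun z hz => ?_, fun hss => ?_⟩
  · rw [mem_filter] at hz ⊢
    exact ⟨hz.1, by omega⟩
  · have := hss (mem_filter.2 ⟨hy, h⟩)
    exact lt_irrefl _ (mem_filter.1 this).2

theorem up_inj (B : Finset ℕ) : Set.InjOn (up B) B := by
  intro x hx y hy h
  rcases lt_trichotomy x y with h1 | h1 | h1
  · have := up_lt (mem_coe.1 hy) h1
    omega
  · exact h1
  · have := up_lt (mem_coe.1 hx) h1
    omega

theorem le_min_add {a b c d : ℕ} (h1 : a ≤ b + d) (h2 : a ≤ c + d) : a ≤ min b c + d := by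
  rw [Nat.min_def]
  split_ifs
  · exact h1
  · exact h2

/-- the cap of the row length in all cases -/
theorem rl_le {K t0 m0 d : ℕ} {B : Finset ℕ} (hB : B ∈ Lv K ((t0 + d) + (m0 + d))) {x : ℕ}
    (hx : x ∈ B) (hc : 1 ≤ up B x) : rl B x ≤ (t0 + m0) / (up B x + 1) + d := by
  obtain ⟨h, -, -⟩ := Rr_all hB hx
  rcases Nat.lt_or_ge (rl B x) d with h1 | h1
  · exact h1.le.trans (Nat.le_add_left _ _)
  · obtain ⟨L, hL⟩ : ∃ L, rl B x = L + d := ⟨rl B x - d, by omega⟩
    rw [hL] at h ⊢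
    have h2 : L ≤ (t0 + m0) / (up B x + 1) := by
      rw [Nat.le_div_iff_mul_le (by omega)]
      have : (up B x + 1) * (L + d) = L * (up B x + 1) + (up B x + 1) * d := by ring
      have h3 : 2 * d ≤ (up B x + 1) * d := Nat.mul_le_mul_right _ (by omega)
      omega
    exact Nat.add_le_add_right h2 d

/-- **(LOW)** the rows with at least two beads above -/
theorem low_bound {K t0 m0 q e Lc nC : ℕ} (hR : Rg t0 m0) (he : e ≤ 1)
    (hok : okLow t0 m0 q e Lc nC = true) (d : ℕ) {B : Finset ℕ}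
    (hB : B ∈ Lv K ((t0 + d) + (m0 + d)))
    (hcap : ∀ x ∈ B, 2 ≤ up B x → rl B x ≤ Lc + d) (A : ℕ) :
    ∑ x ∈ B.filter (fun x => 2 ≤ up B x), rowS (t0 + d) (m0 + d) q e B x A ≤
      (lowN t0 m0 q e Lc nC : ℝ) / 10 ^ 10 := by
  unfold okLow at hok
  simp only [Bool.and_eq_true, decide_eq_true_eq] at hok
  obtain ⟨⟨o1, o2⟩, o3⟩ := hok
  set T : ℝ := (sentK t0 m0 (nC + 2) q e 96 : ℝ) / 10 ^ 10 with hT
  have hT0 : 0 ≤ T := by positivity
  set β : ℕ → ℝ := fun c => if c < nC + 2 then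
      (rowE t0 m0 c q e (min Lc ((t0 + m0) / (c + 1))) : ℝ) / 10 ^ 10
    else T * (1 / 2) ^ (c - (nC + 2)) with hβ
  have hβ0 : ∀ c, 0 ≤ β c := fun c => by
    simp only [hβ]
    split_ifs <;> positivity
  obtain ⟨r1, r2, r3, r4⟩ := hR
  -- every bead
  have h1 : ∀ x ∈ B.filter (fun x => 2 ≤ up B x), rowS (t0 + d) (m0 + d) q e B x A ≤ β (up B x) := by
    intro x hx
    obtain ⟨hxB, h2⟩ := mem_filter.1 hx
    have hcx := hcap x hxB h2
    have hrl := rl_le hB hxB (by omega)
    simp only [hβ]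
    split_ifs with hc
    · obtain ⟨k, hk⟩ : ∃ k, up B x = k + 2 := ⟨up B x - 2, by omega⟩
      refine row_bound ⟨r1, r2, r3, r4⟩ he d hB hxB ?_ ?_ A
      · rw [hk]
        exact okE_spec o1 (by omega)
      · exact le_min_add hcx hrl
    · obtain ⟨k, hk⟩ : ∃ k, up B x = nC + 2 + k := ⟨up B x - (nC + 2), by omega⟩
      have hs : rl B x ≤ 3 + d := by
        by_contra hcon
        push Not at hcon
        have h5 : 3 ≤ (t0 + m0) / (up B x + 1) := by
          have := hcon.le.trans hrl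
          by_contra h6
          push Not at h6
          have h7 := lt_of_lt_of_le hcon hrl
          omega
        rw [Nat.le_div_iff_mul_le (by omega)] at h5
        omega
      obtain ⟨d1, i, hi, hr⟩ := short_row (q := q) ⟨r1, r2, r3, r4⟩ he hB hxB hs A
      refine hr.trans ?_
      rw [hk] at hi ⊢
      have := small_tail (c := nC + 2) (q := q) (e := e) r1 r2 r3 he (by omega)
        (by unfold i3; omega) k d1 hi A
      rw [show nC + 2 + k - (nC + 2) = k by omega]
      exact this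
  refine (sum_le_sum h1).trans ?_
  -- the sum over the numbers of beads above
  have hinj : Set.InjOn (up B) (B.filter (fun x => 2 ≤ up B x)) :=
    (up_inj B).mono fun x hx => by
      have := (mem_filter.1 (mem_coe.1 hx)).1
      exact mem_coe.2 this
  rw [← sum_image (f := β) hinj]
  have hsub : (B.filter (fun x => 2 ≤ up B x)).image (up B) ⊆
      (range (nC + B.card)).image (fun k => k + 2) := by
    intro c hc
    obtain ⟨x, hx, rfl⟩ := mem_image.1 hc
    obtain ⟨hxB, h2⟩ := mem_filter.1 hx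
    have : up B x ≤ B.card := card_le_card (filter_subset _ _)
    exact mem_image.2 ⟨up B x - 2, mem_range.2 (by omega), by omega⟩
  refine (sum_le_sum_of_subset_of_nonneg hsub fun _ _ _ => hβ0 _).trans ?_
  rw [sum_image (fun a _ b _ h => by simpa using h), sum_range_add]
  have e1 : ∑ k ∈ range nC, β (k + 2) = (lowE t0 m0 q e Lc nC : ℝ) / 10 ^ 10 := by
    rw [lowE_eq]
    push_cast
    rw [sum_div]
    refine sum_congr rfl fun k hk => ?_
    have := mem_range.1 hk
    simp only [hβ]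
    rw [if_pos (by omega)]
  have e2 : ∑ k ∈ range B.card, β (nC + k + 2) ≤ 2 * T := by
    have : ∀ k ∈ range B.card, β (nC + k + 2) = T * (1 / 2) ^ k := fun k _ => by
      simp only [hβ]
      rw [if_neg (by omega), show nC + k + 2 - (nC + 2) = k by omega]
    rw [sum_congr rfl this, ← mul_sum]
    have hg : ∑ k ∈ range B.card, (1 / 2 : ℝ) ^ k ≤ 2 := by
      have h := Summable.sum_le_tsum (f := fun k : ℕ => (1 / 2 : ℝ) ^ k) (range B.card)
        (fun _ _ => by positivity) (summable_geometric_of_lt_one (by norm_num) (by norm_num))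
      rw [tsum_geometric_of_lt_one (by norm_num) (by norm_num)] at h
      refine h.trans ?_
      norm_num
    calc T * ∑ k ∈ range B.card, (1 / 2 : ℝ) ^ k ≤ T * 2 := mul_le_mul_of_nonneg_left hg hT0
      _ = 2 * T := by ring
  rw [e1]
  unfold lowN
  push_cast
  calc _ ≤ (lowE t0 m0 q e Lc nC : ℝ) / 10 ^ 10 + 2 * T := by linarith
    _ = _ := by rw [hT]; ring

/-! ## far rows -/

/-- the bound of a row with `c` beads above in a layer `> J` -/
def farN (t0 m0 c q e J : ℕ) : ℕ :=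
  rowE t0 m0 c q e (if c = 0 then m0 - (J + 1) else min (m0 + c - (J + 1)) ((t0 + m0) / (c + 1)))

def okFar (t0 m0 c q e J : ℕ) : Bool :=
  okR t0 m0 c q e (if c = 0 then m0 - (J + 1) else min (m0 + c - (J + 1)) ((t0 + m0) / (c + 1))) &&
  decide (J + 1 ≤ m0)

/-- **(FAR)** a bead in a layer `m + c - rl > J` -/
theorem far_bound {K t0 m0 c q e J : ℕ} (hR : Rg t0 m0) (he : e ≤ 1)
    (hok : okFar t0 m0 c q e J = true) (d : ℕ) {B : Finset ℕ}
    (hB : B ∈ Lv K ((t0 + d) + (m0 + d))) {x : ℕ} (hx : x ∈ B) (hc : up B x = c)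
    (hJ : rl B x + J + 1 ≤ m0 + d + c) (A : ℕ) :
    rowS (t0 + d) (m0 + d) q e B x A ≤ (farN t0 m0 c q e J : ℝ) / 10 ^ 10 := by
  unfold okFar at hok
  simp only [Bool.and_eq_true, decide_eq_true_eq] at hok
  obtain ⟨o1, o2⟩ := hok
  subst hc
  refine row_bound hR he d hB hx o1 ?_ A
  split_ifs with h0
  · omega
  · exact le_min_add (by omega) (rl_le hB hx (by omega))

end Pool.JM.FR
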