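import Pool.Agent.Work.MP_46fa68_38.Far7
import Pool.Agent.Work.MP_46fa68_35.Var

/-!
# MP_46fa68_co (S4, R1): the bounds in terms of helper47's one-bead functions

`σ q e` = bound of `m^e ∑_a |weight| |Rr B x (a + e)|` for the source `q`.
-/

set_option autoImplicit false

open Finset Equiv

namespace Pool.JM.FR

open Pool.OB

theorem abs_wq (t i a : ℕ) : |wq t i a| = Wa t i a := by
  unfold wq Wa
  rw [abs_mul, abs_mul, abs_pow, abs_neg, abs_one, one_pow, one_mul, Nat.abs_cast, Nat.abs_cast]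

theorem abs_wt_le (t i p : ℕ) : |wt t i p| ≤ Wa t i p := by
  unfold wt
  by_cases hi : i = 0
  · rw [if_pos hi]
    subst hi
    by_cases hp : p = 0
    · subst hp
      rw [if_pos rfl]
      unfold Wa
      simp
    · rw [if_neg hp, abs_zero]
      exact Wa_nonneg _ _ _
  · rw [if_neg hi]
    by_cases hp : p = 0
    · rw [if_pos hp, mul_zero, abs_zero]
      exact Wa_nonneg _ _ _
    · rw [if_neg hp]
      unfold Wa
      rw [abs_mul, abs_mul, abs_pow, abs_neg, abs_one, one_pow, one_mul, Nat.abs_cast, Nat.abs_cast]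
      refine mul_le_mul_of_nonneg_left ?_ (Nat.cast_nonneg _)
      have h : (p - 1).choose (i - 1) ≤ p.choose i := by
        obtain ⟨p, rfl⟩ : ∃ k, p = k + 1 := ⟨p - 1, by omega⟩
        obtain ⟨i, rfl⟩ : ∃ k, i = k + 1 := ⟨i - 1, by omega⟩
        rw [Nat.choose_succ_succ, Nat.add_sub_cancel, Nat.add_sub_cancel]
        exact Nat.le_add_right _ _
      exact_mod_cast h

/-- the kernel per layer, absolute value; `j : ℤ`, `iq q = (q - 1 + j).toNat` -/
theorem abs_kl_le {t Q : ℕ} {v : ℕ → ℕ → ℝ} (τ : ℝ) (hv : ∀ q p, 2 ≤ p → v q p = 0) (j : ℤ)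
    (p : ℕ) : |kl t Q v τ j p| ≤
      (∑ q ∈ range Q, (Wa t ((q : ℤ) - 1 + j).toNat p * |v q 0| +
        if p = 0 then 0 else Wa t ((q : ℤ) - 1 + j).toNat (p - 1) * |v q 1|)) +
      |τ| * Wa t ((Q : ℤ) - 1 + j).toNat p := by
  unfold kl
  refine (abs_add_le _ _).trans (add_le_add ?_ ?_)
  · refine (abs_sum_le_sum_abs _ _).trans (sum_le_sum fun q _ => ?_)
    have hn : 0 ≤ Wa t ((q : ℤ) - 1 + j).toNat p * |v q 0| +
        if p = 0 then 0 else Wa t ((q : ℤ) - 1 + j).toNat (p - 1) * |v q 1| := by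
      refine add_nonneg (mul_nonneg (Wa_nonneg _ _ _) (abs_nonneg _)) ?_
      split_ifs
      · exact le_rfl
      · exact mul_nonneg (Wa_nonneg _ _ _) (abs_nonneg _)
    split_ifs with h hp
    · rw [inner_two t _ (v q) (fun p hp => hv q p hp), if_pos hp, add_zero, add_zero, abs_mul,
        abs_wq]
    · rw [inner_two t _ (v q) (fun p hp => hv q p hp), if_neg hp]
      refine (abs_add_le _ _).trans (le_of_eq ?_)
      rw [abs_mul, abs_mul, abs_wq, abs_wq]
    · rename_i hp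
      rw [abs_zero]
      rw [if_pos hp] at hn
      exact hn
    · rename_i hp
      rw [abs_zero]
      rw [if_neg hp] at hn
      exact hn
  · rw [abs_mul]
    exact mul_le_mul_of_nonneg_left (abs_wt_le _ _ _) (abs_nonneg _)

/-- the partial sums of one bead in terms of `rowS` -/
theorem HIx_part {K m t Q : ℕ} (hm : 1 ≤ m) {v : ℕ → ℕ → ℝ} (τ : ℝ)
    (hv : ∀ q p, 2 ≤ p → v q p = 0) {n : ℕ} {B : Finset ℕ} (hB : B ∈ Lv K n) {x : ℕ}
    (hx : x ∈ B) (A : ℕ) :
    ∑ p ∈ range A, |kl t Q v τ (((K - 1 + m : ℕ) : ℤ) - x) p * Rr B x p| ≤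
      (∑ q ∈ range Q, (|v q 0| * rowS t m q 0 B x A + |v q 1| / m * rowS t m q 1 B x A)) +
        |τ| * rowS t m Q 0 B x A := by
  have hmR : (0 : ℝ) < m := by exact_mod_cast hm
  set j : ℤ := ((K - 1 + m : ℕ) : ℤ) - x with hj
  have hix : ∀ q : ℕ, ((q : ℤ) - 1 + j).toNat = ix m (up B x) q (rl B x) := by
    intro q
    obtain ⟨a, R, h1, h2, -, -⟩ := bead_data hB hx
    have hup : up B x = (B.filter (x < ·)).card := rfl
    have hdn : dn B x = (B.filter (· < x)).card := rfl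
    unfold ix rl
    rw [hup, hdn]
    omega
  have e1 : ∀ p ∈ range A, |kl t Q v τ j p * Rr B x p| ≤
      (∑ q ∈ range Q, (|v q 0| * (Wa t (ix m (up B x) q (rl B x)) p * |Rr B x p|) +
        |v q 1| * (if p = 0 then 0 else Wa t (ix m (up B x) q (rl B x)) (p - 1) * |Rr B x p|))) +
      |τ| * (Wa t (ix m (up B x) Q (rl B x)) p * |Rr B x p|) := by
    intro p _
    rw [abs_mul]
    have h1 := mul_le_mul_of_nonneg_right (abs_kl_le (t := t) (Q := Q) τ hv j p)
      (abs_nonneg (Rr B x p))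
    refine h1.trans (le_of_eq ?_)
    rw [add_mul, sum_mul, hix]
    congr 1
    · refine sum_congr rfl fun q _ => ?_
      rw [hix]
      split_ifs <;> ring
    · ring
  refine (sum_le_sum e1).trans ?_
  rw [sum_add_distrib, sum_comm, ← mul_sum]
  refine add_le_add (sum_le_sum fun q _ => ?_) (le_of_eq ?_)
  · rw [sum_add_distrib, ← mul_sum, ← mul_sum]
    refine add_le_add (le_of_eq ?_) ?_
    · unfold rowS
      simp
    · have e2 : ∑ p ∈ range A, (if p = 0 then 0 else Wa t (ix m (up B x) q (rl B x)) (p - 1) *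
          |Rr B x p|) ≤ rowS t m q 1 B x A / m := by
        have e3 : rowS t m q 1 B x A / m =
            ∑ a ∈ range A, Wa t (ix m (up B x) q (rl B x)) a * |Rr B x (a + 1)| := by
          unfold rowS
          rw [pow_one]
          field_simp
        rw [e3]
        cases A with
        | zero => simp
        | succ A =>
          rw [sum_range_succ', if_pos rfl, add_zero, sum_range_succ]
          have : ∀ p ∈ range A, (if p + 1 = 0 then 0 else
              Wa t (ix m (up B x) q (rl B x)) (p + 1 - 1) * |Rr B x (p + 1)|) =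
              Wa t (ix m (up B x) q (rl B x)) p * |Rr B x (p + 1)| := fun p _ => by
            rw [if_neg (Nat.succ_ne_zero p), Nat.add_sub_cancel]
          rw [sum_congr rfl this]
          have := mul_nonneg (Wa_nonneg t (ix m (up B x) q (rl B x)) A)
            (abs_nonneg (Rr B x (A + 1)))
          linarith
      calc |v q 1| * _ ≤ |v q 1| * (rowS t m q 1 B x A / m) :=
            mul_le_mul_of_nonneg_left e2 (abs_nonneg _)
        _ = |v q 1| / m * rowS t m q 1 B x A := by ring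
  · unfold rowS
    simp

/-- **a set of beads in terms of `rowS`** -/
theorem HIx_sum_le {K m t Q : ℕ} (hm : 1 ≤ m) {v : ℕ → ℕ → ℝ} (τ : ℝ)
    (hv : ∀ q p, 2 ≤ p → v q p = 0) {n : ℕ} {B : Finset ℕ} (hB : B ∈ Lv K n) {S : Finset ℕ}
    (hS : S ⊆ B) (σ : ℕ → ℕ → ℝ)
    (hσ : ∀ q, q ≤ Q → ∀ e, e ≤ 1 → ∀ A, ∑ x ∈ S, rowS t m q e B x A ≤ σ q e) :
    ∑ x ∈ S, |HIx K m t Q v τ B x| ≤
      (∑ q ∈ range Q, (|v q 0| * σ q 0 + |v q 1| / m * σ q 1)) + |τ| * σ Q 0 := by
  have hmR : (0 : ℝ) < m := by exact_mod_cast hm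
  set bd := (∑ q ∈ range Q, (|v q 0| * σ q 0 + |v q 1| / m * σ q 1)) + |τ| * σ Q 0 with hbd
  set f : ℕ → ℕ → ℝ := fun x p => |kl t Q v τ (((K - 1 + m : ℕ) : ℤ) - x) p * Rr B x p| with hf
  have hf0 : ∀ x p, 0 ≤ f x p := fun x p => abs_nonneg _
  have hpart : ∀ A, ∑ p ∈ range A, ∑ x ∈ S, f x p ≤ bd := by
    intro A
    rw [sum_comm]
    have e1 : ∀ x ∈ S, ∑ p ∈ range A, f x p ≤
        (∑ q ∈ range Q, (|v q 0| * rowS t m q 0 B x A + |v q 1| / m * rowS t m q 1 B x A)) +
          |τ| * rowS t m Q 0 B x A := fun x hx => HIx_part hm τ hv hB (hS hx) A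
    refine (sum_le_sum e1).trans ?_
    rw [sum_add_distrib, sum_comm, ← mul_sum, hbd]
    refine add_le_add (sum_le_sum fun q hq => ?_)
      (mul_le_mul_of_nonneg_left (hσ Q le_rfl 0 (by omega) A) (abs_nonneg _))
    have hqQ : q ≤ Q := (mem_range.1 hq).le
    rw [sum_add_distrib, ← mul_sum, ← mul_sum]
    exact add_le_add (mul_le_mul_of_nonneg_left (hσ q hqQ 0 (by omega) A) (abs_nonneg _))
      (mul_le_mul_of_nonneg_left (hσ q hqQ 1 le_rfl A) (by positivity))
  have hsum : ∀ x ∈ S, Summable (f x) := by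
    intro x hx
    refine summable_of_sum_range_le (c := bd) (hf0 x) fun A => ?_
    refine le_trans (sum_le_sum fun p _ => ?_) (hpart A)
    exact single_le_sum (f := fun x => f x p) (fun y _ => hf0 y p) hx
  have h1 : ∀ x ∈ S, |HIx K m t Q v τ B x| ≤ ∑' p, f x p := by
    intro x hx
    unfold HIx
    exact norm_tsum_le_tsum_norm
      (f := fun p => kl t Q v τ (((K - 1 + m : ℕ) : ℤ) - x) p * Rr B x p) (hsum x hx)
  refine (sum_le_sum h1).trans ?_
  rw [← Summable.tsum_finsetSum hsum]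
  exact Real.tsum_le_of_sum_range_le (fun p => sum_nonneg fun x _ => hf0 x p) hpart

/-- **one bead in terms of `rowS`** -/
theorem HIx_le {K m t Q : ℕ} (hm : 1 ≤ m) {v : ℕ → ℕ → ℝ} (τ : ℝ)
    (hv : ∀ q p, 2 ≤ p → v q p = 0) {n : ℕ} {B : Finset ℕ} (hB : B ∈ Lv K n) {x : ℕ}
    (hx : x ∈ B) (σ : ℕ → ℕ → ℝ) (hσ : ∀ q, q ≤ Q → ∀ e, e ≤ 1 → ∀ A, rowS t m q e B x A ≤ σ q e) :
    |HIx K m t Q v τ B x| ≤
      (∑ q ∈ range Q, (|v q 0| * σ q 0 + |v q 1| / m * σ q 1)) + |τ| * σ Q 0 := by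
  have h := HIx_sum_le hm τ hv hB (S := {x}) (singleton_subset_iff.2 hx) σ
    (fun q hq e he A => by rw [sum_singleton]; exact hσ q hq e he A)
  rwa [sum_singleton] at h

/-- the number of a coefficient table: `σ q e = N q e / 10^10` -/
noncomputable def bdN (m Q : ℕ) (v : ℕ → ℕ → ℝ) (τ : ℝ) (N : ℕ → ℕ → ℕ) : ℝ :=
  ((∑ q ∈ range Q, (|v q 0| * N q 0 + |v q 1| / m * N q 1)) + |τ| * N Q 0) / 10 ^ 10

theorem bdN_eq (m Q : ℕ) (v : ℕ → ℕ → ℝ) (τ : ℝ) (N : ℕ → ℕ → ℕ) :
    (∑ q ∈ range Q, (|v q 0| * ((N q 0 : ℝ) / 10 ^ 10) + |v q 1| / m * ((N q 1 : ℝ) / 10 ^ 10))) +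
      |τ| * ((N Q 0 : ℝ) / 10 ^ 10) = bdN m Q v τ N := by
  unfold bdN
  rw [add_div, sum_div]
  congr 1
  · exact sum_congr rfl fun q _ => by ring
  · ring

/-! ## the two top beads -/

theorem Two.up1 {k L b s : ℕ} {B : Finset ℕ} (h : Two k L b s B) : up B (k + 1 + L) = 0 := by
  unfold up
  rw [card_eq_zero, filter_eq_empty_iff]
  intro y hy
  have := h.top y hy
  omega

theorem Two.dn1 {k L b s : ℕ} {B : Finset ℕ} (h : Two k L b s B) : dn B (k + 1 + L) = k + 1 := by
  unfold dn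
  have e : B.filter (· < k + 1 + L) = B.erase (k + 1 + L) := by
    ext y
    rw [mem_filter, mem_erase]
    constructor
    · rintro ⟨h1, h2⟩
      exact ⟨by omega, h1⟩
    · rintro ⟨h1, h2⟩
      have := h.top y h2
      exact ⟨h2, by omega⟩
  have hne := two_ne h
  have hm : k + b ∈ B.erase (k + 1 + L) := mem_erase.2 ⟨by omega, h.h2⟩
  rw [e, ← card_erase_add_one hm, h.hc]

theorem Two.up2 {k L b s : ℕ} {B : Finset ℕ} (h : Two k L b s B) : up B (k + b) = 1 := by
  unfold up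
  have e : B.filter (k + b < ·) = {k + 1 + L} := by
    ext y
    rw [mem_filter, mem_singleton]
    have hne := two_ne h
    constructor
    · rintro ⟨h1, h2⟩
      by_contra h3
      have := h.hlt y (mem_erase.2 ⟨by omega, mem_erase.2 ⟨h3, h1⟩⟩)
      omega
    · rintro rfl
      exact ⟨h.h1, hne⟩
  rw [e, card_singleton]

theorem Two.dn2 {k L b s : ℕ} {B : Finset ℕ} (h : Two k L b s B) : dn B (k + b) = k := by
  unfold dn
  have e : B.filter (· < k + b) = (B.erase (k + 1 + L)).erase (k + b) := by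
    ext y
    rw [mem_filter, mem_erase, mem_erase]
    have hne := two_ne h
    constructor
    · rintro ⟨h1, h2⟩
      exact ⟨by omega, by omega, h1⟩
    · rintro ⟨h1, h2, h3⟩
      exact ⟨h3, h.hlt y (mem_erase.2 ⟨h1, mem_erase.2 ⟨h2, h3⟩⟩)⟩
  rw [e, h.hc]

theorem Two.rl1 {k L b s : ℕ} {B : Finset ℕ} (h : Two k L b s B) : rl B (k + 1 + L) = L := by
  unfold rl
  rw [Two.dn1 h]
  omega

theorem Two.rl2 {k L b s : ℕ} {B : Finset ℕ} (h : Two k L b s B) : rl B (k + b) = b := by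
  unfold rl
  rw [Two.dn2 h]
  omega

theorem Two.low {k L b s : ℕ} {B : Finset ℕ} (h : Two k L b s B) :
    B.filter (fun x => x < k + b) = B.filter (fun x => 2 ≤ up B x) := by
  ext y
  rw [mem_filter, mem_filter]
  have hne := two_ne h
  constructor
  · rintro ⟨h1, h2⟩
    have := up_lt h.h2 h2
    rw [Two.up2 h] at this
    exact ⟨h1, this⟩
  · rintro ⟨h1, h2⟩
    refine ⟨h1, ?_⟩
    by_contra h3
    by_cases h4 : y = k + 1 + L
    · rw [h4, Two.up1 h] at h2
      omega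
    · by_cases h5 : y = k + b
      · rw [h5, Two.up2 h] at h2
        omega
      · have := h.hlt y (mem_erase.2 ⟨h5, mem_erase.2 ⟨h4, h1⟩⟩)
        omega

/-- the lower rows have length at most `s` -/
theorem Two.rl_low {k L b s K n : ℕ} {B : Finset ℕ} (h : Two k L b s B) (hB : B ∈ Lv K n) {x : ℕ}
    (hx : x ∈ B) (hlt : x < k + b) : rl B x ≤ s := by
  obtain ⟨a, R, h1, h2, h3, -⟩ := bead_data hB hx
  have hrl : rl B x = a := by
    unfold rl dn
    omega
  rw [hrl]
  set C := (B.erase (k + 1 + L)).erase (k + b) with hC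
  have hxC : x ∈ C := mem_erase.2 ⟨by omega, mem_erase.2 ⟨by have := h.hbL; omega, hx⟩⟩
  -- the beads of `C` which are `≥ x`
  set D := B.filter (· < x) with hD
  have hDC : D ⊆ C := by
    intro y hy
    obtain ⟨y1, y2⟩ := mem_filter.1 hy
    exact mem_erase.2 ⟨by omega, mem_erase.2 ⟨by have := h.hbL; omega, y1⟩⟩
  set E := C \ D with hE
  have hxE : x ∈ E := mem_sdiff.2 ⟨hxC, fun hh => lt_irrefl _ (mem_filter.1 hh).2⟩
  have hEx : ∀ y ∈ E.erase x, x < y := by
    intro y hy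
    obtain ⟨y1, y2⟩ := mem_erase.1 hy
    obtain ⟨y3, y4⟩ := mem_sdiff.1 y2
    have yB : y ∈ B := mem_of_mem_erase (mem_of_mem_erase y3)
    by_contra hcon
    exact y4 (mem_filter.2 ⟨yB, by omega⟩)
  have hcE : E.card + D.card = k := by
    rw [hE, card_sdiff_add_card_eq_card hDC, h.hc]
  have hcE1 : (E.erase x).card + 1 = E.card := card_erase_add_one hxE
  -- lower bound of the sum over `E.erase x`
  have hsumE : ∑ y ∈ E.erase x, (D.card + 1) + ∑ y ∈ range (E.erase x).card, y ≤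
      ∑ y ∈ E.erase x, y := by
    have hinj : Set.InjOn (fun y => y - (D.card + 1)) (E.erase x) := by
      intro y hy z hz hyz
      have i1 := hEx y (mem_coe.1 hy)
      have i2 := hEx z (mem_coe.1 hz)
      simp only at hyz
      omega
    have h5 := sum_range_le (B := (E.erase x).image fun y => y - (D.card + 1)) rfl
    rw [card_image_of_injOn hinj, sum_image hinj] at h5
    calc _ ≤ ∑ y ∈ E.erase x, (D.card + 1) + ∑ y ∈ E.erase x, (y - (D.card + 1)) :=
          Nat.add_le_add_left h5 _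
      _ = _ := by
        rw [← sum_add_distrib]
        refine sum_congr rfl fun y hy => ?_
        have i1 := hEx y hy
        omega
  have e1 : ∑ y ∈ C, y = ∑ y ∈ D, y + (x + ∑ y ∈ E.erase x, y) := by
    rw [add_sum_erase E (fun y => y) hxE, hE, add_comm, sum_sdiff hDC]
  have e2 : ∑ y ∈ range k, y = ∑ y ∈ range D.card, y + (D.card +
      (∑ y ∈ E.erase x, (D.card + 1) + ∑ y ∈ range (E.erase x).card, y)) := by
    rw [sum_const, smul_eq_mul]
    have hk : k = D.card + 1 + (E.erase x).card := by omega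
    rw [hk, sum_range_add, sum_range_succ, sum_add_distrib, sum_const, card_range, smul_eq_mul]
    ring
  have hs := h.hs
  rw [← hC, e1, e2, h3] at hs
  omega

end Pool.JM.FR
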