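import Pool.Agent.Work.MP_46fa68_38.Far8

/-!
# MP_46fa68_co (S4, R1): final form

`t0` lifts and wall `m0` at the start, `t = t0 + d`, `m = m0 + d`, `N = t + m`; `k + 2` beads.
All numbers are natural numbers computed in the kernel (units `10^(-10)`), at `d = 0` only.
-/

set_option autoImplicit false

open Finset Equiv

namespace Pool.JM.FR

open Pool.OB

/-- **(LOW)** the rows `≥ 3`; `Lc` = cap of their length at `d = 0` (`s ≤ Lc + d`, or no cap) -/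
theorem HL_le {k L b s t0 m0 Q Lc nC d : ℕ} (hR : Rg t0 m0) {v : ℕ → ℕ → ℝ} (τ : ℝ)
    (hv : ∀ q p, 2 ≤ p → v q p = 0)
    (hok : ∀ q, q ≤ Q → ∀ e, e ≤ 1 → okLow t0 m0 q e Lc nC = true) {B : Finset ℕ}
    (h : Two k L b s B) (hB : B ∈ Lv (k + 2) ((t0 + d) + (m0 + d)))
    (hs : s ≤ Lc + d ∨ (t0 + m0) / 3 ≤ Lc) :
    |HL (k + 2) (m0 + d) (t0 + d) Q v τ B (k + b)| ≤
      bdN (m0 + d) Q v τ (fun q e => lowN t0 m0 q e Lc nC) := by
  have hR3 := hR.h13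
  have hcap : ∀ x ∈ B, 2 ≤ up B x → rl B x ≤ Lc + d := by
    intro x hx h2
    rcases hs with hs | hs
    · have hx2 : x ∈ B.filter (fun x => x < k + b) := by
        rw [Two.low h]
        exact mem_filter.2 ⟨hx, h2⟩
      exact (Two.rl_low h hB hx (mem_filter.1 hx2).2).trans hs
    · have h3 := rl_le hB hx (by omega)
      have h4 : (t0 + m0) / (up B x + 1) ≤ (t0 + m0) / 3 := Nat.div_le_div_left (by omega) (by norm_num)
      exact h3.trans (Nat.add_le_add_right (h4.trans hs) d)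
  unfold HL
  rw [Two.low h]
  refine (abs_sum_le_sum_abs _ _).trans ?_
  rw [← bdN_eq]
  exact HIx_sum_le (by omega) τ hv hB (filter_subset _ _)
    (fun q e => (lowN t0 m0 q e Lc nC : ℝ) / 10 ^ 10)
    (fun q hq e he A => low_bound hR he (hok q hq e he) d hB hcap A)

/-- **(FAR1)** the top bead in a layer `m - L > J` -/
theorem HIx_far1 {k L b s t0 m0 Q J d : ℕ} (hR : Rg t0 m0) {v : ℕ → ℕ → ℝ} (τ : ℝ)
    (hv : ∀ q p, 2 ≤ p → v q p = 0)
    (hok : ∀ q, q ≤ Q → ∀ e, e ≤ 1 → okFar t0 m0 0 q e J = true) {B : Finset ℕ}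
    (h : Two k L b s B) (hB : B ∈ Lv (k + 2) ((t0 + d) + (m0 + d))) (hJ : L + J + 1 ≤ m0 + d) :
    |HIx (k + 2) (m0 + d) (t0 + d) Q v τ B (k + 1 + L)| ≤
      bdN (m0 + d) Q v τ (fun q e => farN t0 m0 0 q e J) := by
  have hR3 := hR.h13
  rw [← bdN_eq]
  exact HIx_le (by omega) τ hv hB h.h1 (fun q e => (farN t0 m0 0 q e J : ℝ) / 10 ^ 10)
    (fun q hq e he A => far_bound hR he (hok q hq e he) d hB h.h1 (Two.up1 h)
      (by rw [Two.rl1 h]; omega) A)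

/-- **(FAR2)** the second bead in a layer `m + 1 - b > J` -/
theorem HIx_far2 {k L b s t0 m0 Q J d : ℕ} (hR : Rg t0 m0) {v : ℕ → ℕ → ℝ} (τ : ℝ)
    (hv : ∀ q p, 2 ≤ p → v q p = 0)
    (hok : ∀ q, q ≤ Q → ∀ e, e ≤ 1 → okFar t0 m0 1 q e J = true) {B : Finset ℕ}
    (h : Two k L b s B) (hB : B ∈ Lv (k + 2) ((t0 + d) + (m0 + d))) (hJ : b + J ≤ m0 + d) :
    |HIx (k + 2) (m0 + d) (t0 + d) Q v τ B (k + b)| ≤
      bdN (m0 + d) Q v τ (fun q e => farN t0 m0 1 q e J) := by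
  have hR3 := hR.h13
  rw [← bdN_eq]
  exact HIx_le (by omega) τ hv hB h.h2 (fun q e => (farN t0 m0 1 q e J : ℝ) / 10 ^ 10)
    (fun q hq e he A => far_bound hR he (hok q hq e he) d hB h.h2 (Two.up2 h)
      (by rw [Two.rl2 h]; omega) A)

end Pool.JM.FR
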