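import Pool.Agent.Work.MP_46fa68_38.Far10

/-!
# MP_46fa68_co (S4, P): mode A, the absolute sum of the combined kernel

One bead with `c` beads above it, row length `len`, layer `j = m1 + c - len`:
`|HIx| * den ≤ ∑_p |kap_p| C(t+p-1,p) Cb c p nuR(p; len, (2 m1 - (c+1) len)/len)`.
-/

set_option autoImplicit false

open Finset Equiv

namespace Pool.JM.FR

open Pool.OB Pool.NV Pool.NW

/-- the weights without the factorials -/
theorem kl_kap {cf : Cf} {m t den : ℕ} {u j : ℤ} (hm : 0 < m) (ht : (t : ℤ) + u = m) (ht1 : 1 ≤ t)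
    (hden : 0 < den) (p : ℕ) :
    kl t cf.v.length (vC cf m den) (tauC cf m den) j p * den =
      ((t + p - 1).choose p : ℝ) * NW.kap cf u (1 / m) j p := by
  have hden' : (den : ℝ) ≠ 0 := by exact_mod_cast hden.ne'
  unfold kl NW.kap
  rw [mul_add, NW.kapv_eq (M' := 0) (den := den) (j := j) hm ht ht1 p cf.v (j - 1), add_mul, sum_mul]
  have e3 : ∀ q : ℕ, (q : ℤ) - 1 + j = j - 1 + q := fun q => by ring
  congr 1
  · refine sum_congr rfl fun q _ => ?_
    rw [e3 q]
    split_ifs with h hp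
    · rw [inner_two t _ (vC cf m den q) (fun p hp => vC_two hp)]
      subst hp
      rw [if_pos rfl, add_zero, add_zero]
      unfold vC
      rw [if_pos rfl]
      field_simp
    · rw [inner_two t _ (vC cf m den q) (fun p hp => vC_two hp), if_neg hp]
      unfold vC
      rw [if_pos rfl, if_neg (by norm_num), if_pos rfl]
      field_simp
    · rw [zero_mul]
  · have h2 := tlw_cast t p (j - 1 + cf.v.length)
    rw [show ((cf.v.length : ℕ) : ℤ) - 1 + j = j - 1 + cf.v.length by ring, ← h2]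
    unfold tauC
    field_simp

/-- `C(t+p-1,p) Cb c p nuR p len x` -/
noncomputable def Qp (t c len : ℕ) (x : ℝ) (p : ℕ) : ℝ :=
  ((t + p - 1).choose p : ℝ) * (Cb c p * nuR p len x)

theorem Qp_nonneg {t c len : ℕ} {x : ℝ} (hx : 0 ≤ x) (p : ℕ) : 0 ≤ Qp t c len x p :=
  mul_nonneg (Nat.cast_nonneg _) (mul_nonneg (Cb_nonneg _ _) (nuR_nonneg _ _ hx))

theorem Qp_step {t c len p : ℕ} {x : ℝ} (ht : 1 ≤ t) (ht2 : t ≤ 160) (hc : c ≤ 5) (hx : 0 ≤ x)
    (hp : 30 ≤ p) : 4 * ((p : ℝ) + 1) * Qp t c len x (p + 1) ≤ p * Qp t c len x p := by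
  have h1 := choose_i (t := t) (i := p) ht
  have h2 := Cb_succ_le (c := c) (p := p) (by omega)
  have n1 := Cb_nonneg c p
  have n2 := Cb_nonneg c (p + 1)
  have n3 := nuR_nonneg p len hx
  have hpR : (30 : ℝ) ≤ p := by exact_mod_cast hp
  have hcR : (c : ℝ) ≤ 5 := by exact_mod_cast hc
  have hc0 : (0 : ℝ) ≤ c := Nat.cast_nonneg c
  have htR : (t : ℝ) ≤ 160 := by exact_mod_cast ht2
  have ht0 : (0 : ℝ) ≤ t := Nat.cast_nonneg t
  have hl : (0 : ℝ) ≤ len := Nat.cast_nonneg len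
  have h3 : Cb c (p + 1) ≤ 6 / 5 * Cb c p := by
    have h4 : Cb c (p + 1) * ((p : ℝ) - c) ≥ Cb c (p + 1) * (5 / 6 * p) :=
      mul_le_mul_of_nonneg_left (by linarith) n2
    have h5 : Cb c (p + 1) * (5 / 6 * p) ≤ Cb c p * p := h4.le.trans h2
    have hp0 : (0 : ℝ) < p := by linarith
    have h6 : (Cb c (p + 1) * (5 / 6)) * p ≤ Cb c p * p := by linarith
    have h7 := le_of_mul_le_mul_right h6 hp0
    linarith
  have h4 : nuR (p + 1) len x ≤ nuR p len x * (1 / ((p : ℝ) + 1)) := by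
    rw [nuR_succ]
    refine mul_le_mul_of_nonneg_left ?_ n3
    refine div_le_div_of_nonneg_right ?_ (by positivity)
    rw [div_le_one (by positivity)]
    linarith
  have e3 : ((t + (p + 1) - 1).choose (p + 1) : ℝ) =
      ((t + p - 1).choose p : ℝ) * (((t : ℝ) + p) / ((p : ℝ) + 1)) := by
    rw [← mul_div_assoc, eq_div_iff (by positivity)]
    exact h1
  unfold Qp
  rw [e3]
  set C0 : ℝ := ((t + p - 1).choose p : ℝ) with hC0
  have hC : 0 ≤ C0 := Nat.cast_nonneg _
  have n5 := nuR_nonneg (p + 1) len hx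
  calc 4 * ((p : ℝ) + 1) * (C0 * (((t : ℝ) + p) / ((p : ℝ) + 1)) * (Cb c (p + 1) * nuR (p + 1) len x))
      ≤ 4 * ((p : ℝ) + 1) * (C0 * (((t : ℝ) + p) / ((p : ℝ) + 1)) * ((6 / 5 * Cb c p) *
        (nuR p len x * (1 / ((p : ℝ) + 1))))) := by
        refine mul_le_mul_of_nonneg_left (mul_le_mul_of_nonneg_left ?_ (by positivity))
          (by positivity)
        exact mul_le_mul h3 h4 n5 (by positivity)
    _ = (24 / 5 * ((t : ℝ) + p) / ((p : ℝ) + 1)) * (C0 * (Cb c p * nuR p len x)) := by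
        field_simp
        ring
    _ ≤ p * (C0 * (Cb c p * nuR p len x)) := by
        refine mul_le_mul_of_nonneg_right ?_ (mul_nonneg hC (mul_nonneg n1 n3))
        rw [div_le_iff₀ (by positivity)]
        nlinarith

/-- the dominating terms of the tail -/
theorem tail_geo {t c len : ℕ} {x : ℝ} (ht : 1 ≤ t) (ht2 : t ≤ 160) (hc : c ≤ 5) (hx : 0 ≤ x)
    (k : ℕ) : ((30 + k : ℕ) : ℝ) * 2 ^ (30 + k) * Qp t c len x (30 + k) ≤
      30 * 2 ^ 30 * Qp t c len x 30 * (1 / 2) ^ k := by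
  induction k with
  | zero => simp
  | succ k ih =>
    have h := Qp_step (c := c) (len := len) (p := 30 + k) ht ht2 hc hx (by omega)
    rw [show 30 + (k + 1) = 30 + k + 1 by ring, pow_succ, pow_succ]
    push_cast at h ih ⊢
    have h2 : (0 : ℝ) < 2 ^ (30 + k) := by positivity
    have h3 := mul_le_mul_of_nonneg_left h h2.le
    calc (30 + (k : ℝ) + 1) * (2 ^ (30 + k) * 2) * Qp t c len x (30 + k + 1)
        = (2 ^ (30 + k) * (4 * (30 + (k : ℝ) + 1) * Qp t c len x (30 + k + 1))) / 2 := by ring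
      _ ≤ (2 ^ (30 + k) * ((30 + (k : ℝ)) * Qp t c len x (30 + k))) / 2 := by
          refine div_le_div_of_nonneg_right ?_ (by norm_num)
          exact h3
      _ = ((30 + (k : ℝ)) * 2 ^ (30 + k) * Qp t c len x (30 + k)) / 2 := by ring
      _ ≤ (30 * 2 ^ 30 * Qp t c len x 30 * (1 / 2) ^ k) / 2 :=
          div_le_div_of_nonneg_right ih (by norm_num)
      _ = _ := by ring

/-! ## the kernel computed number -/

/-- denominator and numerator of `Q_p` -/
def qN (t c len R p : ℕ) : ℕ := asc t p * cbN p c * nuN len R p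
def qD (c len R p : ℕ) : ℕ := fact p * fact c * (nuD len R p * fact p)

theorem qD_pos {c len R p : ℕ} (hl : 1 ≤ len) : 0 < qD c len R p := by
  unfold qD
  have f1 : 0 < fact p := by rw [fact_eq]; exact p.factorial_pos
  have f2 : 0 < fact c := by rw [fact_eq]; exact c.factorial_pos
  have f3 := nuD_pos hl R p
  positivity

theorem Qp_eq {t c len R p : ℕ} (hl : 1 ≤ len) :
    Qp t c len ((R : ℝ) / len) p = (qN t c len R p : ℝ) / (qD c len R p : ℝ) := by
  unfold Qp qN qD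
  rw [nuR_eq hl, Cb_eq, asc_eq, ← fact_eq]
  have f1 : (fact p : ℝ) ≠ 0 := by rw [fact_eq]; exact_mod_cast p.factorial_ne_zero
  have f2 : (fact c : ℝ) ≠ 0 := by rw [fact_eq]; exact_mod_cast c.factorial_ne_zero
  have f3 : (nuD len R p : ℝ) ≠ 0 := by exact_mod_cast (nuD_pos hl R p).ne'
  push_cast
  field_simp

def mT (C : CI) (u : ℤ) (X : NI) (j : ℤ) (t c len R p : ℕ) : ℕ :=
  (abS (NW.kapI C u X j p) * qN t c len R p) / qD c len R p + 1

def mS (C : CI) (u : ℤ) (X : NI) (j : ℤ) (t c len R : ℕ) : ℕ → ℕ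
  | 0 => 0
  | n + 1 => mS C u X j t c len R n + mT C u X j t c len R n

/-- **mode A**: bead with `c` beads above, length `len`, at `m1` (units `2^(-40)`, times `den`) -/
def mA (u : ℤ) (m1 : ℕ) (cf : Cf) (X : NI) (c len : ℕ) : ℕ :=
  let t := ((m1 : ℤ) - u).toNat
  let R := 2 * m1 - (c + 1) * len
  let C := evC cf X
  mS C u X ((m1 : ℤ) + c - len) t c len R 30 +
    (2 * (VN C * (30 * 2 ^ 30) * qN t c len R 30) / qD c len R 30 + 1)

/-- side conditions -/
def okA (u : ℤ) (m1 : ℕ) (X : NI) (c len : ℕ) : Bool :=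
  decide (1 ≤ ((m1 : ℤ) - u).toNat) && decide (((m1 : ℤ) - u).toNat ≤ 160) && decide (c ≤ 5) &&
  decide (1 ≤ len) && decide ((u + 1).toNat * X.hi < S) && decide (u ≤ 29) &&
  decide ((c + 1) * len ≤ 2 * m1) && decide (u ≤ m1)

theorem mode_A {u : ℤ} {cf : Cf} {m1 t den K c len : ℕ} {X : NI} (hm1 : 0 < m1)
    (ht : (t : ℤ) + u = m1) (hden : 0 < den) (hX : Mem (1 / (m1 : ℝ)) X)
    (hok : okA u m1 X c len = true) {B : Finset ℕ} (hB : B ∈ Lv K (2 * m1)) {x : ℕ} (hx : x ∈ B)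
    (hc : up B x = c) (hlen : rl B x = len) :
    |HIx K m1 t cf.v.length (vC cf m1 den) (tauC cf m1 den) B x| * den * (S : ℕ) ≤
      (mA u m1 cf X c len : ℕ) := by
  unfold okA at hok
  simp only [Bool.and_eq_true, decide_eq_true_eq] at hok
  obtain ⟨⟨⟨⟨⟨⟨⟨o1, o2⟩, o3⟩, o4⟩, o5⟩, o6⟩, o7⟩, o8⟩ := hok
  have htt : ((m1 : ℤ) - u).toNat = t := by omega
  rw [htt] at o1 o2
  set R := 2 * m1 - (c + 1) * len with hR
  set j : ℤ := (m1 : ℤ) + c - len with hj
  set xr : ℝ := (R : ℝ) / len with hxr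
  have hlR : (0 : ℝ) < len := by exact_mod_cast o4
  have hxr0 : 0 ≤ xr := by positivity
  have hdR : (0 : ℝ) < den := by exact_mod_cast hden
  have hS : (0 : ℝ) < ((S : ℕ) : ℝ) := by norm_num [S]
  have hmR : (0 : ℝ) < m1 := by exact_mod_cast hm1
  -- the layer
  have hlay : ((K - 1 + m1 : ℕ) : ℤ) - x = j := by
    obtain ⟨a, R', h1, h2, -, -⟩ := bead_data hB hx
    have hup : up B x = (B.filter (x < ·)).card := rfl
    have hdn : dn B x = (B.filter (· < x)).card := rfl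
    rw [hc] at hup
    unfold rl at hlen
    rw [hdn] at hlen
    omega
  -- the ratios
  have hRr : ∀ p, |Rr B x p| ≤ Cb c p * nuR p len xr := by
    obtain ⟨-, -, h3⟩ := Rr_all hB hx
    rw [hc, hlen] at h3
    obtain ⟨y, hy0, hyX, hy⟩ := h3 o4
    intro p
    refine (hy p).trans (mul_le_mul_of_nonneg_left (nuR_mono _ _ hy0 (hyX.trans (le_of_eq ?_)))
      (Cb_nonneg _ _))
    unfold Xn
    rw [hxr, hR, Nat.cast_sub o7]
    push_cast
    ring
  set F : ℕ → ℝ := fun p => |NW.kap cf u (1 / (m1 : ℝ)) j p| * Qp t c len xr p with hF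
  have hF0 : ∀ p, 0 ≤ F p := fun p => mul_nonneg (abs_nonneg _) (Qp_nonneg hxr0 p)
  set k : ℕ → ℝ := fun p => kl t cf.v.length (vC cf m1 den) (tauC cf m1 den) j p * Rr B x p with hk
  have hkF : ∀ p, |k p| * den ≤ F p := by
    intro p
    have e := kl_kap (cf := cf) (den := den) (j := j) hm1 ht o1 hden p
    have e2 : |k p| * den = |kl t cf.v.length (vC cf m1 den) (tauC cf m1 den) j p * den| *
        |Rr B x p| := by
      simp only [hk]
      rw [abs_mul, abs_mul, abs_of_pos hdR]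
      ring
    rw [e2, e, abs_mul, Nat.abs_cast]
    simp only [hF]
    unfold Qp
    have := mul_le_mul_of_nonneg_left (hRr p)
      (by positivity : (0 : ℝ) ≤ ((t + p - 1).choose p : ℝ) * |NW.kap cf u (1 / (m1 : ℝ)) j p|)
    calc _ ≤ _ := this
      _ = _ := by ring
  -- the first 30 terms
  have hT : ∀ p, F p * (S : ℕ) ≤ (mT (evC cf X) u X j t c len R p : ℕ) := by
    intro p
    have h1 := NW.memS_kapI (cf := cf) hX o5 j p
    have h2 := NW.le_abS h1
    have h3 := div_le_floor (NW.abS (NW.kapI (evC cf X) u X j p) * qN t c len R p) (qD c len R p)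
      (qD_pos o4)
    unfold mT
    refine le_trans ?_ h3
    simp only [hF]
    rw [hxr, Qp_eq o4]
    push_cast
    have hq : (0 : ℝ) ≤ (qN t c len R p : ℝ) / (qD c len R p : ℝ) := by positivity
    calc _ = (|NW.kap cf u (1 / (m1 : ℝ)) j p| * (S : ℕ)) * ((qN t c len R p : ℝ) / (qD c len R p : ℝ)) := by
          ring
      _ ≤ (NW.abS (NW.kapI (evC cf X) u X j p) : ℝ) * ((qN t c len R p : ℝ) / (qD c len R p : ℝ)) :=
          mul_le_mul_of_nonneg_right h2 hq
      _ = _ := by ring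
  have hSum : ∀ n, (∑ p ∈ range n, F p) * (S : ℕ) ≤ (mS (evC cf X) u X j t c len R n : ℕ) := by
    intro n
    induction n with
    | zero => simp [mS]
    | succ n ih =>
      rw [sum_range_succ, add_mul, mS]
      push_cast
      exact add_le_add ih (hT n)
  -- the tail
  have hV := VR_le (cf := cf) hX
  have hV0 := VR_nonneg cf (1 / (m1 : ℝ))
  have hx0 : (0 : ℝ) ≤ 1 / (m1 : ℝ) := by positivity
  have hTl : ∀ k', F (30 + k') ≤ VR cf (1 / (m1 : ℝ)) * (30 * 2 ^ 30 * Qp t c len xr 30) *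
      (1 / 2) ^ k' := by
    intro k'
    have h1 := NW.abs_kap_le (cf := cf) (u := u) (j := j) (d := 30 + k') hx0 (by push_cast; omega) (by omega)
    have h2 := tail_geo (c := c) (len := len) o1 o2 o3 hxr0 k'
    have h3 := Qp_nonneg (t := t) (c := c) (len := len) hxr0 (30 + k')
    simp only [hF]
    calc _ ≤ (VR cf (1 / (m1 : ℝ)) * (((30 + k' : ℕ) : ℝ) * 2 ^ (30 + k'))) * Qp t c len xr (30 + k') :=
          mul_le_mul_of_nonneg_right h1 h3
      _ = VR cf (1 / (m1 : ℝ)) * (((30 + k' : ℕ) : ℝ) * 2 ^ (30 + k') * Qp t c len xr (30 + k')) := by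
          ring
      _ ≤ VR cf (1 / (m1 : ℝ)) * (30 * 2 ^ 30 * Qp t c len xr 30 * (1 / 2) ^ k') :=
          mul_le_mul_of_nonneg_left h2 hV0
      _ = _ := by ring
  have hTail : ∀ n, ∑ p ∈ range n, F (30 + p) ≤
      2 * (VR cf (1 / (m1 : ℝ)) * (30 * 2 ^ 30 * Qp t c len xr 30)) := by
    intro n
    refine (sum_le_sum fun p _ => hTl p).trans ?_
    rw [← mul_sum]
    have hg : ∑ k ∈ range n, (1 / 2 : ℝ) ^ k ≤ 2 := by
      have h := Summable.sum_le_tsum (f := fun k : ℕ => (1 / 2 : ℝ) ^ k) (range n)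
        (fun _ _ => by positivity) (summable_geometric_of_lt_one (by norm_num) (by norm_num))
      rw [tsum_geometric_of_lt_one (by norm_num) (by norm_num)] at h
      refine h.trans ?_
      norm_num
    have h0 : 0 ≤ VR cf (1 / (m1 : ℝ)) * (30 * 2 ^ 30 * Qp t c len xr 30) :=
      mul_nonneg hV0 (mul_nonneg (by norm_num) (Qp_nonneg hxr0 30))
    calc _ ≤ VR cf (1 / (m1 : ℝ)) * (30 * 2 ^ 30 * Qp t c len xr 30) * 2 :=
          mul_le_mul_of_nonneg_left hg h0
      _ = _ := by ring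
  have hAll : ∀ n, (∑ p ∈ range n, F p) * (S : ℕ) ≤ (mA u m1 cf X c len : ℕ) := by
    intro n
    have h1 : ∑ p ∈ range n, F p ≤ ∑ p ∈ range (30 + n), F p :=
      sum_le_sum_of_subset_of_nonneg (range_subset_range.2 (by omega)) fun p _ _ => hF0 p
    have h2 : (∑ p ∈ range (30 + n), F p) = ∑ p ∈ range 30, F p + ∑ p ∈ range n, F (30 + p) :=
      sum_range_add _ _ _
    have h3 := hSum 30
    have h4 := hTail n
    have h5 : 2 * (VR cf (1 / (m1 : ℝ)) * (30 * 2 ^ 30 * Qp t c len xr 30)) * (S : ℕ) ≤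
        ((2 * (VN (evC cf X) * (30 * 2 ^ 30) * qN t c len R 30) / qD c len R 30 + 1 : ℕ) : ℝ) := by
      refine le_trans ?_ (div_le_floor (2 * (VN (evC cf X) * (30 * 2 ^ 30) * qN t c len R 30))
        (qD c len R 30) (qD_pos o4))
      rw [hxr, Qp_eq o4]
      push_cast
      have hq : (0 : ℝ) ≤ 2 * (30 * 2 ^ 30) * ((qN t c len R 30 : ℝ) / (qD c len R 30 : ℝ)) := by
        positivity
      calc _ = (VR cf (1 / (m1 : ℝ)) * (S : ℕ)) * (2 * (30 * 2 ^ 30) *
            ((qN t c len R 30 : ℝ) / (qD c len R 30 : ℝ))) := by ring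
        _ ≤ (VN (evC cf X) : ℝ) * (2 * (30 * 2 ^ 30) *
            ((qN t c len R 30 : ℝ) / (qD c len R 30 : ℝ))) := mul_le_mul_of_nonneg_right hV hq
        _ = _ := by ring
    have hmA : (mA u m1 cf X c len : ℕ) = mS (evC cf X) u X j t c len R 30 +
        (2 * (VN (evC cf X) * (30 * 2 ^ 30) * qN t c len R 30) / qD c len R 30 + 1) := by
      unfold mA
      rw [htt]
    rw [hmA]
    push_cast at h5 ⊢
    calc (∑ p ∈ range n, F p) * (S : ℕ) ≤ (∑ p ∈ range (30 + n), F p) * (S : ℕ) :=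
          mul_le_mul_of_nonneg_right h1 hS.le
      _ = (∑ p ∈ range 30, F p) * (S : ℕ) + (∑ p ∈ range n, F (30 + p)) * (S : ℕ) := by
          rw [h2, add_mul]
      _ ≤ (mS (evC cf X) u X j t c len R 30 : ℝ) +
          2 * (VR cf (1 / (m1 : ℝ)) * (30 * 2 ^ 30 * Qp t c len xr 30)) * (S : ℕ) :=
          add_le_add h3 (mul_le_mul_of_nonneg_right h4 hS.le)
      _ ≤ _ := by linarith
  -- the series
  have hpart : ∀ n, ∑ p ∈ range n, |k p| ≤ ((mA u m1 cf X c len : ℕ) : ℝ) / ((S : ℕ) : ℝ) / den := by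
    intro n
    rw [le_div_iff₀ hdR, le_div_iff₀ hS, sum_mul]
    refine le_trans ?_ (hAll n)
    exact mul_le_mul_of_nonneg_right (sum_le_sum fun p _ => hkF p) hS.le
  have hsum : Summable fun p => |k p| := summable_of_sum_range_le (fun _ => abs_nonneg _) hpart
  have h1 : |HIx K m1 t cf.v.length (vC cf m1 den) (tauC cf m1 den) B x| ≤ ∑' p, |k p| := by
    unfold HIx
    rw [hlay]
    exact norm_tsum_le_tsum_norm (f := k) hsum
  have h2 := h1.trans (Real.tsum_le_of_sum_range_le (fun _ => abs_nonneg _) hpart)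
  rw [le_div_iff₀ hdR, le_div_iff₀ hS] at h2
  exact h2

end Pool.JM.FR
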